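import Mathlib

/-! Central limit theorem and square root error for weighted sums of indicators of independent events
(helper949; `taylor`, `factor`, `cdf_tendsto` follow Pool.Agent.H863R2.NL.CLT of helper415). -/

set_option autoImplicit false

namespace Pool.Agent.U949.CL

open MeasureTheory ProbabilityTheory Filter Topology Finset

theorem cdf_tendsto (μ : ℕ → Measure ℝ) [∀ n, IsProbabilityMeasure (μ n)]
    (h : ∀ θ : ℝ, Tendsto (fun n => charFun (μ n) θ) atTop
      (𝓝 (Complex.exp (-(θ ^ 2 / 2 : ℝ))))) (x : ℝ) :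
    Tendsto (fun n => (μ n).real (Set.Iic x)) atTop (𝓝 ((gaussianReal 0 1).real (Set.Iic x))) := by
  set P : ℕ → ProbabilityMeasure ℝ := fun n => ⟨μ n, inferInstance⟩ with hP
  set G : ProbabilityMeasure ℝ := ⟨gaussianReal 0 1, inferInstance⟩ with hG
  have hlim : Tendsto P atTop (𝓝 G) := by
    rw [ProbabilityMeasure.tendsto_iff_tendsto_charFun]
    intro t
    have e1 : charFun (G : Measure ℝ) t = Complex.exp (-(t ^ 2 / 2 : ℝ)) := by
      change charFun (gaussianReal 0 1) t = _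
      rw [charFun_gaussianReal]
      congr 1
      push_cast
      ring
    rw [e1]
    exact h t
  have hnull : (G : Measure ℝ) (frontier (Set.Iic x)) = 0 := by
    rw [frontier_Iic]
    change gaussianReal 0 1 {x} = 0
    haveI := noAtoms_gaussianReal (μ := 0) (v := 1) one_ne_zero
    exact measure_singleton x
  have h1 := ProbabilityMeasure.tendsto_measure_of_null_frontier_of_tendsto' hlim hnull
  exact (ENNReal.tendsto_toReal (measure_ne_top (G : Measure ℝ) (Set.Iic x))).comp h1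

/-- Taylor expansion -/
theorem taylor {z : ℂ} (hz : ‖z‖ ≤ 1) : ‖Complex.exp z - (1 + z + z ^ 2 / 2)‖ ≤ ‖z‖ ^ 3 := by
  have h := Complex.exp_bound hz (n := 3) (by norm_num)
  have e : ∑ m ∈ range 3, z ^ m / (m.factorial : ℂ) = 1 + z + z ^ 2 / 2 := by
    rw [Finset.sum_range_succ, Finset.sum_range_succ, Finset.sum_range_succ, Finset.sum_range_zero]
    norm_num [Nat.factorial]
  rw [e] at h
  refine h.trans ?_
  have h3 : 0 ≤ ‖z‖ ^ 3 := by positivity
  have : (((Nat.succ 3 : ℕ) : ℝ) * (((3 : ℕ).factorial * (3:ℕ) : ℝ))⁻¹) ≤ 1 := by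
    norm_num [Nat.factorial]
  calc _ ≤ ‖z‖ ^ 3 * 1 := mul_le_mul_of_nonneg_left this h3
    _ = _ := mul_one _

/-- one factor -/
theorem factor {p w : ℝ} (hp0 : 0 ≤ p) (hp1 : p ≤ 1) (hw : |w| ≤ 1 / 2) :
    ‖(1 + (p : ℂ) * (Complex.exp (w * Complex.I) - 1)) -
      Complex.exp ((p * w : ℝ) * Complex.I - (p * (1 - p) * w ^ 2 / 2 : ℝ))‖ ≤ 6 * p * |w| ^ 3 := by
  set z : ℂ := (p * w : ℝ) * Complex.I - (p * (1 - p) * w ^ 2 / 2 : ℝ) with hz
  have hw0 := abs_nonneg w
  have hwn : ‖(w : ℂ) * Complex.I‖ = |w| := by simp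
  have hw2 : w ^ 2 = |w| ^ 2 := (sq_abs w).symm
  have hzn : ‖z‖ ≤ 3 / 2 * p * |w| := by
    rw [hz]
    refine (norm_sub_le _ _).trans ?_
    rw [norm_mul, Complex.norm_I, mul_one, Complex.norm_real, Complex.norm_real, Real.norm_eq_abs,
      Real.norm_eq_abs, abs_mul, abs_of_nonneg hp0]
    have h1 : |p * (1 - p) * w ^ 2 / 2| ≤ p * |w| / 2 := by
      have h2 : 0 ≤ p * (1 - p) * w ^ 2 / 2 := by
        have : 0 ≤ 1 - p := by linarith
        positivity
      rw [abs_of_nonneg h2, hw2]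
      have h3 : (1 - p) * |w| ^ 2 ≤ |w| := by nlinarith
      have := mul_le_mul_of_nonneg_left h3 hp0
      linarith
    linarith
  have hz1 : ‖z‖ ≤ 1 := by nlinarith
  have t1 := taylor (z := (w : ℂ) * Complex.I) (by rw [hwn]; linarith)
  have t2 := taylor hz1
  rw [hwn] at t1
  have hzz : z ^ 2 / 2 + (p ^ 2 * w ^ 2 / 2 : ℝ) =
      (-(p ^ 2 * (1 - p) * w ^ 3 / 2) : ℝ) * Complex.I + (p ^ 2 * (1 - p) ^ 2 * w ^ 4 / 8 : ℝ) := by
    rw [hz]
    push_cast
    ring_nf
    simp only [Complex.I_sq]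
    ring
  have hid : (1 + (p : ℂ) * (Complex.exp (w * Complex.I) - 1)) - Complex.exp z =
      (p : ℂ) * (Complex.exp (w * Complex.I) - (1 + w * Complex.I + (w * Complex.I) ^ 2 / 2)) -
      (z ^ 2 / 2 + (p ^ 2 * w ^ 2 / 2 : ℝ)) - (Complex.exp z - (1 + z + z ^ 2 / 2)) := by
    rw [hz]
    push_cast
    ring_nf
    simp only [Complex.I_sq]
    ring
  rw [hid]
  refine (norm_sub_le _ _).trans ?_
  have b1 : ‖(p : ℂ) * (Complex.exp (w * Complex.I) - (1 + w * Complex.I + (w * Complex.I) ^ 2 / 2))‖ ≤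
      p * |w| ^ 3 := by
    rw [norm_mul, Complex.norm_real, Real.norm_eq_abs, abs_of_nonneg hp0]
    exact mul_le_mul_of_nonneg_left t1 hp0
  have hp3 : 0 ≤ 1 - p := by linarith
  have b2 : ‖z ^ 2 / 2 + (p ^ 2 * w ^ 2 / 2 : ℝ)‖ ≤ p * |w| ^ 3 := by
    rw [hzz]
    refine (norm_add_le _ _).trans ?_
    rw [norm_mul, Complex.norm_I, mul_one, Complex.norm_real, Complex.norm_real, Real.norm_eq_abs,
      Real.norm_eq_abs, abs_neg]
    have c1 : |p ^ 2 * (1 - p) * w ^ 3 / 2| ≤ p * |w| ^ 3 / 2 := by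
      rw [abs_div, abs_mul, abs_pow, abs_of_nonneg (by positivity : 0 ≤ p ^ 2 * (1 - p)), abs_two]
      have : p ^ 2 * (1 - p) ≤ p := by nlinarith [mul_nonneg hp0 hp3]
      have := mul_le_mul_of_nonneg_right this (by positivity : 0 ≤ |w| ^ 3)
      linarith
    have c2 : |p ^ 2 * (1 - p) ^ 2 * w ^ 4 / 8| ≤ p * |w| ^ 3 / 8 := by
      rw [abs_div, abs_mul, abs_pow, abs_of_nonneg (by positivity : 0 ≤ p ^ 2 * (1 - p) ^ 2)]
      have h5 : p ^ 2 * (1 - p) ^ 2 ≤ p := by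
        have a1 : p * (1 - p) ≤ 1 := by nlinarith
        have a2 : 0 ≤ p * (1 - p) := mul_nonneg hp0 hp3
        have a3 : p * (1 - p) ≤ p := by nlinarith
        calc p ^ 2 * (1 - p) ^ 2 = (p * (1 - p)) * (p * (1 - p)) := by ring
          _ ≤ 1 * p := mul_le_mul a1 a3 a2 (by norm_num)
          _ = p := one_mul _
      have h6 : |w| ^ 4 ≤ |w| ^ 3 := pow_le_pow_of_le_one hw0 (by linarith) (by norm_num)
      have h7 : p ^ 2 * (1 - p) ^ 2 * |w| ^ 4 ≤ p * |w| ^ 3 :=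
        mul_le_mul h5 h6 (by positivity) hp0
      rw [abs_of_nonneg (by norm_num : (0:ℝ) ≤ 8)]
      linarith
    have : 0 ≤ p * |w| ^ 3 := by positivity
    linarith
  have b3 : ‖Complex.exp z - (1 + z + z ^ 2 / 2)‖ ≤ 4 * (p * |w| ^ 3) := by
    refine t2.trans ?_
    have h1 : ‖z‖ ^ 3 ≤ (3 / 2 * p * |w|) ^ 3 := pow_le_pow_left₀ (norm_nonneg _) hzn 3
    have h2 : (3 / 2 * p * |w|) ^ 3 = (27 / 8 * p ^ 2) * (p * |w| ^ 3) := by ring
    rw [h2] at h1
    have h3 : 27 / 8 * p ^ 2 ≤ 4 := by nlinarith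
    have h4 : 0 ≤ p * |w| ^ 3 := by positivity
    have := mul_le_mul_of_nonneg_right h3 h4
    linarith
  have b4 := norm_sub_le ((p : ℂ) * (Complex.exp (w * Complex.I) -
    (1 + w * Complex.I + (w * Complex.I) ^ 2 / 2))) (z ^ 2 / 2 + (p ^ 2 * w ^ 2 / 2 : ℝ))
  linarith

/-- difference of products -/
theorem prod_diff {ι : Type*} (s : Finset ι) (q r : ι → ℂ) (δ : ι → ℝ) (hq : ∀ i ∈ s, ‖q i‖ ≤ 1)
    (hr : ∀ i ∈ s, ‖r i‖ ≤ 1) (hd : ∀ i ∈ s, ‖q i - r i‖ ≤ δ i) :
    ‖∏ i ∈ s, q i - ∏ i ∈ s, r i‖ ≤ ∑ i ∈ s, δ i := by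
  classical
  induction s using Finset.induction_on with
  | empty => simp
  | insert a s ha ih =>
    have ih' := ih (fun p hp => hq p (mem_insert_of_mem hp)) (fun p hp => hr p (mem_insert_of_mem hp))
      (fun p hp => hd p (mem_insert_of_mem hp))
    have a2 := hr a (mem_insert_self a s)
    have a3 := hd a (mem_insert_self a s)
    have i1 : ‖∏ i ∈ s, q i‖ ≤ 1 := by
      rw [norm_prod]
      exact Finset.prod_le_one (fun i _ => norm_nonneg _) fun i hi => hq i (mem_insert_of_mem hi)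
    rw [prod_insert ha, prod_insert ha, sum_insert ha]
    have e : q a * (∏ i ∈ s, q i) - r a * (∏ i ∈ s, r i) =
        (q a - r a) * (∏ i ∈ s, q i) + r a * ((∏ i ∈ s, q i) - (∏ i ∈ s, r i)) := by ring
    rw [e]
    refine (norm_add_le _ _).trans ?_
    rw [norm_mul, norm_mul]
    have b1 : ‖q a - r a‖ * ‖∏ i ∈ s, q i‖ ≤ δ a := by
      calc _ ≤ ‖q a - r a‖ * 1 := mul_le_mul_of_nonneg_left i1 (norm_nonneg _)
        _ ≤ δ a := by rw [mul_one]; exact a3
    have b2 : ‖r a‖ * ‖(∏ i ∈ s, q i) - (∏ i ∈ s, r i)‖ ≤ ∑ i ∈ s, δ i := by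
      calc _ ≤ 1 * ‖(∏ i ∈ s, q i) - (∏ i ∈ s, r i)‖ := mul_le_mul_of_nonneg_right a2 (norm_nonneg _)
        _ ≤ _ := by rw [one_mul]; exact ih'
    linarith

theorem norm_q {p w : ℝ} (hp0 : 0 ≤ p) (hp1 : p ≤ 1) :
    ‖1 + (p : ℂ) * (Complex.exp (w * Complex.I) - 1)‖ ≤ 1 := by
  have e : 1 + (p : ℂ) * (Complex.exp (w * Complex.I) - 1) =
      ((1 - p : ℝ) : ℂ) + (p : ℂ) * Complex.exp (w * Complex.I) := by
    push_cast
    ring
  rw [e]
  refine (norm_add_le _ _).trans ?_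
  rw [norm_mul, Complex.norm_exp_ofReal_mul_I, mul_one, Complex.norm_real, Complex.norm_real,
    Real.norm_eq_abs, Real.norm_eq_abs, abs_of_nonneg hp0, abs_of_nonneg (by linarith)]
  linarith

section

variable {Ω : Type*} [MeasurableSpace Ω] {μ : Measure Ω} [IsProbabilityMeasure μ]

/-- the indicator -/
noncomputable def I1 (T : Set Ω) (ω : Ω) : ℝ := T.indicator (fun _ => (1 : ℝ)) ω

lemma I1_meas {T : Set Ω} (hT : MeasurableSet T) : Measurable (I1 T) :=
  measurable_const.indicator hT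

lemma I1_cases (T : Set Ω) (ω : Ω) : I1 T ω = 0 ∨ I1 T ω = 1 := by
  unfold I1
  by_cases h : ω ∈ T
  · right; simp [h]
  · left; simp [h]

lemma charFun_one {T : Set Ω} (hT : MeasurableSet T) (c t : ℝ) :
    charFun (μ.map (fun ω => c * (I1 T ω - μ.real T))) t =
      Complex.exp ((-(μ.real T * (t * c)) : ℝ) * Complex.I) *
        (1 + (μ.real T : ℂ) * (Complex.exp ((t * c : ℝ) * Complex.I) - 1)) := by
  have hm : Measurable (fun ω => c * (I1 T ω - μ.real T)) := by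
    have := I1_meas hT
    fun_prop
  rw [charFun_apply_real, integral_map hm.aemeasurable (by fun_prop)]
  have e : ∀ ω, Complex.exp (t * ((c * (I1 T ω - μ.real T) : ℝ) : ℂ) * Complex.I) =
      Complex.exp ((-(μ.real T * (t * c)) : ℝ) * Complex.I) *
        (1 + T.indicator (fun _ => Complex.exp ((t * c : ℝ) * Complex.I) - 1) ω) := by
    intro ω
    by_cases h : ω ∈ T
    · have h1 : I1 T ω = 1 := by unfold I1; simp [h]
      rw [h1, Set.indicator_of_mem h, add_sub_cancel, ← Complex.exp_add]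
      congr 1
      push_cast
      ring
    · have h1 : I1 T ω = 0 := by unfold I1; simp [h]
      rw [h1, Set.indicator_of_notMem h, add_zero, mul_one]
      congr 1
      push_cast
      ring
  simp_rw [e]
  rw [integral_const_mul, integral_add (integrable_const _) ((integrable_const _).indicator hT),
    integral_indicator_const _ hT]
  simp

end

end Pool.Agent.U949.CL
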