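import Mathlib
import Pool.Agent.U949.CL.Clt

/-! Central limit theorem and square root error for weighted sums of indicators of independent events
(helper949). -/

set_option autoImplicit false

namespace Pool.Agent.U949.CL

open MeasureTheory ProbabilityTheory Filter Topology Finset

variable {Ω : Type*} [MeasurableSpace Ω] {μ : Measure Ω} [IsProbabilityMeasure μ]

lemma indep_I1 {ι : Type*} {T : ι → Set Ω} (hind : iIndepSet T μ) : iIndepFun (fun i => I1 (T i)) μ :=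
  hind.iIndepFun_indicator

lemma p01 (T : Set Ω) : 0 ≤ μ.real T ∧ μ.real T ≤ 1 := ⟨measureReal_nonneg, measureReal_le_one⟩

lemma charFun_sum {ι : Type*} (T : ι → Set Ω) (hT : ∀ i, MeasurableSet (T i)) (hind : iIndepSet T μ)
    (F : Finset ι) (c : ι → ℝ) (t : ℝ) :
    charFun (μ.map (fun ω => ∑ i ∈ F, c i * (I1 (T i) ω - μ.real (T i)))) t =
      ∏ i ∈ F, (Complex.exp ((-(μ.real (T i) * (t * c i)) : ℝ) * Complex.I) *
        (1 + (μ.real (T i) : ℂ) * (Complex.exp ((t * c i : ℝ) * Complex.I) - 1))) := by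
  have h1 : iIndepFun (fun i ω => c i * (I1 (T i) ω - μ.real (T i))) μ :=
    (indep_I1 hind).comp (fun i x => c i * (x - μ.real (T i))) (fun i => by fun_prop)
  have hm : ∀ i, Measurable (fun ω => c i * (I1 (T i) ω - μ.real (T i))) := by
    intro i
    have := I1_meas (hT i)
    fun_prop
  rw [(h1.restrict F).charFun_map_fun_finsetSum_eq_prod (fun i _ => (hm i).aemeasurable)]
  rw [Finset.prod_apply]
  exact prod_congr rfl fun i _ => charFun_one (hT i) (c i) t

/-- the comparison with the Gaussian -/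
lemma approx {ι : Type*} (T : ι → Set Ω) (hT : ∀ i, MeasurableSet (T i)) (hind : iIndepSet T μ)
    (F : Finset ι) (c : ι → ℝ) (t b K : ℝ) (hb : ∀ i ∈ F, |c i| ≤ b) (hb0 : 0 ≤ b) (htb : |t| * b ≤ 1 / 2)
    (hV : ∑ i ∈ F, c i ^ 2 * (μ.real (T i) * (1 - μ.real (T i))) = 1)
    (hK : ∑ i ∈ F, c i ^ 2 * μ.real (T i) ≤ K) :
    ‖charFun (μ.map (fun ω => ∑ i ∈ F, c i * (I1 (T i) ω - μ.real (T i)))) t -
      Complex.exp (-(t ^ 2 / 2 : ℝ))‖ ≤ 6 * |t| ^ 3 * K * b := by
  rw [charFun_sum T hT hind]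
  have hr : ∏ i ∈ F, Complex.exp (-(μ.real (T i) * (1 - μ.real (T i)) * (t * c i) ^ 2 / 2 : ℝ)) =
      Complex.exp (-(t ^ 2 / 2 : ℝ)) := by
    rw [← Complex.exp_sum]
    congr 1
    rw [Finset.sum_neg_distrib]
    congr 1
    rw [← Complex.ofReal_sum]
    congr 1
    calc ∑ i ∈ F, μ.real (T i) * (1 - μ.real (T i)) * (t * c i) ^ 2 / 2
        = ∑ i ∈ F, t ^ 2 / 2 * (c i ^ 2 * (μ.real (T i) * (1 - μ.real (T i)))) :=
          sum_congr rfl fun i _ => by ring
      _ = t ^ 2 / 2 := by rw [← mul_sum, hV, mul_one]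
  rw [← hr]
  have hd : ∀ i ∈ F, ‖Complex.exp ((-(μ.real (T i) * (t * c i)) : ℝ) * Complex.I) *
        (1 + (μ.real (T i) : ℂ) * (Complex.exp ((t * c i : ℝ) * Complex.I) - 1)) -
        Complex.exp (-(μ.real (T i) * (1 - μ.real (T i)) * (t * c i) ^ 2 / 2 : ℝ))‖ ≤
        6 * |t| ^ 3 * b * (c i ^ 2 * μ.real (T i)) := by
    intro i hi
    obtain ⟨p0, p1⟩ := p01 (μ := μ) (T i)
    have htc : |t * c i| ≤ 1 / 2 := by
      rw [abs_mul]
      exact (mul_le_mul_of_nonneg_left (hb i hi) (abs_nonneg t)).trans htb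
    have e : Complex.exp ((-(μ.real (T i) * (t * c i)) : ℝ) * Complex.I) *
        (1 + (μ.real (T i) : ℂ) * (Complex.exp ((t * c i : ℝ) * Complex.I) - 1)) -
        Complex.exp (-(μ.real (T i) * (1 - μ.real (T i)) * (t * c i) ^ 2 / 2 : ℝ)) =
        Complex.exp ((-(μ.real (T i) * (t * c i)) : ℝ) * Complex.I) *
        ((1 + (μ.real (T i) : ℂ) * (Complex.exp ((t * c i : ℝ) * Complex.I) - 1)) -
        Complex.exp ((μ.real (T i) * (t * c i) : ℝ) * Complex.I -
          (μ.real (T i) * (1 - μ.real (T i)) * (t * c i) ^ 2 / 2 : ℝ))) := by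
      have e2 : Complex.exp (-(μ.real (T i) * (1 - μ.real (T i)) * (t * c i) ^ 2 / 2 : ℝ)) =
          Complex.exp ((-(μ.real (T i) * (t * c i)) : ℝ) * Complex.I) *
          Complex.exp ((μ.real (T i) * (t * c i) : ℝ) * Complex.I -
          (μ.real (T i) * (1 - μ.real (T i)) * (t * c i) ^ 2 / 2 : ℝ)) := by
        rw [← Complex.exp_add]
        congr 1
        push_cast
        ring
      rw [e2]
      ring
    rw [e, norm_mul, Complex.norm_exp_ofReal_mul_I, one_mul]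
    refine (factor p0 p1 htc).trans ?_
    have h3 : |t * c i| ^ 3 ≤ |t| ^ 3 * (c i ^ 2 * b) := by
      rw [abs_mul, mul_pow]
      refine mul_le_mul_of_nonneg_left ?_ (by positivity)
      calc |c i| ^ 3 = |c i| ^ 2 * |c i| := by ring
        _ = c i ^ 2 * |c i| := by rw [sq_abs]
        _ ≤ c i ^ 2 * b := mul_le_mul_of_nonneg_left (hb i hi) (sq_nonneg _)
    calc 6 * μ.real (T i) * |t * c i| ^ 3 ≤ 6 * μ.real (T i) * (|t| ^ 3 * (c i ^ 2 * b)) :=
          mul_le_mul_of_nonneg_left h3 (by positivity)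
      _ = _ := by ring
  refine (prod_diff F _ _ _ ?_ ?_ hd).trans ?_
  · intro i hi
    obtain ⟨p0, p1⟩ := p01 (μ := μ) (T i)
    rw [norm_mul, Complex.norm_exp_ofReal_mul_I, one_mul]
    exact norm_q p0 p1
  · intro i hi
    obtain ⟨p0, p1⟩ := p01 (μ := μ) (T i)
    rw [← Complex.ofReal_neg, ← Complex.ofReal_exp, Complex.norm_real, Real.norm_eq_abs,
      abs_of_pos (Real.exp_pos _), Real.exp_le_one_iff]
    have : 0 ≤ 1 - μ.real (T i) := by linarith
    have : 0 ≤ μ.real (T i) * (1 - μ.real (T i)) * (t * c i) ^ 2 / 2 := by positivity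
    linarith
  · rw [← mul_sum]
    calc 6 * |t| ^ 3 * b * ∑ i ∈ F, c i ^ 2 * μ.real (T i) ≤ 6 * |t| ^ 3 * b * K :=
          mul_le_mul_of_nonneg_left hK (by positivity)
      _ = _ := by ring

theorem clt_seq {ι : Type*} (T : ι → Set Ω) (hT : ∀ i, MeasurableSet (T i)) (hind : iIndepSet T μ)
    (F : ℕ → Finset ι) (w : ℕ → ι → ℝ) (B V : ℕ → ℝ) (K : ℝ)
    (hV : ∀ n, V n = ∑ i ∈ F n, w n i ^ 2 * (μ.real (T i) * (1 - μ.real (T i))))
    (hw : ∀ᶠ n in atTop, ∀ i ∈ F n, |w n i| ≤ B n) (hB0 : ∀ n, 0 ≤ B n)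
    (hV0 : ∀ᶠ n in atTop, 0 < V n)
    (hB : Tendsto (fun n => B n / √(V n)) atTop (𝓝 0))
    (hK : ∀ᶠ n in atTop, ∑ i ∈ F n, w n i ^ 2 * μ.real (T i) ≤ K * V n) (x : ℝ) :
    Tendsto (fun n => μ.real {ω | ∑ i ∈ F n, w n i * (I1 (T i) ω - μ.real (T i)) ≤ x * √(V n)}) atTop
      (𝓝 ((gaussianReal 0 1).real (Set.Iic x))) := by
  set X : ℕ → Ω → ℝ := fun n ω => ∑ i ∈ F n, w n i / √(V n) * (I1 (T i) ω - μ.real (T i)) with hX
  have hXm : ∀ n, Measurable (X n) := by
    intro n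
    refine Finset.measurable_sum _ fun i _ => ?_
    have := I1_meas (hT i)
    fun_prop
  have hlaw : ∀ n, IsProbabilityMeasure (μ.map (X n)) := fun n =>
    Measure.isProbabilityMeasure_map (hXm n).aemeasurable
  have hmain := cdf_tendsto (fun n => μ.map (X n)) (fun θ => ?_) x
  · refine hmain.congr' ?_
    filter_upwards [hV0] with n hn
    rw [map_measureReal_apply (hXm n) measurableSet_Iic]
    congr 1
    ext ω
    have hs : 0 < √(V n) := Real.sqrt_pos.2 hn
    have e : X n ω = (∑ i ∈ F n, w n i * (I1 (T i) ω - μ.real (T i))) / √(V n) := by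
      rw [hX]
      simp only
      rw [sum_div]
      exact sum_congr rfl fun i _ => by ring
    rw [Set.mem_preimage, Set.mem_Iic, e, div_le_iff₀ hs]
    rfl
  · rw [tendsto_iff_norm_sub_tendsto_zero]
    have hlim : Tendsto (fun n => 6 * |θ| ^ 3 * K * (B n / √(V n))) atTop (𝓝 0) := by
      simpa using hB.const_mul (6 * |θ| ^ 3 * K)
    refine squeeze_zero' (Eventually.of_forall fun n => norm_nonneg _) ?_ hlim
    have h2 : ∀ᶠ n in atTop, |θ| * (B n / √(V n)) ≤ 1 / 2 := by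
      have := hB.const_mul |θ|
      rw [mul_zero] at this
      exact this.eventually (ge_mem_nhds (by norm_num))
    filter_upwards [h2, hw, hV0, hK] with n g1 g2 g3 g4
    have hs : 0 < √(V n) := Real.sqrt_pos.2 g3
    have hsq : √(V n) ^ 2 = V n := Real.sq_sqrt g3.le
    refine approx T hT hind (F n) (fun i => w n i / √(V n)) θ (B n / √(V n)) K ?_
      (div_nonneg (hB0 n) hs.le) g1 ?_ ?_
    · intro i hi
      rw [abs_div, abs_of_pos hs]
      exact div_le_div_of_nonneg_right (g2 i hi) hs.le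
    · calc ∑ i ∈ F n, (w n i / √(V n)) ^ 2 * (μ.real (T i) * (1 - μ.real (T i)))
          = ∑ i ∈ F n, (w n i ^ 2 * (μ.real (T i) * (1 - μ.real (T i)))) / V n :=
            sum_congr rfl fun i _ => by rw [div_pow, hsq]; ring
        _ = 1 := by rw [← sum_div, ← hV, div_self g3.ne']
    · calc ∑ i ∈ F n, (w n i / √(V n)) ^ 2 * μ.real (T i)
          = (∑ i ∈ F n, w n i ^ 2 * μ.real (T i)) / V n := by
            rw [sum_div]
            exact sum_congr rfl fun i _ => by rw [div_pow, hsq]; ring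
        _ ≤ K := by rw [div_le_iff₀ g3]; exact g4

/-- **Central limit theorem** along a filter -/
theorem clt {ι : Type*} (T : ι → Set Ω) (hT : ∀ i, MeasurableSet (T i)) (hind : iIndepSet T μ)
    (F : ℕ → Finset ι) (w : ℕ → ι → ℝ) (B V : ℕ → ℝ) (K : ℝ)
    (hV : ∀ n, V n = ∑ i ∈ F n, w n i ^ 2 * (μ.real (T i) * (1 - μ.real (T i))))
    (l : Filter ℕ) [l.IsCountablyGenerated]
    (hw : ∀ᶠ n in l, ∀ i ∈ F n, |w n i| ≤ B n) (hB0 : ∀ n, 0 ≤ B n)
    (hV0 : ∀ᶠ n in l, 0 < V n)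
    (hB : Tendsto (fun n => B n / √(V n)) l (𝓝 0))
    (hK : ∀ᶠ n in l, ∑ i ∈ F n, w n i ^ 2 * μ.real (T i) ≤ K * V n) (x : ℝ) :
    Tendsto (fun n => μ.real {ω | ∑ i ∈ F n, w n i * (I1 (T i) ω - μ.real (T i)) ≤ x * √(V n)}) l
      (𝓝 ((gaussianReal 0 1).real (Set.Iic x))) := by
  refine tendsto_of_seq_tendsto fun u hu => ?_
  exact clt_seq T hT hind (fun n => F (u n)) (fun n => w (u n)) (fun n => B (u n)) (fun n => V (u n)) K
    (fun n => hV (u n)) (hu.eventually hw) (fun n => hB0 _) (hu.eventually hV0) (hB.comp hu)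
    (hu.eventually hK) x

end Pool.Agent.U949.CL
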