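import Mathlib
import Pool.Agent.U949.CL.Seq

/-! Square root error for weighted sums of indicators of independent events (helper949). -/

set_option autoImplicit false

namespace Pool.Agent.U949.CL

open MeasureTheory ProbabilityTheory Filter Topology Finset

variable {Ω : Type*} [MeasurableSpace Ω] {μ : Measure Ω} [IsProbabilityMeasure μ]

lemma exp_quad {y : ℝ} (hy : |y| ≤ 1) : Real.exp y ≤ 1 + y + y ^ 2 := by
  have := (abs_le.1 (Real.abs_exp_sub_one_sub_id_le hy)).2
  linarith

lemma mgf_bound {T : Set Ω} (hT : MeasurableSet T) (c t : ℝ) (h : |t * c| ≤ 1) :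
    mgf (fun ω => c * (I1 T ω - μ.real T)) μ t ≤ Real.exp (t ^ 2 * (c ^ 2 * (μ.real T * (1 - μ.real T)))) := by
  obtain ⟨p0, p1⟩ := p01 (μ := μ) T
  set p := μ.real T with hp
  have e : ∀ ω, Real.exp (t * (c * (I1 T ω - p))) = Real.exp (-(p * (t * c))) +
      T.indicator (fun _ => Real.exp ((1 - p) * (t * c)) - Real.exp (-(p * (t * c)))) ω := by
    intro ω
    by_cases h : ω ∈ T
    · have h1 : I1 T ω = 1 := by unfold I1; simp [h]
      rw [h1, Set.indicator_of_mem h, add_sub_cancel]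
      congr 1
      ring
    · have h1 : I1 T ω = 0 := by unfold I1; simp [h]
      rw [h1, Set.indicator_of_notMem h, add_zero]
      congr 1
      ring
  unfold mgf
  simp_rw [e]
  rw [integral_add (integrable_const _) ((integrable_const _).indicator hT),
    integral_indicator_const _ hT, integral_const, probReal_univ, one_smul, smul_eq_mul, ← hp]
  have hq : 0 ≤ 1 - p := by linarith
  have h1 : |(1 - p) * (t * c)| ≤ 1 := by
    rw [abs_mul, abs_of_nonneg hq]
    calc (1 - p) * |t * c| ≤ 1 * 1 := mul_le_mul (by linarith) h (abs_nonneg _) (by norm_num)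
      _ = 1 := one_mul 1
  have h2 : |-(p * (t * c))| ≤ 1 := by
    rw [abs_neg, abs_mul, abs_of_nonneg p0]
    calc p * |t * c| ≤ 1 * 1 := mul_le_mul p1 h (abs_nonneg _) (by norm_num)
      _ = 1 := one_mul 1
  have g1 := exp_quad h1
  have g2 := exp_quad h2
  have g3 := mul_le_mul_of_nonneg_left g1 p0
  have g4 := mul_le_mul_of_nonneg_left g2 hq
  have g5 := Real.add_one_le_exp (t ^ 2 * (c ^ 2 * (p * (1 - p))))
  have g6 : p * (1 + (1 - p) * (t * c) + ((1 - p) * (t * c)) ^ 2) +
      (1 - p) * (1 + -(p * (t * c)) + (-(p * (t * c))) ^ 2) = t ^ 2 * (c ^ 2 * (p * (1 - p))) + 1 := by ring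
  have g7 : Real.exp (-(p * (t * c))) + p * (Real.exp ((1 - p) * (t * c)) - Real.exp (-(p * (t * c)))) =
      p * Real.exp ((1 - p) * (t * c)) + (1 - p) * Real.exp (-(p * (t * c))) := by ring
  rw [g7]
  linarith

/-- Chernoff bound -/
lemma chernoff {ι : Type*} (T : ι → Set Ω) (hT : ∀ i, MeasurableSet (T i)) (hind : iIndepSet T μ)
    (F : Finset ι) (w : ι → ℝ) (t a V : ℝ) (ht : 0 ≤ t)
    (hV : V = ∑ i ∈ F, w i ^ 2 * (μ.real (T i) * (1 - μ.real (T i))))
    (hw : ∀ i ∈ F, |t * w i| ≤ 1) :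
    μ.real {ω | a ≤ ∑ i ∈ F, w i * (I1 (T i) ω - μ.real (T i))} ≤ Real.exp (-t * a + t ^ 2 * V) := by
  have h1 : iIndepFun (fun i ω => w i * (I1 (T i) ω - μ.real (T i))) μ :=
    (indep_I1 hind).comp (fun i x => w i * (x - μ.real (T i))) (fun i => by fun_prop)
  have hm : ∀ i, Measurable (fun ω => w i * (I1 (T i) ω - μ.real (T i))) := by
    intro i
    have := I1_meas (hT i)
    fun_prop
  have hsum : Measurable (fun ω => ∑ i ∈ F, w i * (I1 (T i) ω - μ.real (T i))) :=
    Finset.measurable_sum _ fun i _ => hm i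
  have hbd : ∀ ω, |∑ i ∈ F, w i * (I1 (T i) ω - μ.real (T i))| ≤ ∑ i ∈ F, |w i| := by
    intro ω
    refine (Finset.abs_sum_le_sum_abs _ _).trans (sum_le_sum fun i _ => ?_)
    rw [abs_mul]
    obtain ⟨p0, p1⟩ := p01 (μ := μ) (T i)
    have : |I1 (T i) ω - μ.real (T i)| ≤ 1 := by
      rw [abs_le]
      rcases I1_cases (T i) ω with h | h <;> rw [h] <;> constructor <;> linarith
    calc |w i| * |I1 (T i) ω - μ.real (T i)| ≤ |w i| * 1 := mul_le_mul_of_nonneg_left this (abs_nonneg _)
      _ = |w i| := mul_one _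
  have hint : Integrable (fun ω => Real.exp (t * ∑ i ∈ F, w i * (I1 (T i) ω - μ.real (T i)))) μ := by
    refine Integrable.of_bound (C := Real.exp (t * ∑ i ∈ F, |w i|)) ?_ (Eventually.of_forall fun ω => ?_)
    · exact (by fun_prop : Measurable (fun ω => Real.exp (t * ∑ i ∈ F, w i * (I1 (T i) ω - μ.real (T i))))).aestronglyMeasurable
    · rw [Real.norm_eq_abs, Real.abs_exp]
      exact Real.exp_le_exp.2 (mul_le_mul_of_nonneg_left (le_trans (le_abs_self _) (hbd ω)) ht)
  have h2 := measure_ge_le_exp_mul_mgf (μ := μ) (X := fun ω => ∑ i ∈ F, w i * (I1 (T i) ω - μ.real (T i))) a ht hint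
  refine h2.trans ?_
  have h3 : mgf (fun ω => ∑ i ∈ F, w i * (I1 (T i) ω - μ.real (T i))) μ t =
      ∏ i ∈ F, mgf (fun ω => w i * (I1 (T i) ω - μ.real (T i))) μ t := by
    have := h1.mgf_sum (t := t) hm F
    rw [← this]
    congr 1
    ext ω
    simp
  rw [h3, Real.exp_add, neg_mul]
  refine mul_le_mul_of_nonneg_left ?_ (Real.exp_pos _).le
  rw [hV, mul_sum, Real.exp_sum]
  exact prod_le_prod (fun i _ => mgf_nonneg) fun i hi => mgf_bound (hT i) _ _ (hw i hi)

/-- **Square root error** -/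
theorem sqrt_error {ι : Type*} (T : ι → Set Ω) (hT : ∀ i, MeasurableSet (T i)) (hind : iIndepSet T μ)
    (F : ℕ → Finset ι) (w : ℕ → ι → ℝ) (B V : ℕ → ℝ)
    (hV : ∀ n, V n = ∑ i ∈ F n, w n i ^ 2 * (μ.real (T i) * (1 - μ.real (T i)))) (G : ℕ → Prop)
    (hw : ∀ᶠ n : ℕ in atTop, G n → ∀ i ∈ F n, |w n i| ≤ B n)
    (hB : ∀ᶠ n : ℕ in atTop, G n → 0 < V n ∧ 4 * B n ^ 2 * Real.log n ≤ V n) :
    ∀ᵐ ω ∂μ, ∀ᶠ n : ℕ in atTop, G n →
      |∑ i ∈ F n, w n i * (I1 (T i) ω - μ.real (T i))| ≤ 3 * √(V n * Real.log n) := by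
  classical
  obtain ⟨n0, hn0⟩ := eventually_atTop.1 (hw.and (hB.and (eventually_ge_atTop 2)))
  set Y : ℕ → Ω → ℝ := fun n ω => ∑ i ∈ F n, w n i * (I1 (T i) ω - μ.real (T i)) with hY
  set s : ℕ → Set Ω := fun n => if n0 ≤ n ∧ G n then {ω | 3 * √(V n * Real.log n) < |Y n ω|} else ∅ with hs
  have hsmall : ∀ n, μ (s n) ≤ ENNReal.ofReal (2 * ((n : ℝ) ^ 2)⁻¹) := by
    intro n
    rw [hs]
    simp only
    split_ifs with h
    · obtain ⟨g1, g2, g3⟩ := hn0 n h.1
      have g1 := g1 h.2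
      obtain ⟨V0, g2⟩ := g2 h.2
      have hn2 : (2 : ℝ) ≤ n := by exact_mod_cast g3
      have hL : 0 < Real.log (n : ℝ) := Real.log_pos (by linarith)
      set L := Real.log (n : ℝ) with hLdef
      set t := 2 * √(L / V n) with ht
      have ht0 : 0 ≤ t := by positivity
      have ht2 : t ^ 2 = 4 * (L / V n) := by
        rw [ht, mul_pow, Real.sq_sqrt (by positivity)]
        norm_num
      have hta : t * (3 * √(V n * L)) = 6 * L := by
        rw [ht]
        have : √(L / V n) * √(V n * L) = L := by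
          rw [← Real.sqrt_mul (by positivity), show L / V n * (V n * L) = L ^ 2 by
            field_simp, Real.sqrt_sq hL.le]
        calc 2 * √(L / V n) * (3 * √(V n * L)) = 6 * (√(L / V n) * √(V n * L)) := by ring
          _ = 6 * L := by rw [this]
      have hexp : -t * (3 * √(V n * L)) + t ^ 2 * V n = -(2 * L) := by
        rw [neg_mul, hta, ht2]
        field_simp
        ring
      have htw : ∀ i ∈ F n, |t * w n i| ≤ 1 := by
        intro i hi
        have h1 := g1 i hi
        rw [abs_mul, abs_of_nonneg ht0]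
        apply abs_le_of_sq_le_sq' ?_ (by norm_num) |>.2
        rw [mul_pow, ht2, one_pow]
        have h2 : |w n i| ^ 2 ≤ B n ^ 2 := pow_le_pow_left₀ (abs_nonneg _) h1 2
        calc 4 * (L / V n) * |w n i| ^ 2 ≤ 4 * (L / V n) * B n ^ 2 := mul_le_mul_of_nonneg_left h2 (by positivity)
          _ = (4 * B n ^ 2 * L) / V n := by ring
          _ ≤ 1 := by rw [div_le_one V0]; exact g2
      have c1 := chernoff T hT hind (F n) (w n) t (3 * √(V n * L)) (V n) ht0 (hV n) htw
      have c2 := chernoff T hT hind (F n) (fun i => -w n i) t (3 * √(V n * L)) (V n) ht0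
        (by rw [hV n]; exact sum_congr rfl fun i _ => by ring)
        (fun i hi => by rw [mul_neg, abs_neg]; exact htw i hi)
      rw [hexp] at c1 c2
      have hn0' : (0 : ℝ) < n := by linarith
      have hexp2 : Real.exp (-(2 * L)) = ((n : ℝ) ^ 2)⁻¹ := by
        rw [Real.exp_neg, hLdef, two_mul, Real.exp_add, Real.exp_log hn0', sq]
      rw [hexp2] at c1 c2
      have hsub : {ω | 3 * √(V n * L) < |Y n ω|} ⊆
          {ω | 3 * √(V n * L) ≤ ∑ i ∈ F n, w n i * (I1 (T i) ω - μ.real (T i))} ∪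
          {ω | 3 * √(V n * L) ≤ ∑ i ∈ F n, -w n i * (I1 (T i) ω - μ.real (T i))} := by
        intro ω hω
        rcases lt_abs.1 (show 3 * √(V n * L) < |Y n ω| from hω) with h | h
        · left
          exact h.le
        · right
          show 3 * √(V n * L) ≤ ∑ i ∈ F n, -w n i * (I1 (T i) ω - μ.real (T i))
          have : ∑ i ∈ F n, -w n i * (I1 (T i) ω - μ.real (T i)) = -Y n ω := by
            rw [hY]
            simp only
            rw [← sum_neg_distrib]
            exact sum_congr rfl fun i _ => by ring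
          rw [this]
          exact h.le
      have h5 : μ.real {ω | 3 * √(V n * L) < |Y n ω|} ≤ 2 * ((n : ℝ) ^ 2)⁻¹ := by
        refine (measureReal_mono hsub (measure_ne_top _ _)).trans ((measureReal_union_le _ _).trans ?_)
        linarith
      rw [← ENNReal.ofReal_toReal (measure_ne_top μ {ω | 3 * √(V n * L) < |Y n ω|})]
      exact ENNReal.ofReal_le_ofReal h5
    · simp
  have hsummable : Summable (fun n : ℕ => 2 * ((n : ℝ) ^ 2)⁻¹) :=
    (Real.summable_nat_pow_inv.2 (by norm_num)).mul_left 2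
  have hfin : ∑' n, μ (s n) ≠ ⊤ := by
    refine ne_top_of_le_ne_top ?_ (ENNReal.tsum_le_tsum hsmall)
    exact hsummable.tsum_ofReal_ne_top
  filter_upwards [ae_eventually_notMem hfin] with ω hω
  filter_upwards [hω, eventually_ge_atTop n0] with n h1 h2 h3
  by_contra hcon
  apply h1
  rw [hs]
  simp only
  rw [if_pos ⟨h2, h3⟩]
  exact not_le.1 hcon

end Pool.Agent.U949.CL
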