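import Mathlib
import Pool.Agent.U949.CL.Err

/-! Fluctuations of the number of elements of a finite set with a chosen value (helper949). -/

set_option autoImplicit false

namespace Pool.Agent.U949.CL

open MeasureTheory ProbabilityTheory Filter Topology Finset

/-- the number of elements with the value `m` -/
def mult {α : Type*} (Q : Finset α) (val : α → ℕ) (m : ℕ) : ℕ := (Q.filter (fun v => val v = m)).card

/-- the sum of the probabilities -/
noncomputable def Ex {α : Type*} (p : ℕ → ℝ) (Q : Finset α) (val : α → ℕ) : ℝ := ∑ v ∈ Q, p (val v)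

/-- the variance -/
noncomputable def Va {α : Type*} (p : ℕ → ℝ) (Q : Finset α) (val : α → ℕ) : ℝ :=
  ∑ m ∈ Q.image val, (mult Q val m : ℝ) ^ 2 * (p m * (1 - p m))

section

variable {Ω : Type*} [MeasurableSpace Ω] {μ : Measure Ω} [IsProbabilityMeasure μ]

/-- the number of chosen elements -/
noncomputable def Co {α : Type*} (S : ℕ → Set Ω) (Q : Finset α) (val : α → ℕ) (ω : Ω) : ℝ :=
  ∑ v ∈ Q, I1 (S (val v)) ω

lemma Ex_eq {α : Type*} (p : ℕ → ℝ) (Q : Finset α) (val : α → ℕ) :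
    Ex p Q val = ∑ m ∈ Q.image val, (mult Q val m : ℝ) * p m := by
  classical
  unfold Ex mult
  rw [Finset.sum_comp p val]
  exact sum_congr rfl fun m _ => by rw [nsmul_eq_mul]

lemma Co_sub {α : Type*} (S : ℕ → Set Ω) (p : ℕ → ℝ) (Q : Finset α) (val : α → ℕ) (ω : Ω) :
    Co S Q val ω - Ex p Q val = ∑ m ∈ Q.image val, (mult Q val m : ℝ) * (I1 (S m) ω - p m) := by
  classical
  rw [Ex_eq]
  have : Co S Q val ω = ∑ m ∈ Q.image val, (mult Q val m : ℝ) * I1 (S m) ω := by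
    unfold Co mult
    rw [Finset.sum_comp (fun m => I1 (S m) ω) val]
    exact sum_congr rfl fun m _ => by rw [nsmul_eq_mul]
  rw [this, ← sum_sub_distrib]
  exact sum_congr rfl fun m _ => by ring

/-- the variance and the expectation -/
lemma var_bounds {α : Type*} (p : ℕ → ℝ) (hp0 : ∀ m, 0 ≤ p m) (hp1 : ∀ m, p m ≤ 1) (m0 : ℕ)
    (hm0 : ∀ m, m0 ≤ m → p m ≤ 1 / 2) (Q : Finset α) (val : α → ℕ) (B : ℝ)
    (hB : ∀ m, (mult Q val m : ℝ) ≤ B) (hE : 0 < Ex p Q val) (hBE : 4 * m0 * B ^ 2 ≤ Ex p Q val) :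
    Ex p Q val / 4 ≤ Va p Q val ∧ Va p Q val ≤ B * Ex p Q val ∧
      ∑ m ∈ Q.image val, (mult Q val m : ℝ) ^ 2 * p m ≤ 3 * Va p Q val := by
  classical
  have hmn : ∀ m, (0 : ℝ) ≤ mult Q val m := fun m => Nat.cast_nonneg _
  have hB0 : 0 ≤ B := (hmn 0).trans (hB 0)
  have hB1 : 1 ≤ B := by
    by_contra hcon
    rw [not_le] at hcon
    have h0 : ∀ m, (mult Q val m : ℝ) = 0 := by
      intro m
      have h1 : (mult Q val m : ℝ) < 1 := (hB m).trans_lt hcon
      have h2 : mult Q val m < 1 := by exact_mod_cast h1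
      have h3 : mult Q val m = 0 := by omega
      rw [h3]
      norm_num
    rw [Ex_eq] at hE
    rw [sum_eq_zero (fun m _ => by rw [h0, zero_mul])] at hE
    exact lt_irrefl _ hE
  have hBB : B ≤ B ^ 2 := by nlinarith
  set I := Q.image val with hI
  have hsplit : ∀ f : ℕ → ℝ, ∑ m ∈ I, f m = ∑ m ∈ I.filter (fun m => m < m0), f m +
      ∑ m ∈ I.filter (fun m => ¬ m < m0), f m := fun f => (sum_filter_add_sum_filter_not _ _ _).symm
  have hcard : ((I.filter (fun m => m < m0)).card : ℝ) ≤ m0 := by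
    have : (I.filter (fun m => m < m0)).card ≤ m0 := by
      calc _ ≤ (range m0).card := card_le_card fun m hm => mem_range.2 (mem_filter.1 hm).2
        _ = m0 := card_range m0
    exact_mod_cast this
  have hsm1 : ∑ m ∈ I.filter (fun m => m < m0), (mult Q val m : ℝ) * p m ≤ m0 * B := by
    calc _ ≤ ∑ m ∈ I.filter (fun m => m < m0), B := sum_le_sum fun m _ => by
          calc (mult Q val m : ℝ) * p m ≤ B * 1 := mul_le_mul (hB m) (hp1 m) (hp0 m) hB0
            _ = B := mul_one B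
      _ = (I.filter (fun m => m < m0)).card * B := by rw [sum_const, nsmul_eq_mul]
      _ ≤ m0 * B := mul_le_mul_of_nonneg_right hcard hB0
  have hsm2 : ∑ m ∈ I.filter (fun m => m < m0), (mult Q val m : ℝ) ^ 2 * p m ≤ m0 * B ^ 2 := by
    calc _ ≤ ∑ m ∈ I.filter (fun m => m < m0), B ^ 2 := sum_le_sum fun m _ => by
          calc (mult Q val m : ℝ) ^ 2 * p m ≤ B ^ 2 * 1 :=
                mul_le_mul (pow_le_pow_left₀ (hmn m) (hB m) 2) (hp1 m) (hp0 m) (by positivity)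
            _ = B ^ 2 := mul_one _
      _ = (I.filter (fun m => m < m0)).card * B ^ 2 := by rw [sum_const, nsmul_eq_mul]
      _ ≤ m0 * B ^ 2 := mul_le_mul_of_nonneg_right hcard (by positivity)
  have hm1 : ∀ m ∈ I, (1 : ℝ) ≤ mult Q val m := by
    intro m hm
    obtain ⟨v, hv, hvm⟩ := mem_image.1 hm
    have : 1 ≤ mult Q val m := Nat.one_le_iff_ne_zero.2 (by
      unfold mult
      exact (card_pos.2 ⟨v, mem_filter.2 ⟨hv, hvm⟩⟩).ne')
    exact_mod_cast this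
  have hq : ∀ m, 0 ≤ 1 - p m := fun m => by linarith [hp1 m]
  have hlow : ∑ m ∈ I.filter (fun m => ¬ m < m0), (mult Q val m : ℝ) * p m ≤
      2 * ∑ m ∈ I.filter (fun m => ¬ m < m0), (mult Q val m : ℝ) ^ 2 * (p m * (1 - p m)) := by
    rw [mul_sum]
    refine sum_le_sum fun m hm => ?_
    obtain ⟨h1, h2⟩ := mem_filter.1 hm
    have g1 := hm1 m h1
    have g2 := hm0 m (by omega)
    have g3 : (mult Q val m : ℝ) ≤ (mult Q val m : ℝ) ^ 2 := by nlinarith
    calc (mult Q val m : ℝ) * p m ≤ (mult Q val m : ℝ) ^ 2 * p m := mul_le_mul_of_nonneg_right g3 (hp0 m)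
      _ = 2 * ((mult Q val m : ℝ) ^ 2 * (p m * (1 / 2))) := by ring
      _ ≤ 2 * ((mult Q val m : ℝ) ^ 2 * (p m * (1 - p m))) := by
        have : p m * (1 / 2) ≤ p m * (1 - p m) := mul_le_mul_of_nonneg_left (by linarith) (hp0 m)
        have := mul_le_mul_of_nonneg_left this (sq_nonneg (mult Q val m : ℝ))
        linarith
  have hlow2 : ∑ m ∈ I.filter (fun m => ¬ m < m0), (mult Q val m : ℝ) ^ 2 * p m ≤
      2 * ∑ m ∈ I.filter (fun m => ¬ m < m0), (mult Q val m : ℝ) ^ 2 * (p m * (1 - p m)) := by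
    rw [mul_sum]
    refine sum_le_sum fun m hm => ?_
    obtain ⟨h1, h2⟩ := mem_filter.1 hm
    have g2 := hm0 m (by omega)
    have : p m * (1 / 2) ≤ p m * (1 - p m) := mul_le_mul_of_nonneg_left (by linarith) (hp0 m)
    have := mul_le_mul_of_nonneg_left this (sq_nonneg (mult Q val m : ℝ))
    linarith
  have hpart : ∑ m ∈ I.filter (fun m => ¬ m < m0), (mult Q val m : ℝ) ^ 2 * (p m * (1 - p m)) ≤ Va p Q val := by
    unfold Va
    exact sum_le_sum_of_subset_of_nonneg (filter_subset _ _) fun m _ _ =>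
      mul_nonneg (sq_nonneg _) (mul_nonneg (hp0 m) (hq m))
  have hm0n : (0 : ℝ) ≤ m0 := Nat.cast_nonneg _
  have hmB : m0 * B ≤ m0 * B ^ 2 := mul_le_mul_of_nonneg_left hBB hm0n
  have hEs : Ex p Q val = ∑ m ∈ I.filter (fun m => m < m0), (mult Q val m : ℝ) * p m +
      ∑ m ∈ I.filter (fun m => ¬ m < m0), (mult Q val m : ℝ) * p m := by
    rw [Ex_eq]
    exact hsplit _
  refine ⟨by linarith, ?_, ?_⟩
  · rw [Ex_eq]
    unfold Va
    rw [mul_sum]
    refine sum_le_sum fun m _ => ?_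
    have h1 : p m * (1 - p m) ≤ p m := by nlinarith [hp0 m, hp1 m]
    calc (mult Q val m : ℝ) ^ 2 * (p m * (1 - p m)) ≤ (mult Q val m : ℝ) ^ 2 * p m :=
          mul_le_mul_of_nonneg_left h1 (sq_nonneg _)
      _ = mult Q val m * (mult Q val m * p m) := by ring
      _ ≤ B * (mult Q val m * p m) := mul_le_mul_of_nonneg_right (hB m) (mul_nonneg (hmn m) (hp0 m))
  · rw [hsplit]
    have h1 : m0 * B ^ 2 ≤ Va p Q val := by linarith
    linarith

/-- **Fluctuations.** -/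
theorem fluct {α : Type*} (S : ℕ → Set Ω) (hS : ∀ m, MeasurableSet (S m)) (hind : iIndepSet S μ) (p : ℕ → ℝ)
    (hp : ∀ m, μ.real (S m) = p m) (hp2 : ∀ᶠ m in atTop, p m ≤ 1 / 2) (Q : ℕ → Finset α) (val : α → ℕ)
    (B : ℕ → ℝ) (G : ℕ → Prop) (hB : ∀ᶠ n in atTop, G n → ∀ m, (mult (Q n) val m : ℝ) ≤ B n)
    (hB0 : ∀ n, 0 ≤ B n)
    (hE : Tendsto (fun n => Ex p (Q n) val) (atTop ⊓ 𝓟 {n | G n}) atTop)
    (hBE : Tendsto (fun n => B n ^ 2 / Ex p (Q n) val) (atTop ⊓ 𝓟 {n | G n}) (𝓝 0)) :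
    (∀ᶠ n in atTop, G n → Ex p (Q n) val / 4 ≤ Va p (Q n) val ∧ Va p (Q n) val ≤ B n * Ex p (Q n) val) ∧
    (∀ x : ℝ, Tendsto (fun n => μ.real {ω | Co S (Q n) val ω - Ex p (Q n) val ≤ x * √(Va p (Q n) val)})
      (atTop ⊓ 𝓟 {n | G n}) (𝓝 ((gaussianReal 0 1).real (Set.Iic x)))) ∧
    ((∀ᶠ n : ℕ in atTop, G n → 16 * B n ^ 2 * Real.log n ≤ Ex p (Q n) val) →
      ∀ᵐ ω ∂μ, ∀ᶠ n : ℕ in atTop, G n →
        |Co S (Q n) val ω - Ex p (Q n) val| ≤ 3 * √(Va p (Q n) val * Real.log n)) := by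
  classical
  have hp0 : ∀ m, 0 ≤ p m := fun m => by rw [← hp]; exact measureReal_nonneg
  have hp1 : ∀ m, p m ≤ 1 := fun m => by rw [← hp]; exact measureReal_le_one
  obtain ⟨m0, hm0⟩ := eventually_atTop.1 hp2
  have hB' : ∀ᶠ n in atTop ⊓ 𝓟 {n | G n}, ∀ m, (mult (Q n) val m : ℝ) ≤ B n := eventually_inf_principal.2 hB
  have h1 : ∀ᶠ n in atTop ⊓ 𝓟 {n | G n}, 0 < Ex p (Q n) val := hE.eventually_gt_atTop 0
  have h2 : ∀ᶠ n in atTop ⊓ 𝓟 {n | G n}, 4 * m0 * B n ^ 2 ≤ Ex p (Q n) val := by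
    have h3 : ∀ᶠ n in atTop ⊓ 𝓟 {n | G n}, B n ^ 2 / Ex p (Q n) val ≤ 1 / (4 * m0 + 1) :=
      hBE.eventually (ge_mem_nhds (by positivity))
    filter_upwards [h1, h3] with n g1 g3
    rw [div_le_div_iff₀ g1 (by positivity)] at g3
    nlinarith [sq_nonneg (B n)]
  have h3 : ∀ᶠ n in atTop ⊓ 𝓟 {n | G n}, Ex p (Q n) val / 4 ≤ Va p (Q n) val ∧
      Va p (Q n) val ≤ B n * Ex p (Q n) val ∧
      ∑ m ∈ (Q n).image val, (mult (Q n) val m : ℝ) ^ 2 * p m ≤ 3 * Va p (Q n) val := by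
    filter_upwards [h1, h2, hB'] with n g1 g2 g3
    exact var_bounds p hp0 hp1 m0 hm0 (Q n) val (B n) g3 g1 g2
  have hVeq : ∀ n, Va p (Q n) val = ∑ m ∈ (Q n).image val, (mult (Q n) val m : ℝ) ^ 2 *
      (μ.real (S m) * (1 - μ.real (S m))) := by
    intro n
    unfold Va
    exact sum_congr rfl fun m _ => by rw [hp]
  refine ⟨?_, fun x => ?_, fun hlog => ?_⟩
  · have := h3
    rw [eventually_inf_principal] at this
    filter_upwards [this] with n g hG
    exact ⟨(g hG).1, (g hG).2.1⟩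
  · have hsq : Tendsto (fun n => B n / √(Va p (Q n) val)) (atTop ⊓ 𝓟 {n | G n}) (𝓝 0) := by
      have h4 : Tendsto (fun n => √(4 * (B n ^ 2 / Ex p (Q n) val))) (atTop ⊓ 𝓟 {n | G n}) (𝓝 0) := by
        have := (hBE.const_mul 4).sqrt
        simpa using this
      refine squeeze_zero' ?_ ?_ h4
      · exact Eventually.of_forall fun n => div_nonneg (hB0 n) (Real.sqrt_nonneg _)
      · filter_upwards [h1, h3] with n g1 g3
        have hV0 : 0 < Va p (Q n) val := by linarith [g3.1]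
        rw [← Real.sqrt_sq (hB0 n), ← Real.sqrt_div (sq_nonneg _), Real.sqrt_sq (hB0 n)]
        apply Real.sqrt_le_sqrt
        rw [← mul_div_assoc, div_le_div_iff₀ hV0 g1]
        have := mul_le_mul_of_nonneg_left g3.1 (sq_nonneg (B n))
        linarith
    have hc := clt S hS hind (fun n => (Q n).image val) (fun n m => (mult (Q n) val m : ℝ)) B
      (fun n => Va p (Q n) val) 3 hVeq (atTop ⊓ 𝓟 {n | G n}) ?_ hB0 ?_ hsq ?_ x
    · refine hc.congr fun n => ?_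
      congr 1
      ext ω
      show _ ↔ Co S (Q n) val ω - Ex p (Q n) val ≤ x * √(Va p (Q n) val)
      rw [Co_sub]
      simp only [hp]
      rfl
    · filter_upwards [hB'] with n g1 m _
      rw [abs_of_nonneg (Nat.cast_nonneg _)]
      exact g1 m
    · filter_upwards [h1, h3] with n g1 g3
      linarith [g3.1]
    · filter_upwards [h3] with n g3
      simp only [hp]
      exact g3.2.2
  · have hc := sqrt_error S hS hind (fun n => (Q n).image val) (fun n m => (mult (Q n) val m : ℝ)) B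
      (fun n => Va p (Q n) val) hVeq G ?_ ?_
    · filter_upwards [hc] with ω hω
      filter_upwards [hω] with n g1 g2
      rw [Co_sub]
      have := g1 g2
      simp only [hp] at this
      exact this
    · filter_upwards [hB] with n g1 g2 m _
      rw [abs_of_nonneg (Nat.cast_nonneg _)]
      exact g1 g2 m
    · have h1' := h1
      have h3' := h3
      rw [eventually_inf_principal] at h1' h3'
      filter_upwards [h1', h3', hlog] with n g1 g2 g3 hG
      have k1 := g1 hG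
      have k2 := (g2 hG).1
      have k3 := g3 hG
      constructor
      · linarith
      · linarith

/-- the case of an expectation of at least `n ^ (7/16)` and multiplicities of at most `n ^ (1/8)` -/
theorem fluct8 {α : Type*} (S : ℕ → Set Ω) (hS : ∀ m, MeasurableSet (S m)) (hind : iIndepSet S μ) (p : ℕ → ℝ)
    (hp : ∀ m, μ.real (S m) = p m) (hp2 : ∀ᶠ m in atTop, p m ≤ 1 / 2) (Q : ℕ → Finset α) (val : α → ℕ)
    (G : ℕ → Prop) (hB : ∀ᶠ n : ℕ in atTop, G n → ∀ m, (mult (Q n) val m : ℝ) ≤ (n : ℝ) ^ (1 / 8 : ℝ))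
    (hE : ∀ᶠ n : ℕ in atTop, G n → (n : ℝ) ^ (7 / 16 : ℝ) ≤ Ex p (Q n) val) :
    (∀ᶠ n : ℕ in atTop, G n → Ex p (Q n) val / 4 ≤ Va p (Q n) val ∧
      Va p (Q n) val ≤ (n : ℝ) ^ (1 / 8 : ℝ) * Ex p (Q n) val) ∧
    (∀ x : ℝ, Tendsto (fun n => μ.real {ω | Co S (Q n) val ω - Ex p (Q n) val ≤ x * √(Va p (Q n) val)})
      (atTop ⊓ 𝓟 {n | G n}) (𝓝 ((gaussianReal 0 1).real (Set.Iic x)))) ∧
    (∀ᵐ ω ∂μ, ∀ᶠ n : ℕ in atTop, G n →
        |Co S (Q n) val ω - Ex p (Q n) val| ≤ 3 * √(Va p (Q n) val * Real.log n)) := by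
  have hE' : ∀ᶠ n : ℕ in atTop ⊓ 𝓟 {n | G n}, (n : ℝ) ^ (7 / 16 : ℝ) ≤ Ex p (Q n) val :=
    eventually_inf_principal.2 hE
  have ht : Tendsto (fun n : ℕ => (n : ℝ) ^ (7 / 16 : ℝ)) atTop atTop :=
    (tendsto_rpow_atTop (by norm_num)).comp tendsto_natCast_atTop_atTop
  have hd : Tendsto (fun n : ℕ => (n : ℝ) ^ (-(3 / 16) : ℝ)) atTop (𝓝 0) :=
    (tendsto_rpow_neg_atTop (by norm_num)).comp tendsto_natCast_atTop_atTop
  have h1 : ∀ᶠ n : ℕ in atTop ⊓ 𝓟 {n | G n}, 1 ≤ n := mem_inf_of_left (eventually_ge_atTop 1)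
  obtain ⟨r1, r2, r3⟩ := fluct S hS hind p hp hp2 Q val (fun n => (n : ℝ) ^ (1 / 8 : ℝ)) G hB
    (fun n => Real.rpow_nonneg (Nat.cast_nonneg _) _)
    (tendsto_atTop_mono' _ hE' (ht.mono_left inf_le_left))
    (by
      refine squeeze_zero' ?_ ?_ (hd.mono_left inf_le_left)
      · filter_upwards [hE', h1] with n g1 g2
        have : (0 : ℝ) < (n : ℝ) ^ (7 / 16 : ℝ) := Real.rpow_pos_of_pos (by exact_mod_cast g2) _
        have : 0 < Ex p (Q n) val := by linarith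
        positivity
      · filter_upwards [hE', h1] with n g1 g2
        have hn0 : (0 : ℝ) < n := by exact_mod_cast g2
        have h0 : (0 : ℝ) < (n : ℝ) ^ (7 / 16 : ℝ) := Real.rpow_pos_of_pos hn0 _
        have h3 : 0 < Ex p (Q n) val := by linarith
        rw [div_le_iff₀ h3]
        have e1 : ((n : ℝ) ^ (1 / 8 : ℝ)) ^ 2 = (n : ℝ) ^ (-(3 / 16) : ℝ) * (n : ℝ) ^ (7 / 16 : ℝ) := by
          rw [← Real.rpow_natCast, ← Real.rpow_mul hn0.le, ← Real.rpow_add hn0]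
          norm_num
        rw [e1]
        exact mul_le_mul_of_nonneg_left g1 (Real.rpow_nonneg hn0.le _))
  refine ⟨r1, r2, r3 ?_⟩
  have e3 := (isLittleO_log_rpow_atTop (show (0 : ℝ) < 3 / 16 by norm_num)).bound
    (show (0 : ℝ) < 1 / 16 by norm_num)
  filter_upwards [hE, eventually_ge_atTop 1, tendsto_natCast_atTop_atTop.eventually e3] with n g1 g2 g3 hG
  have hn1 : (1 : ℝ) ≤ n := by exact_mod_cast g2
  have hn0 : (0 : ℝ) < n := by linarith
  rw [Real.norm_eq_abs, Real.norm_eq_abs, abs_of_nonneg (Real.log_nonneg hn1),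
    abs_of_nonneg (Real.rpow_nonneg hn0.le _)] at g3
  refine le_trans ?_ (g1 hG)
  have e1 : (n : ℝ) ^ (7 / 16 : ℝ) = ((n : ℝ) ^ (1 / 8 : ℝ)) ^ 2 * (n : ℝ) ^ (3 / 16 : ℝ) := by
    rw [← Real.rpow_natCast, ← Real.rpow_mul hn0.le, ← Real.rpow_add hn0]
    norm_num
  rw [e1]
  calc 16 * ((n : ℝ) ^ (1 / 8 : ℝ)) ^ 2 * Real.log n ≤
        16 * ((n : ℝ) ^ (1 / 8 : ℝ)) ^ 2 * (1 / 16 * (n : ℝ) ^ (3 / 16 : ℝ)) :=
        mul_le_mul_of_nonneg_left g3 (by positivity)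
    _ = _ := by ring

end

end Pool.Agent.U949.CL
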