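import Mathlib
import Pool.Agent.U949.CL.Fluct

/-! Large deviations and exceptional probabilities (helper949). -/

set_option autoImplicit false
set_option linter.unusedSectionVars false

namespace Pool.Agent.U949.CL

open MeasureTheory ProbabilityTheory Filter Topology Finset

variable {Ω : Type*} [MeasurableSpace Ω] {μ : Measure Ω} [IsProbabilityMeasure μ]

lemma Va_le {α : Type*} (p : ℕ → ℝ) (hp0 : ∀ m, 0 ≤ p m) (hp1 : ∀ m, p m ≤ 1) (Q : Finset α) (val : α → ℕ)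
    (B : ℝ) (hB : ∀ m, (mult Q val m : ℝ) ≤ B) : Va p Q val ≤ B * Ex p Q val := by
  rw [Ex_eq]
  unfold Va
  rw [mul_sum]
  refine sum_le_sum fun m _ => ?_
  have hmn : (0 : ℝ) ≤ mult Q val m := Nat.cast_nonneg _
  have h1 : p m * (1 - p m) ≤ p m := by nlinarith [hp0 m, hp1 m]
  calc (mult Q val m : ℝ) ^ 2 * (p m * (1 - p m)) ≤ (mult Q val m : ℝ) ^ 2 * p m :=
        mul_le_mul_of_nonneg_left h1 (sq_nonneg _)
    _ = mult Q val m * (mult Q val m * p m) := by ring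
    _ ≤ B * (mult Q val m * p m) := mul_le_mul_of_nonneg_right (hB m) (mul_nonneg hmn (hp0 m))

/-- the probability of a large deviation -/
lemma dev_one {α : Type*} {S : ℕ → Set Ω} (hS : ∀ m, MeasurableSet (S m)) (hind : iIndepSet S μ) (p : ℕ → ℝ)
    (hp : ∀ m, μ.real (S m) = p m) (Q : Finset α) (val : α → ℕ) (B : ℝ) (hB1 : 0 < B)
    (hB : ∀ m, (mult Q val m : ℝ) ≤ B) (η : ℝ) (hη : 0 < η) (hη1 : η ≤ 1) :
    μ.real {ω | η * Ex p Q val ≤ |Co S Q val ω - Ex p Q val|} ≤ 2 * Real.exp (-(η ^ 2 * (Ex p Q val / B) / 4)) := by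
  classical
  have hp0 : ∀ m, 0 ≤ p m := fun m => by rw [← hp]; exact measureReal_nonneg
  have hp1 : ∀ m, p m ≤ 1 := fun m => by rw [← hp]; exact measureReal_le_one
  have hE0 : 0 ≤ Ex p Q val := sum_nonneg fun v _ => hp0 _
  have hV := Va_le p hp0 hp1 Q val B hB
  set t := η / (2 * B) with ht
  have ht0 : 0 ≤ t := by positivity
  have hVeq : Va p Q val = ∑ m ∈ Q.image val, (mult Q val m : ℝ) ^ 2 * (μ.real (S m) * (1 - μ.real (S m))) := by
    unfold Va
    exact sum_congr rfl fun m _ => by rw [hp]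
  have htw : ∀ m ∈ Q.image val, |t * (mult Q val m : ℝ)| ≤ 1 := by
    intro m _
    rw [abs_mul, abs_of_nonneg ht0, abs_of_nonneg (Nat.cast_nonneg _), ht]
    calc η / (2 * B) * (mult Q val m : ℝ) ≤ η / (2 * B) * B := mul_le_mul_of_nonneg_left (hB m) (by positivity)
      _ = η / 2 := by field_simp
      _ ≤ 1 := by linarith
  have c1 := chernoff S hS hind (Q.image val) (fun m => (mult Q val m : ℝ)) t (η * Ex p Q val) (Va p Q val) ht0 hVeq htw
  have c2 := chernoff S hS hind (Q.image val) (fun m => -(mult Q val m : ℝ)) t (η * Ex p Q val) (Va p Q val) ht0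
    (by rw [hVeq]; exact sum_congr rfl fun i _ => by ring) (fun m hm => by rw [mul_neg, abs_neg]; exact htw m hm)
  have hexp : -t * (η * Ex p Q val) + t ^ 2 * Va p Q val ≤ -(η ^ 2 * (Ex p Q val / B) / 4) := by
    have h1 : t ^ 2 * Va p Q val ≤ t ^ 2 * (B * Ex p Q val) := mul_le_mul_of_nonneg_left hV (sq_nonneg t)
    have h2 : -t * (η * Ex p Q val) + t ^ 2 * (B * Ex p Q val) = -(η ^ 2 * (Ex p Q val / B) / 4) := by
      rw [ht]
      field_simp
      ring
    linarith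
  have c1' := c1.trans (Real.exp_le_exp.2 hexp)
  have c2' := c2.trans (Real.exp_le_exp.2 hexp)
  have hsub : {ω | η * Ex p Q val ≤ |Co S Q val ω - Ex p Q val|} ⊆
      {ω | η * Ex p Q val ≤ ∑ m ∈ Q.image val, (mult Q val m : ℝ) * (I1 (S m) ω - μ.real (S m))} ∪
      {ω | η * Ex p Q val ≤ ∑ m ∈ Q.image val, -(mult Q val m : ℝ) * (I1 (S m) ω - μ.real (S m))} := by
    intro ω hω
    have h0 : η * Ex p Q val ≤ |Co S Q val ω - Ex p Q val| := hω
    have h1 := Co_sub S p Q val ω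
    rcases le_abs.1 h0 with h | h
    · left
      show η * Ex p Q val ≤ ∑ m ∈ Q.image val, (mult Q val m : ℝ) * (I1 (S m) ω - μ.real (S m))
      simp only [hp]
      rw [← h1]
      exact h
    · right
      show η * Ex p Q val ≤ ∑ m ∈ Q.image val, -(mult Q val m : ℝ) * (I1 (S m) ω - μ.real (S m))
      simp only [hp, neg_mul, sum_neg_distrib]
      rw [← h1]
      exact h
  refine (measureReal_mono hsub (measure_ne_top _ _)).trans ((measureReal_union_le _ _).trans ?_)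
  linarith

/-- **Exceptional probabilities.** -/
theorem tail {α : Type*} {S : ℕ → Set Ω} (hS : ∀ m, MeasurableSet (S m)) (hind : iIndepSet S μ) (p : ℕ → ℝ)
    (hp : ∀ m, μ.real (S m) = p m) (Q : ℕ → Finset α) (val : α → ℕ) (B : ℕ → ℝ) (G : ℕ → Prop)
    (hB1 : ∀ᶠ n in atTop, 0 < B n) (hB : ∀ᶠ n in atTop, G n → ∀ m, (mult (Q n) val m : ℝ) ≤ B n)
    (g g' : ℝ) (hg : g' < g) (hg0 : 0 < g') (hE : ∀ᶠ n : ℕ in atTop, G n → (n : ℝ) ^ g ≤ Ex p (Q n) val / B n)
    (η : ℝ) (hη : 0 < η) (hη1 : η ≤ 1) :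
    ∀ᶠ N : ℕ in atTop, μ.real {ω | ∃ n, N ≤ n ∧ G n ∧
      η * Ex p (Q n) val ≤ |Co S (Q n) val ω - Ex p (Q n) val|} ≤ Real.exp (-(N : ℝ) ^ g') := by
  classical
  -- numerical part
  have hnum : ∀ᶠ n : ℕ in atTop, (n : ℝ) ^ g' + 2 * Real.log n + Real.log 8 ≤ η ^ 2 * (n : ℝ) ^ g / 4 := by
    have e1 : ∀ᶠ n : ℕ in atTop, 12 / η ^ 2 ≤ (n : ℝ) ^ (g - g') :=
      ((tendsto_rpow_atTop (by linarith)).comp tendsto_natCast_atTop_atTop).eventually_ge_atTop _
    have e2 := (isLittleO_log_rpow_atTop hg0).bound (show (0 : ℝ) < 1 / 2 by norm_num)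
    have e3 : ∀ᶠ n : ℕ in atTop, Real.log 8 ≤ (n : ℝ) ^ g' :=
      ((tendsto_rpow_atTop hg0).comp tendsto_natCast_atTop_atTop).eventually_ge_atTop _
    filter_upwards [e1, tendsto_natCast_atTop_atTop.eventually e2, e3, eventually_ge_atTop 1] with n h1 h2 h3 h4
    have hn1 : (1 : ℝ) ≤ n := by exact_mod_cast h4
    have hn0 : (0 : ℝ) < n := by linarith
    rw [Real.norm_eq_abs, Real.norm_eq_abs, abs_of_nonneg (Real.log_nonneg hn1),
      abs_of_nonneg (Real.rpow_nonneg hn0.le _)] at h2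
    have h5 : (n : ℝ) ^ g = (n : ℝ) ^ (g - g') * (n : ℝ) ^ g' := by
      rw [← Real.rpow_add hn0]
      congr 1
      ring
    have h6 : 0 < (n : ℝ) ^ g' := Real.rpow_pos_of_pos hn0 _
    rw [div_le_iff₀ (by positivity)] at h1
    rw [h5]
    nlinarith
  obtain ⟨n0, hn0⟩ := eventually_atTop.1 (hnum.and (hB1.and (hB.and (hE.and (eventually_ge_atTop 1)))))
  filter_upwards [eventually_ge_atTop n0, eventually_ge_atTop 1] with N hN hN1
  set s : ℕ → Set Ω := fun n => if N ≤ n ∧ G n then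
    {ω | η * Ex p (Q n) val ≤ |Co S (Q n) val ω - Ex p (Q n) val|} else ∅ with hs
  have hNp : (1 : ℝ) ≤ N := by exact_mod_cast hN1
  have hsmall : ∀ n, μ (s n) ≤ ENNReal.ofReal (Real.exp (-(N : ℝ) ^ g') * (1 / 4 * ((n : ℝ) ^ 2)⁻¹)) := by
    intro n
    rw [hs]
    simp only
    split_ifs with h
    · obtain ⟨h1, h2, h3, h4, h5⟩ := hn0 n (hN.trans h.1)
      have hn1 : (1 : ℝ) ≤ n := by exact_mod_cast h5
      have hnp : (0 : ℝ) < n := by linarith
      have h6 := dev_one (μ := μ) hS hind p hp (Q n) val (B n) h2 (h3 h.2) η hη hη1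
      have h7 : 2 * Real.exp (-(η ^ 2 * (Ex p (Q n) val / B n) / 4)) ≤
          Real.exp (-(N : ℝ) ^ g') * (1 / 4 * ((n : ℝ) ^ 2)⁻¹) := by
        have h8 : (N : ℝ) ^ g' ≤ (n : ℝ) ^ g' := Real.rpow_le_rpow (by linarith) (by exact_mod_cast h.1) hg0.le
        have h9 : η ^ 2 * (n : ℝ) ^ g / 4 ≤ η ^ 2 * (Ex p (Q n) val / B n) / 4 := by
          have := mul_le_mul_of_nonneg_left (h4 h.2) (sq_nonneg η)
          linarith
        have e1 : Real.exp (-(N : ℝ) ^ g') * (1 / 4 * ((n : ℝ) ^ 2)⁻¹) =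
            2 * Real.exp (-((N : ℝ) ^ g' + 2 * Real.log n + Real.log 8)) := by
          have e8 : Real.exp (Real.log 8) = 8 := Real.exp_log (by norm_num)
          have en : Real.exp (2 * Real.log n) = (n : ℝ) ^ 2 := by
            rw [two_mul, Real.exp_add, Real.exp_log hnp, sq]
          rw [neg_add, neg_add, Real.exp_add, Real.exp_add, Real.exp_neg (2 * Real.log n), Real.exp_neg (Real.log 8),
            e8, en]
          ring
        rw [e1]
        refine mul_le_mul_of_nonneg_left (Real.exp_le_exp.2 ?_) (by norm_num)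
        linarith
      rw [← ENNReal.ofReal_toReal (measure_ne_top μ _)]
      exact ENNReal.ofReal_le_ofReal (h6.trans h7)
    · simp
  have hsub : {ω | ∃ n, N ≤ n ∧ G n ∧ η * Ex p (Q n) val ≤ |Co S (Q n) val ω - Ex p (Q n) val|} ⊆ ⋃ n, s n := by
    rintro ω ⟨n, h1, h2, h3⟩
    refine Set.mem_iUnion.2 ⟨n, ?_⟩
    rw [hs]
    simp only
    rw [if_pos ⟨h1, h2⟩]
    exact h3
  have hsum : Summable (fun n : ℕ => 1 / 4 * ((n : ℝ) ^ 2)⁻¹) :=
    (Real.summable_nat_pow_inv.2 (by norm_num)).mul_left _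
  have htot : ∑' n : ℕ, 1 / 4 * ((n : ℝ) ^ 2)⁻¹ ≤ 1 := by
    rw [tsum_mul_left]
    have h1 : ∑' n : ℕ, ((n : ℝ) ^ 2)⁻¹ = Real.pi ^ 2 / 6 := by
      have := hasSum_zeta_two.tsum_eq
      simpa only [one_div] using this
    rw [h1]
    have := Real.pi_lt_d2
    have hp0 := Real.pi_pos
    nlinarith
  have hfin : μ (⋃ n, s n) ≤ ENNReal.ofReal (Real.exp (-(N : ℝ) ^ g')) := by
    refine (measure_iUnion_le s).trans ((ENNReal.tsum_le_tsum hsmall).trans ?_)
    rw [← ENNReal.ofReal_tsum_of_nonneg (fun n => by positivity) (hsum.mul_left _), tsum_mul_left]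
    refine ENNReal.ofReal_le_ofReal ?_
    calc Real.exp (-(N : ℝ) ^ g') * ∑' n : ℕ, 1 / 4 * ((n : ℝ) ^ 2)⁻¹ ≤ Real.exp (-(N : ℝ) ^ g') * 1 :=
          mul_le_mul_of_nonneg_left htot (Real.exp_pos _).le
      _ = _ := mul_one _
  have h9 := (measure_mono hsub).trans hfin
  rw [measureReal_def]
  exact ENNReal.toReal_le_of_le_ofReal (Real.exp_pos _).le h9

end Pool.Agent.U949.CL
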