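import Mathlib
import Pool.Agent.U949.CL.Dev

/-! Square root error in terms of the mean, and pairs of events (helper949). -/

set_option autoImplicit false
set_option linter.unusedSectionVars false

namespace Pool.Agent.U949.CL

open MeasureTheory ProbabilityTheory Filter Topology Finset

variable {Ω : Type*} [MeasurableSpace Ω] {μ : Measure Ω} [IsProbabilityMeasure μ]

/-- **Error of the order of the square root of `B E log n`** -/
theorem sqrt_error2 {α : Type*} {S : ℕ → Set Ω} (hS : ∀ m, MeasurableSet (S m)) (hind : iIndepSet S μ) (p : ℕ → ℝ)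
    (hp : ∀ m, μ.real (S m) = p m) (Q : ℕ → Finset α) (val : α → ℕ) (B : ℕ → ℝ) (G : ℕ → Prop)
    (hB : ∀ᶠ n in atTop, G n → ∀ m, (mult (Q n) val m : ℝ) ≤ B n)
    (hE : ∀ᶠ n : ℕ in atTop, G n → 0 < B n ∧ 4 * B n * Real.log n ≤ Ex p (Q n) val) :
    ∀ᵐ ω ∂μ, ∀ᶠ n : ℕ in atTop, G n →
      |Co S (Q n) val ω - Ex p (Q n) val| ≤ 3 * √(B n * Ex p (Q n) val * Real.log n) := by
  classical
  have hp0 : ∀ m, 0 ≤ p m := fun m => by rw [← hp]; exact measureReal_nonneg
  have hp1 : ∀ m, p m ≤ 1 := fun m => by rw [← hp]; exact measureReal_le_one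
  obtain ⟨n0, hn0⟩ := eventually_atTop.1 (hB.and (hE.and (eventually_ge_atTop 2)))
  set s : ℕ → Set Ω := fun n => if n0 ≤ n ∧ G n then
    {ω | 3 * √(B n * Ex p (Q n) val * Real.log n) < |Co S (Q n) val ω - Ex p (Q n) val|} else ∅ with hs
  have hsmall : ∀ n, μ (s n) ≤ ENNReal.ofReal (2 * ((n : ℝ) ^ 2)⁻¹) := by
    intro n
    rw [hs]
    simp only
    split_ifs with h
    · obtain ⟨g1, g2, g3⟩ := hn0 n h.1
      have g1 := g1 h.2
      obtain ⟨B0, g2⟩ := g2 h.2
      have hn2 : (2 : ℝ) ≤ n := by exact_mod_cast g3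
      have hL : 0 < Real.log (n : ℝ) := Real.log_pos (by linarith)
      set L := Real.log (n : ℝ) with hLdef
      set X := Ex p (Q n) val with hX
      have hX0 : 0 < X := by
        have : 0 < 4 * B n * L := by positivity
        linarith
      have hV := Va_le p hp0 hp1 (Q n) val (B n) g1
      set U := B n * X with hU
      have hU0 : 0 < U := by positivity
      set t := 2 * √(L / U) with ht
      have ht0 : 0 ≤ t := by positivity
      have ht2 : t ^ 2 = 4 * (L / U) := by
        rw [ht, mul_pow, Real.sq_sqrt (by positivity)]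
        norm_num
      have hta : t * (3 * √(U * L)) = 6 * L := by
        rw [ht]
        have : √(L / U) * √(U * L) = L := by
          rw [← Real.sqrt_mul (by positivity), show L / U * (U * L) = L ^ 2 by
            field_simp, Real.sqrt_sq hL.le]
        calc 2 * √(L / U) * (3 * √(U * L)) = 6 * (√(L / U) * √(U * L)) := by ring
          _ = 6 * L := by rw [this]
      have hVeq : Va p (Q n) val = ∑ m ∈ (Q n).image val, (mult (Q n) val m : ℝ) ^ 2 *
          (μ.real (S m) * (1 - μ.real (S m))) := by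
        unfold Va
        exact sum_congr rfl fun m _ => by rw [hp]
      have hexp : -t * (3 * √(U * L)) + t ^ 2 * Va p (Q n) val ≤ -(2 * L) := by
        have h1 : t ^ 2 * Va p (Q n) val ≤ t ^ 2 * U := mul_le_mul_of_nonneg_left hV (sq_nonneg t)
        have h2 : t ^ 2 * U = 4 * L := by
          rw [ht2]
          field_simp
        rw [neg_mul, hta]
        linarith
      have htw : ∀ m ∈ (Q n).image val, |t * (mult (Q n) val m : ℝ)| ≤ 1 := by
        intro m _
        have h1 := g1 m
        rw [abs_mul, abs_of_nonneg ht0, abs_of_nonneg (Nat.cast_nonneg _)]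
        apply abs_le_of_sq_le_sq' ?_ (by norm_num) |>.2
        rw [mul_pow, ht2, one_pow]
        have h2 : (mult (Q n) val m : ℝ) ^ 2 ≤ B n ^ 2 := pow_le_pow_left₀ (Nat.cast_nonneg _) h1 2
        calc 4 * (L / U) * (mult (Q n) val m : ℝ) ^ 2 ≤ 4 * (L / U) * B n ^ 2 :=
              mul_le_mul_of_nonneg_left h2 (by positivity)
          _ = (4 * B n * L) / X := by
            rw [hU]
            field_simp
          _ ≤ 1 := by rw [div_le_one hX0]; exact g2
      have c1 := chernoff S hS hind ((Q n).image val) (fun m => (mult (Q n) val m : ℝ)) t (3 * √(U * L))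
        (Va p (Q n) val) ht0 hVeq htw
      have c2 := chernoff S hS hind ((Q n).image val) (fun m => -(mult (Q n) val m : ℝ)) t (3 * √(U * L))
        (Va p (Q n) val) ht0 (by rw [hVeq]; exact sum_congr rfl fun i _ => by ring)
        (fun m hm => by rw [mul_neg, abs_neg]; exact htw m hm)
      have c1' := c1.trans (Real.exp_le_exp.2 hexp)
      have c2' := c2.trans (Real.exp_le_exp.2 hexp)
      have hn0' : (0 : ℝ) < n := by linarith
      have hexp2 : Real.exp (-(2 * L)) = ((n : ℝ) ^ 2)⁻¹ := by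
        rw [Real.exp_neg, hLdef, two_mul, Real.exp_add, Real.exp_log hn0', sq]
      rw [hexp2] at c1' c2'
      have hsub : {ω | 3 * √(U * L) < |Co S (Q n) val ω - X|} ⊆
          {ω | 3 * √(U * L) ≤ ∑ m ∈ (Q n).image val, (mult (Q n) val m : ℝ) * (I1 (S m) ω - μ.real (S m))} ∪
          {ω | 3 * √(U * L) ≤ ∑ m ∈ (Q n).image val, -(mult (Q n) val m : ℝ) * (I1 (S m) ω - μ.real (S m))} := by
        intro ω hω
        have h0 : 3 * √(U * L) < |Co S (Q n) val ω - X| := hω
        have h1 := Co_sub S p (Q n) val ω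
        rcases lt_abs.1 h0 with h | h
        · left
          show 3 * √(U * L) ≤ ∑ m ∈ (Q n).image val, (mult (Q n) val m : ℝ) * (I1 (S m) ω - μ.real (S m))
          simp only [hp]
          rw [← h1]
          exact h.le
        · right
          show 3 * √(U * L) ≤ ∑ m ∈ (Q n).image val, -(mult (Q n) val m : ℝ) * (I1 (S m) ω - μ.real (S m))
          simp only [hp, neg_mul, sum_neg_distrib]
          rw [← h1]
          exact h.le
      have h5 : μ.real {ω | 3 * √(U * L) < |Co S (Q n) val ω - X|} ≤ 2 * ((n : ℝ) ^ 2)⁻¹ := by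
        refine (measureReal_mono hsub (measure_ne_top _ _)).trans ((measureReal_union_le _ _).trans ?_)
        linarith
      rw [← ENNReal.ofReal_toReal (measure_ne_top μ {ω | 3 * √(U * L) < |Co S (Q n) val ω - X|})]
      exact ENNReal.ofReal_le_ofReal h5
    · simp
  have hsummable : Summable (fun n : ℕ => 2 * ((n : ℝ) ^ 2)⁻¹) :=
    (Real.summable_nat_pow_inv.2 (by norm_num)).mul_left 2
  have hfin : ∑' n, μ (s n) ≠ ⊤ :=
    ne_top_of_le_ne_top hsummable.tsum_ofReal_ne_top (ENNReal.tsum_le_tsum hsmall)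
  filter_upwards [ae_eventually_notMem hfin] with ω hω
  filter_upwards [hω, eventually_ge_atTop n0] with n h1 h2 h3
  by_contra hcon
  apply h1
  rw [hs]
  simp only
  rw [if_pos ⟨h2, h3⟩]
  exact not_le.1 hcon

/-- the pairs of events -/
def pr (S : ℕ → Set Ω) (k : ℕ) : Set Ω := S (6 * k + 5) ∩ S (6 * k + 7)

lemma pr_meas {S : ℕ → Set Ω} (hS : ∀ m, MeasurableSet (S m)) (k : ℕ) : MeasurableSet (pr S k) :=
  (hS _).inter (hS _)

lemma pr_measure {S : ℕ → Set Ω} (hind : iIndepSet S μ) (s : Finset ℕ) :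
    μ (⋂ k ∈ s, pr S k) = ∏ k ∈ s, (μ (S (6 * k + 5)) * μ (S (6 * k + 7))) := by
  classical
  set A := s.image (fun k => 6 * k + 5) with hA
  set B := s.image (fun k => 6 * k + 7) with hB
  have hdisj : Disjoint A B := by
    rw [Finset.disjoint_left]
    intro m hm1 hm2
    obtain ⟨a, -, ha⟩ := mem_image.1 hm1
    obtain ⟨b, -, hb⟩ := mem_image.1 hm2
    omega
  have h1 : (⋂ k ∈ s, pr S k) = ⋂ m ∈ A ∪ B, S m := by
    ext ω
    simp only [Set.mem_iInter, mem_union, hA, hB, mem_image, pr, Set.mem_inter_iff]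
    constructor
    · rintro h m (⟨k, hk, rfl⟩ | ⟨k, hk, rfl⟩)
      · exact (h k hk).1
      · exact (h k hk).2
    · intro h k hk
      exact ⟨h _ (Or.inl ⟨k, hk, rfl⟩), h _ (Or.inr ⟨k, hk, rfl⟩)⟩
  rw [h1, hind.meas_biInter, prod_union hdisj, hA, hB, prod_image (fun a _ b _ h => by
    have h' : 6 * a + 5 = 6 * b + 5 := h
    omega), prod_image (fun a _ b _ h => by
    have h' : 6 * a + 7 = 6 * b + 7 := h
    omega), prod_mul_distrib]

lemma pr_one {S : ℕ → Set Ω} (hind : iIndepSet S μ) (k : ℕ) :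
    μ (pr S k) = μ (S (6 * k + 5)) * μ (S (6 * k + 7)) := by
  have := pr_measure (μ := μ) hind {k}
  simpa using this

lemma pr_indep {S : ℕ → Set Ω} (hS : ∀ m, MeasurableSet (S m)) (hind : iIndepSet S μ) : iIndepSet (pr S) μ := by
  rw [iIndepSet_iff_meas_biInter (pr_meas hS)]
  intro s
  rw [pr_measure hind]
  exact prod_congr rfl fun k _ => (pr_one hind k).symm

end Pool.Agent.U949.CL
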