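import Mathlib
import Pool.Agent.N233.GM.Law2
import Pool.Agent.U949.CL.Fluct

/-! The densities of the models are eventually at most one half (helper949). -/

set_option autoImplicit false
set_option linter.unusedSectionVars false

namespace Pool.Agent.U949.CL

open Filter Asymptotics MeasureTheory
open Pool.Agent.N233.GM
open scoped Topology

lemma W_half (z : ℕ → ℕ) (h : ∀ δ : ℝ, 0 < δ → ∀ᶠ n : ℕ in atTop, (z n : ℝ) ≤ (n : ℝ) ^ δ) :
    ∀ᶠ n : ℕ in atTop, W (z n) / Real.log n ≤ 1 / 2 := by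
  obtain ⟨C₁, C₂, hC₁, hC₂, hW⟩ := W_bound
  filter_upwards [h (1 / (4 * C₂)) (by positivity), logN.eventually_gt_atTop (4 * C₁), eventually_gt_atTop 1]
    with n h1 h2 h3
  have hn : (1 : ℝ) < n := by exact_mod_cast h3
  have hL : 0 < Real.log n := Real.log_pos hn
  rw [div_le_iff₀ hL]
  have h4 : Real.log (z n) ≤ 1 / (4 * C₂) * Real.log n := by
    rcases Nat.eq_zero_or_pos (z n) with h5 | h5
    · rw [h5, Nat.cast_zero, Real.log_zero]
      positivity
    · have h6 : (0 : ℝ) < z n := by exact_mod_cast h5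
      have h7 := Real.log_le_log h6 h1
      rwa [Real.log_rpow (by linarith)] at h7
  have h5 := hW (z n)
  have h6 : C₂ * Real.log (z n) ≤ 1 / 4 * Real.log n := by
    calc C₂ * Real.log (z n) ≤ C₂ * (1 / (4 * C₂) * Real.log n) := by gcongr
      _ = 1 / 4 * Real.log n := by field_simp
  linarith

/-- a sieve up to a constant times `(log log n) ^ 2` is below every power -/
lemma sq_small (c : ℝ) (z : ℕ → ℕ) (hz : ∀ᶠ n : ℕ in atTop, (z n : ℝ) ≤ c * Real.log (Real.log n) ^ 2)
    (δ : ℝ) (hδ : 0 < δ) : ∀ᶠ n : ℕ in atTop, (z n : ℝ) ≤ (n : ℝ) ^ δ := by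
  have h1 := (isLittleO_log_rpow_rpow_atTop (2 : ℝ) hδ).bound (show (0 : ℝ) < 1 / (|c| + 1) by positivity)
  have h3 : ∀ᶠ n : ℕ in atTop, Real.log (Real.log (n : ℝ)) ≤ Real.log n := by
    filter_upwards [logN.eventually_ge_atTop 1] with n hn
    have := Real.log_le_sub_one_of_pos (show (0 : ℝ) < Real.log n by linarith)
    linarith
  filter_upwards [hz, tendsto_natCast_atTop_atTop.eventually h1, h3, logN.eventually_ge_atTop 1,
    eventually_ge_atTop 1] with n g1 g2 g3 g4 g5
  have hn0 : (0 : ℝ) < n := by exact_mod_cast g5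
  rw [Real.norm_eq_abs, Real.norm_eq_abs, abs_of_nonneg (Real.rpow_nonneg (by linarith) _),
    abs_of_nonneg (Real.rpow_nonneg hn0.le _)] at g2
  have e5 : Real.log n ^ (2 : ℝ) = Real.log n ^ (2 : ℕ) := by
    rw [← Real.rpow_natCast]; norm_num
  rw [e5] at g2
  have h4 : 0 ≤ Real.log (Real.log (n : ℝ)) := Real.log_nonneg g4
  calc (z n : ℝ) ≤ c * Real.log (Real.log n) ^ 2 := g1
    _ ≤ (|c| + 1) * Real.log n ^ 2 := by
        apply mul_le_mul _ _ (by positivity) (by positivity)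
        · have := le_abs_self c
          linarith
        · exact pow_le_pow_left₀ h4 g3 2
    _ ≤ (|c| + 1) * (1 / (|c| + 1) * (n : ℝ) ^ δ) := by gcongr
    _ = (n : ℝ) ^ δ := by field_simp

lemma rho1_half (c : ℝ) (z : ℕ → ℕ) (hz : ∀ᶠ n : ℕ in atTop, (z n : ℝ) ≤ c * Real.log (Real.log n) ^ 2) :
    ∀ᶠ m : ℕ in atTop, rho1 z m ≤ 1 / 2 := by
  filter_upwards [W_half z (sq_small c z hz)] with m h
  unfold rho1
  split_ifs
  · exact (min_le_right _ _).trans h
  · norm_num

end Pool.Agent.U949.CL
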