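import Mathlib
import Pool.Agent.U949.CL.Fluct

/-! Fluctuations with bounded multiplicities (helper949). -/

set_option autoImplicit false

namespace Pool.Agent.U949.CL

open MeasureTheory ProbabilityTheory Filter Topology Finset

variable {Ω : Type*} [MeasurableSpace Ω] {μ : Measure Ω} [IsProbabilityMeasure μ]

/-- the case of multiplicities of at most `K` and an expectation of at least `n ^ a` -/
theorem fluctK {α : Type*} (S : ℕ → Set Ω) (hS : ∀ m, MeasurableSet (S m)) (hind : iIndepSet S μ) (p : ℕ → ℝ)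
    (hp : ∀ m, μ.real (S m) = p m) (hp2 : ∀ᶠ m in atTop, p m ≤ 1 / 2) (Q : ℕ → Finset α) (val : α → ℕ)
    (G : ℕ → Prop) (K a : ℝ) (ha : 0 < a) (hK : 0 < K) (hB : ∀ n m, (mult (Q n) val m : ℝ) ≤ K)
    (hE : ∀ᶠ n : ℕ in atTop, G n → (n : ℝ) ^ a ≤ Ex p (Q n) val) :
    (∀ᶠ n : ℕ in atTop, G n → Ex p (Q n) val / 4 ≤ Va p (Q n) val ∧
      Va p (Q n) val ≤ K * Ex p (Q n) val) ∧
    (∀ x : ℝ, Tendsto (fun n => μ.real {ω | Co S (Q n) val ω - Ex p (Q n) val ≤ x * √(Va p (Q n) val)})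
      (atTop ⊓ 𝓟 {n | G n}) (𝓝 ((gaussianReal 0 1).real (Set.Iic x)))) ∧
    (∀ᵐ ω ∂μ, ∀ᶠ n : ℕ in atTop, G n →
        |Co S (Q n) val ω - Ex p (Q n) val| ≤ 3 * √(Va p (Q n) val * Real.log n)) := by
  have hE' : ∀ᶠ n : ℕ in atTop ⊓ 𝓟 {n | G n}, (n : ℝ) ^ a ≤ Ex p (Q n) val :=
    eventually_inf_principal.2 hE
  have ht : Tendsto (fun n : ℕ => (n : ℝ) ^ a) atTop atTop :=
    (tendsto_rpow_atTop ha).comp tendsto_natCast_atTop_atTop
  have hEt : Tendsto (fun n => Ex p (Q n) val) (atTop ⊓ 𝓟 {n | G n}) atTop :=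
    tendsto_atTop_mono' _ hE' (ht.mono_left inf_le_left)
  obtain ⟨r1, r2, r3⟩ := fluct S hS hind p hp hp2 Q val (fun _ => K) G (Eventually.of_forall fun n _ m => hB n m)
    (fun _ => hK.le) hEt (hEt.const_div_atTop (K ^ 2))
  refine ⟨r1, r2, r3 ?_⟩
  have e3 := (isLittleO_log_rpow_atTop ha).bound
    (show (0 : ℝ) < 1 / (16 * K ^ 2) by positivity)
  filter_upwards [hE, eventually_ge_atTop 1, tendsto_natCast_atTop_atTop.eventually e3] with n g1 g2 g3 hG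
  have hn1 : (1 : ℝ) ≤ n := by exact_mod_cast g2
  have hn0 : (0 : ℝ) < n := by linarith
  rw [Real.norm_eq_abs, Real.norm_eq_abs, abs_of_nonneg (Real.log_nonneg hn1),
    abs_of_nonneg (Real.rpow_nonneg hn0.le _)] at g3
  refine le_trans ?_ (g1 hG)
  calc 16 * K ^ 2 * Real.log n ≤ 16 * K ^ 2 * (1 / (16 * K ^ 2) * (n : ℝ) ^ a) :=
        mul_le_mul_of_nonneg_left g3 (by positivity)
    _ = (n : ℝ) ^ a := by field_simp

/-- the case of an expectation of at least `n ^ (7/16)` and multiplicities of at most `12` -/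
theorem fluct12 {α : Type*} (S : ℕ → Set Ω) (hS : ∀ m, MeasurableSet (S m)) (hind : iIndepSet S μ) (p : ℕ → ℝ)
    (hp : ∀ m, μ.real (S m) = p m) (hp2 : ∀ᶠ m in atTop, p m ≤ 1 / 2) (Q : ℕ → Finset α) (val : α → ℕ)
    (G : ℕ → Prop) (hB : ∀ n m, (mult (Q n) val m : ℝ) ≤ 12)
    (hE : ∀ᶠ n : ℕ in atTop, G n → (n : ℝ) ^ (7 / 16 : ℝ) ≤ Ex p (Q n) val) :
    (∀ᶠ n : ℕ in atTop, G n → Ex p (Q n) val / 4 ≤ Va p (Q n) val ∧
      Va p (Q n) val ≤ 12 * Ex p (Q n) val) ∧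
    (∀ x : ℝ, Tendsto (fun n => μ.real {ω | Co S (Q n) val ω - Ex p (Q n) val ≤ x * √(Va p (Q n) val)})
      (atTop ⊓ 𝓟 {n | G n}) (𝓝 ((gaussianReal 0 1).real (Set.Iic x)))) ∧
    (∀ᵐ ω ∂μ, ∀ᶠ n : ℕ in atTop, G n →
        |Co S (Q n) val ω - Ex p (Q n) val| ≤ 3 * √(Va p (Q n) val * Real.log n)) :=
  fluctK S hS hind p hp hp2 Q val G 12 (7 / 16) (by norm_num) (by norm_num) hB hE

end Pool.Agent.U949.CL
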