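import Pool.Agent.U949.CL.Sq

set_option autoImplicit false

/-!
# Frequencies for counts with disjoint sets of values
-/

open MeasureTheory ProbabilityTheory Filter Finset
open scoped Topology

namespace Pool.Agent.U949.CL

variable {Ω : Type*} {mΩ : MeasurableSpace Ω} {μ : Measure Ω} [IsProbabilityMeasure μ]

/-- the events generated by the `S i`, `i ∈ A` -/
@[reducible] def Fs (S : ℕ → Set Ω) (A : Set ℕ) : MeasurableSpace Ω := ⨆ i ∈ A, MeasurableSpace.generateFrom {S i}

lemma gen_le {S : ℕ → Set Ω} (hS : ∀ m, MeasurableSet (S m)) (i : ℕ) :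
    MeasurableSpace.generateFrom {S i} ≤ mΩ := by
  refine MeasurableSpace.generateFrom_le fun t ht => ?_
  rw [Set.mem_singleton_iff] at ht
  rw [ht]
  exact hS i

lemma Fs_le {S : ℕ → Set Ω} (hS : ∀ m, MeasurableSet (S m)) (A : Set ℕ) : Fs S A ≤ mΩ :=
  iSup₂_le fun i _ => gen_le hS i

lemma Fs_mono (S : ℕ → Set Ω) {A B : Set ℕ} (h : A ⊆ B) : Fs S A ≤ Fs S B :=
  biSup_mono h

lemma Fs_mem (S : ℕ → Set Ω) {A : Set ℕ} {i : ℕ} (hi : i ∈ A) : MeasurableSet[Fs S A] (S i) := by
  have h : MeasurableSpace.generateFrom {S i} ≤ Fs S A :=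
    le_iSup₂ (f := fun i (_ : i ∈ A) => MeasurableSpace.generateFrom {S i}) i hi
  exact h _ (MeasurableSpace.measurableSet_generateFrom rfl)

lemma Co_meas {α : Type*} (S : ℕ → Set Ω) (Q : Finset α) (val : α → ℕ) :
    @Measurable _ _ (Fs S (val '' (Q : Set α))) _ (Co S Q val) := by
  have : Co S Q val = fun ω => ∑ v ∈ Q, I1 (S (val v)) ω := rfl
  rw [this]
  refine @Finset.measurable_sum _ _ _ _ _ _ (Fs S (val '' (Q : Set α))) _ Q fun v hv => ?_
  have h1 := Fs_mem S (Set.mem_image_of_mem val (Finset.mem_coe.2 hv))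
  have h2 : @Measurable _ _ (Fs S (val '' (Q : Set α))) _ (fun _ : Ω => (1 : ℝ)) :=
    @measurable_const _ _ _ (Fs S (val '' (Q : Set α))) 1
  exact h2.indicator h1

lemma I1_Fs (S : ℕ → Set Ω) {A : Set ℕ} {i : ℕ} (hi : i ∈ A) : @Measurable _ _ (Fs S A) _ (I1 (S i)) := by
  have h2 : @Measurable _ _ (Fs S A) _ (fun _ : Ω => (1 : ℝ)) := @measurable_const _ _ _ (Fs S A) 1
  exact h2.indicator (Fs_mem S hi)

/-- events which depend on disjoint sets of indices are independent -/
theorem indep_blocks2 {S : ℕ → Set Ω} (hS : ∀ m, MeasurableSet (S m)) (hind : iIndepSet S μ)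
    (A : ℕ → Set ℕ) (hA : ∀ k l, k ≠ l → Disjoint (A k) (A l)) (D : ℕ → Set Ω)
    (hm : ∀ k, MeasurableSet[Fs S (A k)] (D k)) : iIndepSet D μ := by
  classical
  rw [iIndepSet_iff_meas_biInter (fun k => Fs_le hS _ _ (hm k))]
  intro s
  induction s using Finset.induction_on with
  | empty => simp
  | insert k s hk ih =>
    rw [Finset.prod_insert hk, ← ih, Finset.set_biInter_insert]
    have hi : Indep (Fs S (A k)) (Fs S (⋃ l ∈ s, A l)) μ := by
      refine indep_iSup_of_disjoint (gen_le hS) ((iIndepSet_iff_iIndep _ _).1 hind) ?_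
      rw [Set.disjoint_left]
      intro m hm1 hm2
      simp only [Set.mem_iUnion] at hm2
      obtain ⟨l, hl, hw⟩ := hm2
      have hkl : k ≠ l := by
        rintro rfl
        exact hk hl
      exact Set.disjoint_left.1 (hA k l hkl) hm1 hw
    rw [Indep_iff] at hi
    refine hi _ _ (hm k) ?_
    refine @Finset.measurableSet_biInter _ _ (Fs S (⋃ l ∈ s, A l)) _ s fun l hl => ?_
    exact Fs_mono S (Set.subset_biUnion_of_mem (u := A) hl) _ (hm l)

theorem indep_blocks {S : ℕ → Set Ω} (hS : ∀ m, MeasurableSet (S m)) (hind : iIndepSet S μ) {α : Type*}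
    (Q : ℕ → Finset α) (val : α → ℕ) (hdisj : ∀ k l, k ≠ l → ∀ v ∈ Q k, ∀ w ∈ Q l, val v ≠ val w)
    (D : ℕ → Set ℝ) (hD : ∀ k, MeasurableSet (D k)) :
    iIndepSet (fun k => {ω | Co S (Q k) val ω ∈ D k}) μ := by
  refine indep_blocks2 hS hind (fun k => val '' (Q k : Set α)) ?_ _ (fun k => Co_meas S (Q k) val (hD k))
  intro k l hkl
  rw [Set.disjoint_left]
  rintro m ⟨v, hv, rfl⟩ ⟨w, hw, hwe⟩
  exact hdisj k l hkl v (Finset.mem_coe.1 hv) w (Finset.mem_coe.1 hw) hwe.symm

lemma Co_range (T : ℕ → Set Ω) (K : ℕ) (ω : Ω) : Co T (range K) id ω = ∑ k ∈ range K, I1 (T k) ω := rfl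

/-- the law of large numbers for independent events whose probabilities converge -/
theorem freq_ae {T : ℕ → Set Ω} (hT : ∀ k, MeasurableSet (T k)) (hind : iIndepSet T μ) {q : ℝ} (hq : 0 < q)
    (h : Tendsto (fun k => μ.real (T k)) atTop (𝓝 q)) :
    ∀ᵐ ω ∂μ, Tendsto (fun K : ℕ => (Co T (range K) id ω) / K) atTop (𝓝 q) := by
  have hces := h.cesaro
  have hex : ∀ K : ℕ, Ex (fun k => μ.real (T k)) (range K) id = ∑ k ∈ range K, μ.real (T k) := fun K => rfl
  have hlog : ∀ᶠ n : ℕ in atTop, 4 * Real.log n ≤ q / 2 * n := by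
    have e3 := Real.isLittleO_log_id_atTop.bound (show (0 : ℝ) < q / 8 by positivity)
    filter_upwards [tendsto_natCast_atTop_atTop.eventually e3, eventually_ge_atTop 1] with n h3 h4
    have hn1 : (1 : ℝ) ≤ n := by exact_mod_cast h4
    rw [Real.norm_eq_abs, Real.norm_eq_abs, abs_of_nonneg (Real.log_nonneg hn1), id,
      abs_of_nonneg (by linarith : (0 : ℝ) ≤ (n : ℝ))] at h3
    linarith
  have hlow : ∀ᶠ n : ℕ in atTop, q / 2 * n ≤ Ex (fun k => μ.real (T k)) (range n) id := by
    filter_upwards [hces.eventually (lt_mem_nhds (show q / 2 < q by linarith)), eventually_ge_atTop 1] with n h3 h4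
    have hn0 : (0 : ℝ) < n := by exact_mod_cast h4
    rw [hex]
    have h5 : q / 2 * n < (n : ℝ)⁻¹ * (∑ k ∈ range n, μ.real (T k)) * n := mul_lt_mul_of_pos_right h3 hn0
    have h6 : (n : ℝ)⁻¹ * (∑ k ∈ range n, μ.real (T k)) * n = ∑ k ∈ range n, μ.real (T k) := by
      field_simp
    linarith
  have hse := sqrt_error2 (μ := μ) hT hind (fun k => μ.real (T k)) (fun _ => rfl) (fun K => range K) id (fun _ => 1)
    (fun _ => True)
    (by
      refine Eventually.of_forall fun n _ m => ?_
      have : mult (range n) id m ≤ 1 := by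
        unfold mult
        refine Finset.card_le_one.2 fun a ha b hb => ?_
        rw [mem_filter] at ha hb
        exact ha.2.trans hb.2.symm
      exact_mod_cast this)
    (by
      filter_upwards [hlog, hlow] with n h1 h2 _
      exact ⟨one_pos, by linarith⟩)
  have hsq : Tendsto (fun n : ℕ => 3 * √(Real.log n / n)) atTop (𝓝 0) := by
    have h1 : Tendsto (fun n : ℕ => Real.log n / n) atTop (𝓝 0) :=
      (Real.isLittleO_log_id_atTop.tendsto_div_nhds_zero).comp tendsto_natCast_atTop_atTop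
    have h2 := (h1.sqrt).const_mul 3
    simpa using h2
  filter_upwards [hse] with ω hω
  have hdiff : Tendsto (fun n : ℕ => (Co T (range n) id ω) / n - (n : ℝ)⁻¹ * ∑ k ∈ range n, μ.real (T k))
      atTop (𝓝 0) := by
    refine squeeze_zero_norm' ?_ hsq
    filter_upwards [hω, eventually_ge_atTop 1] with n h1 h2
    have hn0 : (0 : ℝ) < n := by exact_mod_cast h2
    have h3 := h1 trivial
    rw [hex, one_mul] at h3
    have h4 : (Co T (range n) id ω) / n - (n : ℝ)⁻¹ * ∑ k ∈ range n, μ.real (T k) =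
        (Co T (range n) id ω - ∑ k ∈ range n, μ.real (T k)) / n := by
      field_simp
    rw [h4, Real.norm_eq_abs, abs_div, abs_of_pos hn0, div_le_iff₀ hn0]
    have h5 : ∑ k ∈ range n, μ.real (T k) ≤ n := by
      calc ∑ k ∈ range n, μ.real (T k) ≤ ∑ k ∈ range n, (1 : ℝ) := sum_le_sum fun k _ => measureReal_le_one
        _ = n := by simp
    have h6 : √((∑ k ∈ range n, μ.real (T k)) * Real.log n) ≤ √(Real.log n / n) * n := by
      have h7 : √(Real.log n / n) * n = √(Real.log n / n * (n : ℝ) ^ 2) := by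
        rw [Real.sqrt_mul' _ (sq_nonneg _), Real.sqrt_sq hn0.le]
      rw [h7]
      apply Real.sqrt_le_sqrt
      have h8 : Real.log n / n * (n : ℝ) ^ 2 = n * Real.log n := by
        field_simp
      rw [h8]
      exact mul_le_mul_of_nonneg_right h5 (Real.log_nonneg (by exact_mod_cast h2))
    calc |Co T (range n) id ω - ∑ k ∈ range n, μ.real (T k)| ≤
        3 * √((∑ k ∈ range n, μ.real (T k)) * Real.log n) := h3
      _ ≤ 3 * (√(Real.log n / n) * n) := by linarith
      _ = 3 * √(Real.log n / n) * n := by ring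
  have := hdiff.add hces
  simpa using this

/-- the standard normal law of an interval is positive -/
lemma gauss_pos {a b : ℝ} (h : a < b) :
    (gaussianReal 0 1).real (Set.Iic a) < (gaussianReal 0 1).real (Set.Iic b) := by
  have h1 : (gaussianReal 0 1) (Set.Ioo a b) ≠ 0 := by
    intro h0
    have h2 := gaussianReal_absolutelyContinuous' 0 (one_ne_zero) h0
    rw [Real.volume_Ioo, ENNReal.ofReal_eq_zero] at h2
    linarith
  have h3 : 0 < (gaussianReal 0 1).real (Set.Ioo a b) := ENNReal.toReal_pos h1 (measure_ne_top _ _)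
  have h4 : (gaussianReal 0 1).real (Set.Iic a ∪ Set.Ioo a b) =
      (gaussianReal 0 1).real (Set.Iic a) + (gaussianReal 0 1).real (Set.Ioo a b) := by
    refine measureReal_union ?_ measurableSet_Ioo
    rw [Set.disjoint_left]
    intro x hx hx2
    exact absurd hx2.1 (not_lt.2 hx)
  have h5 : (gaussianReal 0 1).real (Set.Iic a ∪ Set.Ioo a b) ≤ (gaussianReal 0 1).real (Set.Iic b) := by
    refine measureReal_mono ?_ (measure_ne_top _ _)
    rintro x (hx | hx)
    · exact le_trans hx h.le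
    · exact hx.2.le
  linarith

lemma gauss_pos0 (a : ℝ) : 0 < (gaussianReal 0 1).real (Set.Iic a) :=
  lt_of_le_of_lt measureReal_nonneg (gauss_pos (show a - 1 < a by linarith))

end Pool.Agent.U949.CL
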