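import Mathlib
import Pool.Agent.U949.CL.Fluct

/-! The characteristic function of the number of chosen sets is close to the Poisson one (helper949):
Stein's method for dissociated sums by characteristic functions. -/

set_option autoImplicit false
set_option linter.unusedSectionVars false

namespace Pool.Agent.U949.CL

open MeasureTheory ProbabilityTheory Filter Topology Finset

variable {Ω : Type*} [MeasurableSpace Ω] {μ : Measure Ω} [IsProbabilityMeasure μ]

/-- the indicator that all elements of `A` are chosen -/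
noncomputable def XX (S : ℕ → Set Ω) (A : Finset ℕ) (ω : Ω) : ℝ := ∏ m ∈ A, I1 (S m) ω

lemma XX_cases (S : ℕ → Set Ω) (A : Finset ℕ) (ω : Ω) : XX S A ω = 0 ∨ XX S A ω = 1 := by
  classical
  unfold XX
  induction A using Finset.induction_on with
  | empty => right; simp
  | insert a s ha ih =>
    rw [prod_insert ha]
    rcases I1_cases (S a) ω with h | h
    · left; rw [h, zero_mul]
    · rw [h, one_mul]; exact ih

lemma XX_nonneg (S : ℕ → Set Ω) (A : Finset ℕ) (ω : Ω) : 0 ≤ XX S A ω := by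
  rcases XX_cases S A ω with h | h <;> rw [h] <;> norm_num

lemma XX_le (S : ℕ → Set Ω) (A : Finset ℕ) (ω : Ω) : XX S A ω ≤ 1 := by
  rcases XX_cases S A ω with h | h <;> rw [h] <;> norm_num

lemma XX_meas {S : ℕ → Set Ω} (hS : ∀ m, MeasurableSet (S m)) (A : Finset ℕ) : Measurable (XX S A) := by
  unfold XX
  exact Finset.measurable_prod _ fun m _ => I1_meas (hS m)

lemma XX_int {S : ℕ → Set Ω} (hS : ∀ m, MeasurableSet (S m)) (A : Finset ℕ) : Integrable (XX S A) μ := by
  refine Integrable.of_bound (C := 1) (XX_meas hS A).aestronglyMeasurable (Eventually.of_forall fun ω => ?_)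
  rw [Real.norm_eq_abs, abs_of_nonneg (XX_nonneg S A ω)]
  exact XX_le S A ω

lemma XX_indicator (S : ℕ → Set Ω) (A : Finset ℕ) : XX S A = (⋂ m ∈ A, S m).indicator (fun _ => (1 : ℝ)) := by
  funext ω
  by_cases h : ω ∈ ⋂ m ∈ A, S m
  · rw [Set.indicator_of_mem h]
    rw [Set.mem_iInter₂] at h
    unfold XX
    exact prod_eq_one fun m hm => by unfold I1; rw [Set.indicator_of_mem (h m hm)]
  · rw [Set.indicator_of_notMem h]
    rw [Set.mem_iInter₂] at h
    push Not at h
    obtain ⟨m, hm, hm2⟩ := h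
    unfold XX
    exact prod_eq_zero hm (by unfold I1; rw [Set.indicator_of_notMem hm2])

lemma XX_mean {S : ℕ → Set Ω} (hS : ∀ m, MeasurableSet (S m)) (hind : iIndepSet S μ) (A : Finset ℕ) :
    ∫ ω, XX S A ω ∂μ = ∏ m ∈ A, μ.real (S m) := by
  rw [XX_indicator, integral_indicator_const _ (Finset.measurableSet_biInter _ fun m _ => hS m), smul_eq_mul,
    mul_one, measureReal_def, hind.meas_biInter, ENNReal.toReal_prod]
  rfl

open Classical in
lemma XX_if (S : ℕ → Set Ω) (A : Finset ℕ) (ω : Ω) : XX S A ω = if ∀ m ∈ A, ω ∈ S m then 1 else 0 := by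
  rw [XX_indicator]
  by_cases h : ∀ m ∈ A, ω ∈ S m
  · rw [if_pos h, Set.indicator_of_mem (Set.mem_iInter₂.2 h)]
  · rw [if_neg h, Set.indicator_of_notMem (fun h2 => h (Set.mem_iInter₂.1 h2))]

lemma XX_mul (S : ℕ → Set Ω) (A B : Finset ℕ) (ω : Ω) : XX S A ω * XX S B ω = XX S (A ∪ B) ω := by
  classical
  rw [XX_if, XX_if, XX_if]
  by_cases h1 : ∀ m ∈ A, ω ∈ S m
  · by_cases h2 : ∀ m ∈ B, ω ∈ S m
    · rw [if_pos h1, if_pos h2, if_pos, one_mul]
      intro m hm
      rcases mem_union.1 hm with h | h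
      · exact h1 m h
      · exact h2 m h
    · rw [if_neg h2, mul_zero, if_neg]
      exact fun h => h2 fun m hm => h m (mem_union_right _ hm)
  · rw [if_neg h1, zero_mul, if_neg]
    exact fun h => h1 fun m hm => h m (mem_union_left _ hm)

/-- the number of chosen sets -/
noncomputable def WW (S : ℕ → Set Ω) (F : Finset (Finset ℕ)) (ω : Ω) : ℝ := ∑ A ∈ F, XX S A ω

lemma WW_nonneg (S : ℕ → Set Ω) (F : Finset (Finset ℕ)) (ω : Ω) : 0 ≤ WW S F ω :=
  sum_nonneg fun A _ => XX_nonneg S A ω

lemma WW_le (S : ℕ → Set Ω) (F : Finset (Finset ℕ)) (ω : Ω) : WW S F ω ≤ F.card := by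
  calc WW S F ω ≤ ∑ _A ∈ F, (1 : ℝ) := sum_le_sum fun A _ => XX_le S A ω
    _ = F.card := by simp

lemma WW_meas {S : ℕ → Set Ω} (hS : ∀ m, MeasurableSet (S m)) (F : Finset (Finset ℕ)) : Measurable (WW S F) :=
  Finset.measurable_sum _ fun A _ => XX_meas hS A

lemma WW_int {S : ℕ → Set Ω} (hS : ∀ m, MeasurableSet (S m)) (F : Finset (Finset ℕ)) : Integrable (WW S F) μ :=
  integrable_finset_sum _ fun A _ => XX_int hS A

/-- `exp (i x)` -/
noncomputable def ee (x : ℝ) : ℂ := Complex.exp (Complex.I * x)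

lemma ee_add (x y : ℝ) : ee (x + y) = ee x * ee y := by
  unfold ee
  rw [← Complex.exp_add]
  congr 1
  push_cast
  ring

lemma ee_norm (x : ℝ) : ‖ee x‖ = 1 := by
  unfold ee
  rw [mul_comm, Complex.norm_exp_ofReal_mul_I]

lemma ee_sub (x : ℝ) : ‖ee x - 1‖ ≤ |x| := Real.norm_exp_I_mul_ofReal_sub_one_le

lemma ee_meas : Measurable ee := by
  unfold ee
  fun_prop

lemma ee_zero : ee 0 = 1 := by
  unfold ee
  simp

/-- bounded measurable functions are integrable -/
lemma int_bdd {f : Ω → ℂ} (hf : Measurable f) (C : ℝ) (hC : ∀ ω, ‖f ω‖ ≤ C) : Integrable f μ :=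
  Integrable.of_bound (C := C) hf.aestronglyMeasurable (Eventually.of_forall hC)

/-- the characteristic function -/
noncomputable def ff (μ : Measure Ω) (S : ℕ → Set Ω) (F : Finset (Finset ℕ)) (t : ℝ) : ℂ :=
  ∫ ω, ee (t * WW S F ω) ∂μ

lemma ff_deriv {S : ℕ → Set Ω} (hS : ∀ m, MeasurableSet (S m)) (F : Finset (Finset ℕ)) (t : ℝ) :
    HasDerivAt (ff μ S F) (∫ ω, Complex.I * WW S F ω * ee (t * WW S F ω) ∂μ) t := by
  have hW := WW_meas hS F
  have h := hasDerivAt_integral_of_dominated_loc_of_deriv_le (μ := μ) (𝕜 := ℝ)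
    (F := fun (t : ℝ) ω => ee (t * WW S F ω)) (F' := fun (t : ℝ) ω => Complex.I * WW S F ω * ee (t * WW S F ω))
    (x₀ := t) (s := Set.univ) (bound := fun _ => (F.card : ℝ)) Filter.univ_mem
    (Eventually.of_forall fun t => (ee_meas.comp (by fun_prop : Measurable fun ω => t * WW S F ω)).aestronglyMeasurable)
    (int_bdd (ee_meas.comp (by fun_prop : Measurable fun ω => t * WW S F ω)) 1 fun ω => (ee_norm _).le)
    (by
      have h1 : Measurable fun ω => ee (t * WW S F ω) := ee_meas.comp (by fun_prop)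
      have h2 : Measurable fun ω => Complex.I * (WW S F ω : ℂ) := by fun_prop
      exact (h2.mul h1).aestronglyMeasurable)
    (Eventually.of_forall fun ω t _ => by
      rw [norm_mul, norm_mul, ee_norm, Complex.norm_I, mul_one, one_mul, Complex.norm_real, Real.norm_eq_abs,
        abs_of_nonneg (WW_nonneg S F ω)]
      exact WW_le S F ω)
    (integrable_const _)
    (Eventually.of_forall fun ω t _ => by
      unfold ee
      have h1 : HasDerivAt (fun t : ℝ => Complex.I * ((t * WW S F ω : ℝ) : ℂ)) (Complex.I * WW S F ω) t := by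
        have h2 : HasDerivAt (fun t : ℝ => ((t * WW S F ω : ℝ) : ℂ)) ((1 * WW S F ω : ℝ) : ℂ) t :=
          ((hasDerivAt_id t).mul_const (WW S F ω)).ofReal_comp
        rw [one_mul] at h2
        exact h2.const_mul Complex.I
      have h3 := h1.cexp
      rw [mul_comm] at h3
      exact h3)
  exact h.2

/-- a set and the sets disjoint from it -/
lemma indep_disj {S : ℕ → Set Ω} (hS : ∀ m, MeasurableSet (S m)) (hind : iIndepSet S μ) (A : Finset ℕ)
    (G : Finset (Finset ℕ)) (hG : ∀ B ∈ G, Disjoint A B) (t : ℝ) :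
    ∫ ω, (XX S A ω : ℂ) * ee (t * WW S G ω) ∂μ = (∏ m ∈ A, μ.real (S m) : ℝ) * ∫ ω, ee (t * WW S G ω) ∂μ := by
  classical
  set T : Finset ℕ := G.biUnion id with hT
  have hAT : Disjoint A T := by
    rw [hT, disjoint_biUnion_right]
    exact hG
  have h1 := (indep_I1 hind).indepFun_finset A T hAT (fun i => I1_meas (hS i))
  have h2 := h1.comp (φ := fun x : (A → ℝ) => ((∏ i, x i : ℝ) : ℂ))
    (ψ := fun y : (T → ℝ) => ee (t * ∑ B ∈ G, ∏ i : T, if (i : ℕ) ∈ B then y i else 1))
    (by fun_prop)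
    (by
      apply ee_meas.comp
      refine Measurable.const_mul (Finset.measurable_sum _ fun B _ => Finset.measurable_prod _ fun i _ => ?_) t
      split_ifs
      · exact measurable_pi_apply i
      · exact measurable_const)
  have e1 : (fun x : (A → ℝ) => ((∏ i, x i : ℝ) : ℂ)) ∘ (fun ω (i : A) => I1 (S i) ω) = fun ω => (XX S A ω : ℂ) := by
    funext ω
    simp only [Function.comp_apply]
    unfold XX
    rw [← Finset.prod_coe_sort A (fun m => I1 (S m) ω)]
  have e2 : (fun y : (T → ℝ) => ee (t * ∑ B ∈ G, ∏ i : T, if (i : ℕ) ∈ B then y i else 1)) ∘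
      (fun ω (i : T) => I1 (S i) ω) = fun ω => ee (t * WW S G ω) := by
    funext ω
    simp only [Function.comp_apply]
    congr 2
    unfold WW
    refine sum_congr rfl fun B hB => ?_
    unfold XX
    rw [Finset.prod_coe_sort T (fun m => if m ∈ B then I1 (S m) ω else 1), ← Finset.prod_filter]
    congr 1
    ext m
    rw [mem_filter, hT, mem_biUnion]
    constructor
    · rintro ⟨-, h⟩
      exact h
    · intro h
      exact ⟨⟨B, hB, h⟩, h⟩
  rw [e1, e2] at h2
  have hm1 : Measurable fun ω => (XX S A ω : ℂ) := by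
    have := XX_meas hS A
    fun_prop
  have hm2 : Measurable fun ω => ee (t * WW S G ω) := by
    have := WW_meas hS G
    exact ee_meas.comp (by fun_prop)
  rw [h2.integral_fun_mul_eq_mul_integral hm1.aestronglyMeasurable hm2.aestronglyMeasurable]
  congr 1
  rw [← XX_mean hS hind]
  exact integral_ofReal

end Pool.Agent.U949.CL
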