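import Mathlib
import Pool.Agent.U949.CL.CS

/-! The characteristic function of the number of chosen sets is close to the Poisson one (helper949). -/

set_option autoImplicit false
set_option linter.unusedSectionVars false

namespace Pool.Agent.U949.CL

open MeasureTheory ProbabilityTheory Filter Topology Finset

variable {Ω : Type*} [MeasurableSpace Ω] {μ : Measure Ω} [IsProbabilityMeasure μ]

/-- the probability that all elements of `A` are chosen -/
noncomputable def PP (μ : Measure Ω) (S : ℕ → Set Ω) (A : Finset ℕ) : ℝ := ∏ m ∈ A, μ.real (S m)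

lemma PP_nonneg (S : ℕ → Set Ω) (A : Finset ℕ) : 0 ≤ PP μ S A := prod_nonneg fun _ _ => measureReal_nonneg

lemma PP_le (S : ℕ → Set Ω) (A : Finset ℕ) : PP μ S A ≤ 1 :=
  prod_le_one (fun _ _ => measureReal_nonneg) fun _ _ => measureReal_le_one

open Classical in
/-- the other sets meeting `A` -/
noncomputable def ZZ (F : Finset (Finset ℕ)) (A : Finset ℕ) : Finset (Finset ℕ) :=
  F.filter (fun B => B ≠ A ∧ ¬ Disjoint A B)

open Classical in
/-- the sets disjoint from `A` -/
noncomputable def UU (F : Finset (Finset ℕ)) (A : Finset ℕ) : Finset (Finset ℕ) :=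
  F.filter (fun B => Disjoint A B)

open Classical in
/-- the error at `A` -/
noncomputable def bA (μ : Measure Ω) (S : ℕ → Set Ω) (F : Finset (Finset ℕ)) (A : Finset ℕ) : ℝ :=
  ∑ B ∈ ZZ F A, PP μ S (A ∪ B) + PP μ S A * (PP μ S A + ∑ B ∈ ZZ F A, PP μ S B)

lemma WW_mean {S : ℕ → Set Ω} (hS : ∀ m, MeasurableSet (S m)) (hind : iIndepSet S μ) (F : Finset (Finset ℕ)) :
    ∫ ω, WW S F ω ∂μ = ∑ A ∈ F, PP μ S A := by
  unfold WW
  rw [integral_finset_sum _ fun A _ => XX_int hS A]
  exact sum_congr rfl fun A _ => XX_mean hS hind A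

lemma split (S : ℕ → Set Ω) (F : Finset (Finset ℕ)) (A : Finset ℕ) (hA : A ∈ F) (hA0 : A.Nonempty) (ω : Ω) :
    WW S F ω = XX S A ω + WW S (ZZ F A) ω + WW S (UU F A) ω := by
  classical
  unfold WW ZZ UU
  rw [← sum_filter_add_sum_filter_not F (fun B => Disjoint A B)]
  have h1 : F.filter (fun B => ¬ Disjoint A B) = insert A (F.filter (fun B => B ≠ A ∧ ¬ Disjoint A B)) := by
    ext B
    rw [mem_filter, mem_insert, mem_filter]
    constructor
    · rintro ⟨h1, h2⟩
      by_cases h : B = A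
      · left; exact h
      · right; exact ⟨h1, h, h2⟩
    · rintro (h | ⟨h1, h2, h3⟩)
      · subst h
        refine ⟨hA, fun h => ?_⟩
        rw [disjoint_self_iff_empty] at h
        exact hA0.ne_empty h
      · exact ⟨h1, h3⟩
  rw [h1, sum_insert (by
    rw [mem_filter]
    rintro ⟨-, h, -⟩
    exact h rfl)]
  ring

lemma main1 {S : ℕ → Set Ω} (hS : ∀ m, MeasurableSet (S m)) (hind : iIndepSet S μ) (F : Finset (Finset ℕ))
    (A : Finset ℕ) (hA : A ∈ F) (hA0 : A.Nonempty) (t : ℝ) :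
    ‖∫ ω, (XX S A ω : ℂ) * ee (t * WW S F ω) ∂μ - PP μ S A * ee t * ff μ S F t‖ ≤ |t| * bA μ S F A := by
  classical
  set Z := ZZ F A with hZ
  set U := UU F A with hU
  have hX := XX_meas hS A
  have hWZ := WW_meas hS Z
  have hWU := WW_meas hS U
  have hWF := WW_meas hS F
  have hXc : Measurable fun ω => (XX S A ω : ℂ) := by fun_prop
  have mU : Measurable fun ω => ee (t * WW S U ω) := ee_meas.comp (by fun_prop)
  have mZ : Measurable fun ω => ee (t * WW S Z ω) := ee_meas.comp (by fun_prop)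
  have mF : Measurable fun ω => ee (t * WW S F ω) := ee_meas.comp (by fun_prop)
  have mXZ : Measurable fun ω => ee (t * (XX S A ω + WW S Z ω)) := ee_meas.comp (by fun_prop)
  have nX : ∀ ω, ‖(XX S A ω : ℂ)‖ = XX S A ω := fun ω => by
    rw [Complex.norm_real, Real.norm_eq_abs, abs_of_nonneg (XX_nonneg S A ω)]
  -- first part
  have e1 : ∀ ω, (XX S A ω : ℂ) * ee (t * WW S F ω) = ee t * ((XX S A ω : ℂ) * ee (t * WW S U ω)) +
      ee t * (XX S A ω : ℂ) * ee (t * WW S U ω) * (ee (t * WW S Z ω) - 1) := by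
    intro ω
    rcases XX_cases S A ω with h | h
    · rw [h]; simp
    · have h2 : t * WW S F ω = t + (t * WW S U ω + t * WW S Z ω) := by
        rw [split S F A hA hA0 ω, h]
        ring
      rw [h2, ee_add, ee_add, h]
      push_cast
      ring
  have i1 : Integrable (fun ω => ee t * ((XX S A ω : ℂ) * ee (t * WW S U ω))) μ :=
    int_bdd (by fun_prop) 1 fun ω => by
      rw [norm_mul, norm_mul, ee_norm, ee_norm, nX, one_mul, mul_one]
      exact XX_le S A ω
  have n2 : ∀ ω, ‖ee t * (XX S A ω : ℂ) * ee (t * WW S U ω) * (ee (t * WW S Z ω) - 1)‖ ≤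
      |t| * ∑ B ∈ Z, XX S (A ∪ B) ω := by
    intro ω
    rw [norm_mul, norm_mul, norm_mul, ee_norm, ee_norm, nX, one_mul, mul_one]
    calc XX S A ω * ‖ee (t * WW S Z ω) - 1‖ ≤ XX S A ω * (|t| * WW S Z ω) := by
          refine mul_le_mul_of_nonneg_left ?_ (XX_nonneg S A ω)
          refine (ee_sub _).trans ?_
          rw [abs_mul, abs_of_nonneg (WW_nonneg S Z ω)]
      _ = |t| * ∑ B ∈ Z, XX S A ω * XX S B ω := by
          unfold WW
          rw [← mul_sum]
          ring
      _ = |t| * ∑ B ∈ Z, XX S (A ∪ B) ω := by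
          congr 1
          exact sum_congr rfl fun B _ => XX_mul S A B ω
  have i2b : Integrable (fun ω => |t| * ∑ B ∈ Z, XX S (A ∪ B) ω) μ :=
    (integrable_finset_sum _ fun B _ => XX_int hS (A ∪ B)).const_mul _
  have i2 : Integrable (fun ω => ee t * (XX S A ω : ℂ) * ee (t * WW S U ω) * (ee (t * WW S Z ω) - 1)) μ :=
    int_bdd (by fun_prop) 2 fun ω => by
      rw [norm_mul, norm_mul, norm_mul, ee_norm, ee_norm, nX, one_mul, mul_one]
      have h1 : ‖ee (t * WW S Z ω) - 1‖ ≤ 2 := by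
        refine (norm_sub_le _ _).trans ?_
        rw [ee_norm, norm_one]
        norm_num
      calc XX S A ω * ‖ee (t * WW S Z ω) - 1‖ ≤ 1 * 2 :=
            mul_le_mul (XX_le S A ω) h1 (norm_nonneg _) (by norm_num)
        _ = 2 := by norm_num
  have b2 : ‖∫ ω, ee t * (XX S A ω : ℂ) * ee (t * WW S U ω) * (ee (t * WW S Z ω) - 1) ∂μ‖ ≤
      |t| * ∑ B ∈ Z, PP μ S (A ∪ B) := by
    refine (norm_integral_le_of_norm_le i2b (Eventually.of_forall n2)).trans ?_
    rw [integral_const_mul, integral_finset_sum _ fun B _ => XX_int hS (A ∪ B)]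
    refine mul_le_mul_of_nonneg_left (le_of_eq ?_) (abs_nonneg t)
    exact sum_congr rfl fun B _ => XX_mean hS hind (A ∪ B)
  -- second part
  have e3 : ∀ ω, ee (t * WW S U ω) - ee (t * WW S F ω) =
      ee (t * WW S U ω) * (1 - ee (t * (XX S A ω + WW S Z ω))) := by
    intro ω
    have h2 : t * WW S F ω = t * WW S U ω + t * (XX S A ω + WW S Z ω) := by
      rw [split S F A hA hA0 ω]
      ring
    rw [h2, ee_add]
    ring
  have n3 : ∀ ω, ‖ee (t * WW S U ω) - ee (t * WW S F ω)‖ ≤ |t| * (XX S A ω + WW S Z ω) := by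
    intro ω
    rw [e3, norm_mul, ee_norm, one_mul, ← norm_neg, neg_sub]
    refine (ee_sub _).trans ?_
    rw [abs_mul, abs_of_nonneg (add_nonneg (XX_nonneg S A ω) (WW_nonneg S Z ω))]
  have iU : Integrable (fun ω => ee (t * WW S U ω)) μ := int_bdd mU 1 fun ω => (ee_norm _).le
  have iF : Integrable (fun ω => ee (t * WW S F ω)) μ := int_bdd mF 1 fun ω => (ee_norm _).le
  have b3 : ‖∫ ω, ee (t * WW S U ω) ∂μ - ff μ S F t‖ ≤ |t| * (PP μ S A + ∑ B ∈ Z, PP μ S B) := by
    unfold ff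
    rw [← integral_sub iU iF]
    refine (norm_integral_le_of_norm_le (((XX_int hS A).add (WW_int hS Z)).const_mul |t|)
      (Eventually.of_forall n3)).trans ?_
    rw [integral_const_mul]
    simp only [Pi.add_apply]
    rw [integral_add (XX_int hS A) (WW_int hS Z), XX_mean hS hind, WW_mean hS hind]
    rfl
  -- together
  have hdec : ∫ ω, (XX S A ω : ℂ) * ee (t * WW S F ω) ∂μ = ee t * (PP μ S A * ∫ ω, ee (t * WW S U ω) ∂μ) +
      ∫ ω, ee t * (XX S A ω : ℂ) * ee (t * WW S U ω) * (ee (t * WW S Z ω) - 1) ∂μ := by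
    simp_rw [e1]
    rw [integral_add i1 i2, integral_const_mul, indep_disj hS hind A U (fun B hB => by
      rw [hU] at hB
      unfold UU at hB
      exact (mem_filter.1 hB).2)]
    rfl
  have hfin : ∫ ω, (XX S A ω : ℂ) * ee (t * WW S F ω) ∂μ - PP μ S A * ee t * ff μ S F t =
      ee t * (PP μ S A * (∫ ω, ee (t * WW S U ω) ∂μ - ff μ S F t)) +
      ∫ ω, ee t * (XX S A ω : ℂ) * ee (t * WW S U ω) * (ee (t * WW S Z ω) - 1) ∂μ := by
    rw [hdec]
    ring
  rw [hfin]
  refine (norm_add_le _ _).trans ?_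
  rw [norm_mul, norm_mul, ee_norm, one_mul, Complex.norm_real, Real.norm_eq_abs, abs_of_nonneg (PP_nonneg S A)]
  unfold bA
  have := mul_le_mul_of_nonneg_left b3 (PP_nonneg (μ := μ) S A)
  calc PP μ S A * ‖∫ ω, ee (t * WW S U ω) ∂μ - ff μ S F t‖ + _ ≤
        PP μ S A * (|t| * (PP μ S A + ∑ B ∈ Z, PP μ S B)) + |t| * ∑ B ∈ Z, PP μ S (A ∪ B) := add_le_add this b2
    _ = _ := by ring

/-- the expected number -/
noncomputable def LL (μ : Measure Ω) (S : ℕ → Set Ω) (F : Finset (Finset ℕ)) : ℝ := ∑ A ∈ F, PP μ S A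

/-- the total error -/
noncomputable def bb (μ : Measure Ω) (S : ℕ → Set Ω) (F : Finset (Finset ℕ)) : ℝ := ∑ A ∈ F, bA μ S F A

lemma LL_nonneg (S : ℕ → Set Ω) (F : Finset (Finset ℕ)) : 0 ≤ LL μ S F := sum_nonneg fun A _ => PP_nonneg S A

lemma deriv_err {S : ℕ → Set Ω} (hS : ∀ m, MeasurableSet (S m)) (hind : iIndepSet S μ) (F : Finset (Finset ℕ))
    (hF : ∀ A ∈ F, A.Nonempty) (t : ℝ) :
    ‖∫ ω, Complex.I * WW S F ω * ee (t * WW S F ω) ∂μ - Complex.I * LL μ S F * ee t * ff μ S F t‖ ≤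
      |t| * bb μ S F := by
  have hWF := WW_meas hS F
  have mF : Measurable fun ω => ee (t * WW S F ω) := ee_meas.comp (by fun_prop)
  have e1 : ∫ ω, Complex.I * WW S F ω * ee (t * WW S F ω) ∂μ =
      Complex.I * ∑ A ∈ F, ∫ ω, (XX S A ω : ℂ) * ee (t * WW S F ω) ∂μ := by
    rw [← integral_finset_sum, ← integral_const_mul]
    · congr 1
      ext ω
      have : (WW S F ω : ℂ) = ∑ A ∈ F, (XX S A ω : ℂ) := by
        unfold WW
        push_cast
        rfl
      rw [this, ← sum_mul]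
      ring
    · intro A _
      have hX := XX_meas hS A
      refine int_bdd (by fun_prop) 1 fun ω => ?_
      rw [norm_mul, ee_norm, mul_one, Complex.norm_real, Real.norm_eq_abs, abs_of_nonneg (XX_nonneg S A ω)]
      exact XX_le S A ω
  have e2 : ∫ ω, Complex.I * WW S F ω * ee (t * WW S F ω) ∂μ - Complex.I * LL μ S F * ee t * ff μ S F t =
      Complex.I * ∑ A ∈ F, (∫ ω, (XX S A ω : ℂ) * ee (t * WW S F ω) ∂μ - PP μ S A * ee t * ff μ S F t) := by
    rw [e1, sum_sub_distrib, ← sum_mul, ← sum_mul]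
    unfold LL
    push_cast
    ring
  rw [e2, norm_mul, Complex.norm_I, one_mul]
  refine (norm_sum_le _ _).trans ?_
  unfold bb
  rw [mul_sum]
  exact sum_le_sum fun A hA => main1 hS hind F A hA (hF A hA) t

/-- the Poisson characteristic function -/
noncomputable def po (l t : ℝ) : ℂ := Complex.exp (l * (ee t - 1))

lemma ee_re (t : ℝ) : (ee t).re = Real.cos t := by
  unfold ee
  rw [mul_comm, Complex.exp_ofReal_mul_I_re]

lemma po_norm (l t : ℝ) : ‖po l t‖ = Real.exp (l * (Real.cos t - 1)) := by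
  unfold po
  rw [Complex.norm_exp]
  congr 1
  rw [Complex.re_ofReal_mul, Complex.sub_re, ee_re, Complex.one_re]

/-- **Stein's method by characteristic functions** -/
theorem poisson_approx {S : ℕ → Set Ω} (hS : ∀ m, MeasurableSet (S m)) (hind : iIndepSet S μ)
    (F : Finset (Finset ℕ)) (hF : ∀ A ∈ F, A.Nonempty) (t : ℝ) (ht0 : 0 ≤ t) (htp : t ≤ Real.pi) :
    ‖ff μ S F t - po (LL μ S F) t‖ ≤ t ^ 2 * bb μ S F := by
  set l := LL μ S F with hl
  have hl0 : 0 ≤ l := LL_nonneg S F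
  have hb0 : 0 ≤ bb μ S F := by
    refine sum_nonneg fun A _ => ?_
    unfold bA
    have h1 := PP_nonneg (μ := μ) S A
    have h2 : 0 ≤ ∑ B ∈ ZZ F A, PP μ S B := sum_nonneg fun B _ => PP_nonneg S B
    have h3 : 0 ≤ ∑ B ∈ ZZ F A, PP μ S (A ∪ B) := sum_nonneg fun B _ => PP_nonneg S _
    positivity
  set g : ℝ → ℂ := fun s => ff μ S F s * Complex.exp (-(l * (ee s - 1))) with hg
  have hee : ∀ s : ℝ, HasDerivAt ee (Complex.I * ee s) s := by
    intro s
    unfold ee
    have h1 : HasDerivAt (fun t : ℝ => Complex.I * ((t : ℝ) : ℂ)) (Complex.I * ((1 : ℝ) : ℂ)) s :=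
      ((hasDerivAt_id s).ofReal_comp).const_mul Complex.I
    have h3 := h1.cexp
    rw [Complex.ofReal_one, mul_one, mul_comm] at h3
    exact h3
  have hgd : ∀ s : ℝ, HasDerivAt g ((∫ ω, Complex.I * WW S F ω * ee (s * WW S F ω) ∂μ -
      Complex.I * l * ee s * ff μ S F s) * Complex.exp (-(l * (ee s - 1)))) s := by
    intro s
    have h1 := ff_deriv (μ := μ) hS F s
    have h2 : HasDerivAt (fun s : ℝ => Complex.exp (-(l * (ee s - 1))))
        (Complex.exp (-(l * (ee s - 1))) * (-(l * (Complex.I * ee s)))) s :=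
      ((((hee s).sub_const 1).const_mul (l : ℂ)).neg).cexp
    have h3 := h1.mul h2
    refine h3.congr_deriv ?_
    ring
  have hbound : ∀ s ∈ Set.Icc 0 t, ‖(∫ ω, Complex.I * WW S F ω * ee (s * WW S F ω) ∂μ -
      Complex.I * l * ee s * ff μ S F s) * Complex.exp (-(l * (ee s - 1)))‖ ≤
      t * bb μ S F * Real.exp (l * (1 - Real.cos t)) := by
    rintro s ⟨hs0, hst⟩
    rw [norm_mul]
    have h1 := deriv_err (μ := μ) hS hind F hF s
    rw [abs_of_nonneg hs0] at h1
    have h2 : ‖Complex.exp (-(l * (ee s - 1)))‖ = Real.exp (l * (1 - Real.cos s)) := by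
      rw [Complex.norm_exp]
      congr 1
      rw [Complex.neg_re, Complex.re_ofReal_mul, Complex.sub_re, ee_re, Complex.one_re]
      ring
    have h3 : Real.cos t ≤ Real.cos s := Real.cos_le_cos_of_nonneg_of_le_pi hs0 htp hst
    rw [h2]
    refine mul_le_mul (h1.trans (mul_le_mul_of_nonneg_right hst hb0)) ?_ (Real.exp_pos _).le (by positivity)
    exact Real.exp_le_exp.2 (mul_le_mul_of_nonneg_left (by linarith) hl0)
  have hmv := (convex_Icc (0 : ℝ) t).norm_image_sub_le_of_norm_hasDerivWithin_le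
    (fun s _ => (hgd s).hasDerivWithinAt) hbound (Set.left_mem_Icc.2 ht0) (Set.right_mem_Icc.2 ht0)
  have hg0 : g 0 = 1 := by
    rw [hg]
    simp only
    unfold ff
    simp only [zero_mul, ee_zero]
    simp
  rw [hg0, sub_zero, Real.norm_eq_abs, abs_of_nonneg ht0] at hmv
  have hfac : ff μ S F t - po l t = (g t - 1) * po l t := by
    rw [hg]
    simp only
    unfold po
    have : Complex.exp (-(l * (ee t - 1))) * Complex.exp (l * (ee t - 1)) = 1 := by
      rw [← Complex.exp_add]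
      simp
    rw [sub_mul, mul_assoc, this, mul_one, one_mul]
  rw [hfac, norm_mul, po_norm]
  calc ‖g t - 1‖ * Real.exp (l * (Real.cos t - 1)) ≤
        (t * bb μ S F * Real.exp (l * (1 - Real.cos t)) * t) * Real.exp (l * (Real.cos t - 1)) :=
        mul_le_mul_of_nonneg_right hmv (Real.exp_pos _).le
    _ = t ^ 2 * bb μ S F * (Real.exp (l * (1 - Real.cos t)) * Real.exp (l * (Real.cos t - 1))) := by ring
    _ = t ^ 2 * bb μ S F := by
      rw [← Real.exp_add, show l * (1 - Real.cos t) + l * (Real.cos t - 1) = 0 by ring, Real.exp_zero, mul_one]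

end Pool.Agent.U949.CL
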