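import Mathlib
import Pool.Agent.U949.CL.CS2

/-! Central limit theorem for the number of chosen sets (helper949). -/

set_option autoImplicit false
set_option linter.unusedSectionVars false

namespace Pool.Agent.U949.CL

open MeasureTheory ProbabilityTheory Filter Topology Finset

variable {Ω : Type*} [MeasurableSpace Ω] {μ : Measure Ω} [IsProbabilityMeasure μ]

lemma ee_neg (x : ℝ) : ee (-x) = (starRingEnd ℂ) (ee x) := by
  unfold ee
  rw [← Complex.exp_conj]
  congr 1
  rw [map_mul, Complex.conj_I, Complex.conj_ofReal]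
  push_cast
  ring

theorem poisson_approx' {S : ℕ → Set Ω} (hS : ∀ m, MeasurableSet (S m)) (hind : iIndepSet S μ)
    (F : Finset (Finset ℕ)) (hF : ∀ A ∈ F, A.Nonempty) (t : ℝ) (htp : |t| ≤ Real.pi) :
    ‖ff μ S F t - po (LL μ S F) t‖ ≤ t ^ 2 * bb μ S F := by
  rcases le_total 0 t with h | h
  · rw [abs_of_nonneg h] at htp
    exact poisson_approx hS hind F hF t h htp
  · rw [abs_of_nonpos h] at htp
    have h1 := poisson_approx hS hind F hF (-t) (by linarith) htp
    have e1 : ff μ S F (-t) = (starRingEnd ℂ) (ff μ S F t) := by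
      unfold ff
      rw [← integral_conj]
      congr 1
      ext ω
      rw [neg_mul, ee_neg]
    have e2 : po (LL μ S F) (-t) = (starRingEnd ℂ) (po (LL μ S F) t) := by
      unfold po
      rw [← Complex.exp_conj, ee_neg]
      congr 1
      rw [map_mul, Complex.conj_ofReal, map_sub, map_one]
    rw [e1, e2, ← map_sub, RCLike.norm_conj, neg_sq] at h1
    exact h1

lemma card_ZZ (F : Finset (Finset ℕ)) (K k : ℕ) (hK : ∀ m, (F.filter (fun A => m ∈ A)).card ≤ K)
    (A : Finset ℕ) (hA : A.card = k) : (ZZ F A).card ≤ k * K := by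
  classical
  have hsub : ZZ F A ⊆ A.biUnion (fun m => F.filter (fun B => m ∈ B)) := by
    intro B hB
    unfold ZZ at hB
    obtain ⟨h1, h2, h3⟩ := mem_filter.1 hB
    obtain ⟨m, hm1, hm2⟩ := not_disjoint_iff.1 h3
    exact mem_biUnion.2 ⟨m, hm1, mem_filter.2 ⟨h1, hm2⟩⟩
  calc (ZZ F A).card ≤ _ := card_le_card hsub
    _ ≤ ∑ m ∈ A, (F.filter (fun B => m ∈ B)).card := card_biUnion_le
    _ ≤ ∑ _m ∈ A, K := sum_le_sum fun m _ => hK m
    _ = k * K := by rw [sum_const, hA, smul_eq_mul]

open Classical in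
/-- the sets with an element below `m0` -/
noncomputable def bad (F : Finset (Finset ℕ)) (m0 : ℕ) : Finset (Finset ℕ) := F.filter (fun B => ∃ m ∈ B, m < m0)

lemma card_bad (F : Finset (Finset ℕ)) (K m0 : ℕ) (hK : ∀ m, (F.filter (fun A => m ∈ A)).card ≤ K) :
    (bad F m0).card ≤ m0 * K := by
  classical
  have hsub : bad F m0 ⊆ (range m0).biUnion (fun m => F.filter (fun B => m ∈ B)) := by
    intro B hB
    unfold bad at hB
    obtain ⟨h1, m, hm, hm0⟩ := mem_filter.1 hB
    exact mem_biUnion.2 ⟨m, mem_range.2 hm0, mem_filter.2 ⟨h1, hm⟩⟩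
  calc (bad F m0).card ≤ _ := card_le_card hsub
    _ ≤ ∑ m ∈ range m0, (F.filter (fun B => m ∈ B)).card := card_biUnion_le
    _ ≤ ∑ _m ∈ range m0, K := sum_le_sum fun m _ => hK m
    _ = m0 * K := by rw [sum_const, card_range, smul_eq_mul]

lemma PP_le_elem (S : ℕ → Set Ω) (A : Finset ℕ) (m : ℕ) (hm : m ∈ A) : PP μ S A ≤ μ.real (S m) := by
  classical
  unfold PP
  rw [← mul_prod_erase A _ hm]
  calc μ.real (S m) * ∏ x ∈ A.erase m, μ.real (S x) ≤ μ.real (S m) * 1 :=
        mul_le_mul_of_nonneg_left (prod_le_one (fun _ _ => measureReal_nonneg) fun _ _ => measureReal_le_one)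
          measureReal_nonneg
    _ = _ := mul_one _

lemma PP_union (S : ℕ → Set Ω) (A B : Finset ℕ) : PP μ S (A ∪ B) = PP μ S A * PP μ S (B \ A) := by
  classical
  unfold PP
  rw [← union_sdiff_self_eq_union, prod_union disjoint_sdiff]

/-- the bound of the total error -/
lemma bb_le (S : ℕ → Set Ω) (F : Finset (Finset ℕ)) (K k m0 : ℕ) (hk : 1 ≤ k)
    (hF : ∀ A ∈ F, A.card = k) (hK : ∀ m, (F.filter (fun A => m ∈ A)).card ≤ K) (ε : ℝ) (hε : 0 ≤ ε)
    (hp : ∀ m, m0 ≤ m → μ.real (S m) ≤ ε) :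
    bb μ S F ≤ (m0 * K * (3 * k * K + 1) : ℕ) + ε * (1 + 2 * (k * K)) * LL μ S F := by
  classical
  have hbad : ∀ A ∈ F, A ∉ bad F m0 → ∀ m ∈ A, m0 ≤ m := by
    intro A hA h m hm
    by_contra hc
    exact h (by unfold bad; exact mem_filter.2 ⟨hA, m, hm, not_le.1 hc⟩)
  have hZc : ∀ A ∈ F, ((ZZ F A).card : ℝ) ≤ k * K := fun A hA => by
    exact_mod_cast card_ZZ F K k hK A (hF A hA)
  -- the individual bound
  have h1 : ∀ A ∈ F, bA μ S F A ≤ (if A ∈ bad F m0 then (2 * (k * K) + 1 : ℝ) else 0) +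
      (((ZZ F A).filter (fun B => B ∈ bad F m0)).card : ℝ) + ε * (1 + 2 * (k * K)) * PP μ S A := by
    intro A hA
    have hPA := PP_nonneg (μ := μ) S A
    have hPA1 := PP_le (μ := μ) S A
    have hz := hZc A hA
    have hz0 : (0 : ℝ) ≤ (((ZZ F A).filter (fun B => B ∈ bad F m0)).card : ℝ) := Nat.cast_nonneg _
    by_cases hb : A ∈ bad F m0
    · rw [if_pos hb]
      unfold bA
      have g1 : ∑ B ∈ ZZ F A, PP μ S (A ∪ B) ≤ k * K := by
        calc _ ≤ ∑ _B ∈ ZZ F A, (1 : ℝ) := sum_le_sum fun B _ => PP_le S _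
          _ = (ZZ F A).card := by simp
          _ ≤ _ := hz
      have g2 : ∑ B ∈ ZZ F A, PP μ S B ≤ k * K := by
        calc _ ≤ ∑ _B ∈ ZZ F A, (1 : ℝ) := sum_le_sum fun B _ => PP_le S _
          _ = (ZZ F A).card := by simp
          _ ≤ _ := hz
      have g3 : 0 ≤ ∑ B ∈ ZZ F A, PP μ S B := sum_nonneg fun B _ => PP_nonneg S B
      have g4 : PP μ S A * (PP μ S A + ∑ B ∈ ZZ F A, PP μ S B) ≤ 1 * (1 + k * K) :=
        mul_le_mul hPA1 (by linarith) (by linarith) (by norm_num)
      have g5 : 0 ≤ ε * (1 + 2 * (k * K)) * PP μ S A := by positivity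
      linarith
    · rw [if_neg hb, zero_add]
      have hge := hbad A hA hb
      obtain ⟨a, ha⟩ : A.Nonempty := by
        rw [← card_pos, hF A hA]
        omega
      have hPe : PP μ S A ≤ ε := (PP_le_elem S A a ha).trans (hp a (hge a ha))
      have g1 : ∀ B ∈ ZZ F A, PP μ S B ≤ ε := by
        intro B hB
        unfold ZZ at hB
        obtain ⟨k1, k2, k3⟩ := mem_filter.1 hB
        obtain ⟨m, hm1, hm2⟩ := not_disjoint_iff.1 k3
        exact (PP_le_elem S B m hm2).trans (hp m (hge m hm1))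
      have g2 : ∑ B ∈ ZZ F A, PP μ S B ≤ ε * (k * K) := by
        calc _ ≤ ∑ _B ∈ ZZ F A, ε := sum_le_sum g1
          _ = (ZZ F A).card * ε := by rw [sum_const, nsmul_eq_mul]
          _ ≤ (k * K) * ε := mul_le_mul_of_nonneg_right hz hε
          _ = _ := by ring
      have g3 : ∀ B ∈ ZZ F A, PP μ S (A ∪ B) ≤ (if B ∈ bad F m0 then (1 : ℝ) else 0) + ε * PP μ S A := by
        intro B hB
        by_cases hBb : B ∈ bad F m0
        · rw [if_pos hBb]
          have := PP_le (μ := μ) S (A ∪ B)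
          have : 0 ≤ ε * PP μ S A := by positivity
          linarith
        · rw [if_neg hBb, zero_add, PP_union]
          unfold ZZ at hB
          obtain ⟨k1, k2, k3⟩ := mem_filter.1 hB
          have hne : (B \ A).Nonempty := by
            rw [sdiff_nonempty]
            intro hsub
            exact k2 (eq_of_subset_of_card_le hsub (by rw [hF A hA, hF B k1]))
          obtain ⟨m, hm⟩ := hne
          have hm1 := (mem_sdiff.1 hm).1
          have k4 : PP μ S (B \ A) ≤ ε := (PP_le_elem S (B \ A) m hm).trans (hp m (hbad B k1 hBb m hm1))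
          rw [mul_comm]
          exact mul_le_mul_of_nonneg_right k4 hPA
      have g4 : ∑ B ∈ ZZ F A, PP μ S (A ∪ B) ≤ (((ZZ F A).filter (fun B => B ∈ bad F m0)).card : ℝ) +
          (k * K) * (ε * PP μ S A) := by
        calc _ ≤ ∑ B ∈ ZZ F A, ((if B ∈ bad F m0 then (1 : ℝ) else 0) + ε * PP μ S A) := sum_le_sum g3
          _ = (((ZZ F A).filter (fun B => B ∈ bad F m0)).card : ℝ) + (ZZ F A).card * (ε * PP μ S A) := by
            rw [sum_add_distrib, sum_const, nsmul_eq_mul, sum_boole]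
          _ ≤ _ := by
            have := mul_le_mul_of_nonneg_right hz (show 0 ≤ ε * PP μ S A by positivity)
            linarith
      unfold bA
      have g5 : PP μ S A * (PP μ S A + ∑ B ∈ ZZ F A, PP μ S B) ≤ PP μ S A * (ε + ε * (k * K)) :=
        mul_le_mul_of_nonneg_left (by linarith) hPA
      calc ∑ B ∈ ZZ F A, PP μ S (A ∪ B) + PP μ S A * (PP μ S A + ∑ B ∈ ZZ F A, PP μ S B) ≤
            ((((ZZ F A).filter (fun B => B ∈ bad F m0)).card : ℝ) + (k * K) * (ε * PP μ S A)) +
            PP μ S A * (ε + ε * (k * K)) := add_le_add g4 g5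
        _ = _ := by ring
  -- the sum
  have h2 : ∑ A ∈ F, (if A ∈ bad F m0 then (2 * (k * K) + 1 : ℝ) else 0) ≤ m0 * K * (2 * (k * K) + 1) := by
    rw [← sum_filter, sum_const, nsmul_eq_mul]
    have h3 : F.filter (fun A => A ∈ bad F m0) ⊆ bad F m0 := fun A hA => (mem_filter.1 hA).2
    have h4 : ((F.filter (fun A => A ∈ bad F m0)).card : ℝ) ≤ m0 * K := by
      exact_mod_cast (card_le_card h3).trans (card_bad F K m0 hK)
    exact mul_le_mul_of_nonneg_right h4 (by positivity)
  have h3 : ∑ A ∈ F, (((ZZ F A).filter (fun B => B ∈ bad F m0)).card : ℝ) ≤ m0 * K * (k * K) := by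
    have e1 : ∑ A ∈ F, ((ZZ F A).filter (fun B => B ∈ bad F m0)).card =
        ∑ B ∈ bad F m0, (F.filter (fun A => B ∈ ZZ F A)).card := by
      simp_rw [card_eq_sum_ones]
      refine sum_comm' fun A B => ?_
      rw [mem_filter, mem_filter]
      tauto
    have e2 : ∑ B ∈ bad F m0, (F.filter (fun A => B ∈ ZZ F A)).card ≤ m0 * K * (k * K) := by
      calc _ ≤ ∑ _B ∈ bad F m0, k * K := by
            refine sum_le_sum fun B hB => ?_
            have hBF : B ∈ F := by
              unfold bad at hB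
              exact (mem_filter.1 hB).1
            refine (card_le_card ?_).trans (card_ZZ F K k hK B (hF B hBF))
            intro A hA
            obtain ⟨g1, g2⟩ := mem_filter.1 hA
            unfold ZZ at g2 ⊢
            obtain ⟨g3, g4, g5⟩ := mem_filter.1 g2
            exact mem_filter.2 ⟨g1, fun h => g4 h.symm, fun h => g5 h.symm⟩
        _ = (bad F m0).card * (k * K) := by rw [sum_const, smul_eq_mul]
        _ ≤ m0 * K * (k * K) := Nat.mul_le_mul_right _ (card_bad F K m0 hK)
    have e3 : ∑ A ∈ F, (((ZZ F A).filter (fun B => B ∈ bad F m0)).card : ℝ) =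
        ((∑ B ∈ bad F m0, (F.filter (fun A => B ∈ ZZ F A)).card : ℕ) : ℝ) := by
      rw [← e1]
      push_cast
      rfl
    rw [e3]
    exact_mod_cast e2
  unfold bb
  refine (sum_le_sum h1).trans ?_
  rw [sum_add_distrib, sum_add_distrib, ← mul_sum]
  unfold LL
  push_cast
  have : (m0 : ℝ) * K * (2 * (k * K) + 1) + m0 * K * (k * K) = m0 * K * (3 * k * K + 1) := by ring
  linarith

lemma bb_nonneg (S : ℕ → Set Ω) (F : Finset (Finset ℕ)) : 0 ≤ bb μ S F := by
  refine sum_nonneg fun A _ => ?_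
  unfold bA
  have h1 := PP_nonneg (μ := μ) S A
  have h2 : 0 ≤ ∑ B ∈ ZZ F A, PP μ S B := sum_nonneg fun B _ => PP_nonneg S B
  have h3 : 0 ≤ ∑ B ∈ ZZ F A, PP μ S (A ∪ B) := sum_nonneg fun B _ => PP_nonneg S _
  positivity

/-- the error is small compared with the mean -/
lemma bb_small (S : ℕ → Set Ω) (hp : Tendsto (fun m => μ.real (S m)) atTop (𝓝 0)) (K k : ℕ) (hk : 1 ≤ k)
    (F : ℕ → Finset (Finset ℕ)) (hF : ∀ n, ∀ A ∈ F n, A.card = k)
    (hK : ∀ n m, ((F n).filter (fun A => m ∈ A)).card ≤ K) (l : Filter ℕ)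
    (hL : Tendsto (fun n => LL μ S (F n)) l atTop) :
    Tendsto (fun n => bb μ S (F n) / LL μ S (F n)) l (𝓝 0) := by
  rw [Metric.tendsto_nhds]
  intro η hη
  set ε : ℝ := η / (2 * (1 + 2 * (k * K))) with hε
  have hε0 : 0 < ε := by positivity
  obtain ⟨m0, hm0⟩ := eventually_atTop.1 (hp.eventually (gt_mem_nhds hε0))
  filter_upwards [hL.eventually_gt_atTop 0,
    hL.eventually_gt_atTop (2 * (m0 * K * (3 * k * K + 1) : ℕ) / η)] with n h1 h2
  have h3 := bb_le (μ := μ) S (F n) K k m0 hk (hF n) (hK n) ε hε0.le (fun m hm => (hm0 m hm).le)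
  rw [Real.dist_eq, sub_zero, abs_of_nonneg (div_nonneg (bb_nonneg S _) h1.le), div_lt_iff₀ h1]
  rw [div_lt_iff₀ hη] at h2
  have h4 : ε * (1 + 2 * (k * K)) = η / 2 := by
    rw [hε]
    have : (0 : ℝ) < 1 + 2 * (k * K) := by positivity
    field_simp
  rw [h4] at h3
  linarith

theorem tuple_clt_seq {S : ℕ → Set Ω} (hS : ∀ m, MeasurableSet (S m)) (hind : iIndepSet S μ)
    (F : ℕ → Finset (Finset ℕ)) (hF : ∀ n, ∀ A ∈ F n, A.Nonempty)
    (hL : Tendsto (fun n => LL μ S (F n)) atTop atTop)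
    (hb : Tendsto (fun n => bb μ S (F n) / LL μ S (F n)) atTop (𝓝 0)) (x : ℝ) :
    Tendsto (fun n => μ.real {ω | WW S (F n) ω - LL μ S (F n) ≤ x * √(LL μ S (F n))}) atTop
      (𝓝 ((gaussianReal 0 1).real (Set.Iic x))) := by
  set X : ℕ → Ω → ℝ := fun n ω => (WW S (F n) ω - LL μ S (F n)) / √(LL μ S (F n)) with hX
  have hXm : ∀ n, Measurable (X n) := by
    intro n
    have := WW_meas hS (F n)
    fun_prop
  have hlaw : ∀ n, IsProbabilityMeasure (μ.map (X n)) := fun n =>
    Measure.isProbabilityMeasure_map (hXm n).aemeasurable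
  have hmain := cdf_tendsto (fun n => μ.map (X n)) (fun θ => ?_) x
  · refine hmain.congr' ?_
    filter_upwards [hL.eventually_gt_atTop 0] with n hn
    rw [map_measureReal_apply (hXm n) measurableSet_Iic]
    congr 1
    ext ω
    have hs : 0 < √(LL μ S (F n)) := Real.sqrt_pos.2 hn
    rw [Set.mem_preimage, Set.mem_Iic, hX]
    simp only
    rw [div_le_iff₀ hs]
    rfl
  · -- the characteristic functions
    have hsq : Tendsto (fun n => √(LL μ S (F n))) atTop atTop := Real.tendsto_sqrt_atTop.comp hL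
    have hinv : Tendsto (fun n => θ / √(LL μ S (F n))) atTop (𝓝 0) := hsq.const_div_atTop θ
    have habs : Tendsto (fun n => |θ / √(LL μ S (F n))|) atTop (𝓝 0) := by
      simpa using hinv.abs
    -- the two pieces
    have hchar : ∀ᶠ n in atTop, charFun (μ.map (X n)) θ =
        ee (-(θ * √(LL μ S (F n)))) * ff μ S (F n) (θ / √(LL μ S (F n))) := by
      filter_upwards [hL.eventually_gt_atTop 0] with n hn
      have hs : 0 < √(LL μ S (F n)) := Real.sqrt_pos.2 hn
      rw [charFun_apply_real, integral_map (hXm n).aemeasurable (by fun_prop)]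
      unfold ff
      rw [← integral_const_mul]
      congr 1
      ext ω
      rw [← ee_add]
      unfold ee
      congr 1
      have e1 : θ * X n ω = -(θ * √(LL μ S (F n))) + θ / √(LL μ S (F n)) * WW S (F n) ω := by
        rw [hX]
        simp only
        have e2 : LL μ S (F n) = √(LL μ S (F n)) * √(LL μ S (F n)) := (Real.mul_self_sqrt hn.le).symm
        rw [mul_div_assoc', mul_sub, sub_div]
        have e3 : θ * LL μ S (F n) / √(LL μ S (F n)) = θ * √(LL μ S (F n)) := by
          rw [div_eq_iff hs.ne']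
          nth_rewrite 1 [e2]
          ring
        rw [e3]
        ring
      rw [← Complex.ofReal_mul, e1]
      ring
    have hpo : Tendsto (fun n => ee (-(θ * √(LL μ S (F n)))) * po (LL μ S (F n)) (θ / √(LL μ S (F n)))) atTop
        (𝓝 (Complex.exp (-(θ ^ 2 / 2 : ℝ)))) := by
      have hexp : Tendsto (fun n => Complex.I * ((-(θ * √(LL μ S (F n))) : ℝ) : ℂ) +
          (LL μ S (F n) : ℂ) * (ee (θ / √(LL μ S (F n))) - 1)) atTop (𝓝 (-(θ ^ 2 / 2 : ℝ))) := by
        rw [tendsto_iff_norm_sub_tendsto_zero]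
        have hlim : Tendsto (fun n => |θ| ^ 3 / √(LL μ S (F n))) atTop (𝓝 0) := hsq.const_div_atTop _
        refine squeeze_zero' (Eventually.of_forall fun n => norm_nonneg _) ?_ hlim
        filter_upwards [hL.eventually_gt_atTop 0, habs.eventually (ge_mem_nhds (show (0:ℝ) < 1 by norm_num))]
          with n hn ht
        have hs : 0 < √(LL μ S (F n)) := Real.sqrt_pos.2 hn
        set s := √(LL μ S (F n)) with hsdef
        have e2 : LL μ S (F n) = s * s := (Real.mul_self_sqrt hn.le).symm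
        set t := θ / s with ht'
        have hts : t * s = θ := by rw [ht']; field_simp
        have htay := taylor (z := Complex.I * (t : ℝ)) (by
          rw [norm_mul, Complex.norm_I, one_mul, Complex.norm_real, Real.norm_eq_abs]
          exact ht)
        rw [norm_mul, Complex.norm_I, one_mul, Complex.norm_real, Real.norm_eq_abs] at htay
        have e4 : Complex.I * ((-(θ * s) : ℝ) : ℂ) + (LL μ S (F n) : ℂ) * (ee t - 1) - (-(θ ^ 2 / 2 : ℝ)) =
            (LL μ S (F n) : ℂ) * (Complex.exp (Complex.I * (t : ℝ)) -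
              (1 + Complex.I * (t : ℝ) + (Complex.I * (t : ℝ)) ^ 2 / 2)) := by
          unfold ee
          have hI : (Complex.I * ((t : ℝ) : ℂ)) ^ 2 = -((t : ℝ) : ℂ) ^ 2 := by
            rw [mul_pow, Complex.I_sq]
            ring
          rw [hI, e2, ← hts]
          push_cast
          ring
        rw [e4, norm_mul, Complex.norm_real, Real.norm_eq_abs, abs_of_pos hn]
        calc LL μ S (F n) * _ ≤ LL μ S (F n) * |t| ^ 3 := mul_le_mul_of_nonneg_left htay hn.le
          _ = |θ| ^ 3 / s := by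
            rw [ht', abs_div, abs_of_pos hs, e2]
            field_simp
      have := (Complex.continuous_exp.tendsto _).comp hexp
      refine this.congr fun n => ?_
      unfold po
      simp only [Function.comp_apply]
      rw [Complex.exp_add]
      rfl
    have hdiff : Tendsto (fun n => ee (-(θ * √(LL μ S (F n)))) * ff μ S (F n) (θ / √(LL μ S (F n))) -
        ee (-(θ * √(LL μ S (F n)))) * po (LL μ S (F n)) (θ / √(LL μ S (F n)))) atTop (𝓝 0) := by
      rw [tendsto_zero_iff_norm_tendsto_zero]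
      have hlim : Tendsto (fun n => θ ^ 2 * (bb μ S (F n) / LL μ S (F n))) atTop (𝓝 0) := by
        simpa using hb.const_mul (θ ^ 2)
      refine squeeze_zero' (Eventually.of_forall fun n => norm_nonneg _) ?_ hlim
      filter_upwards [hL.eventually_gt_atTop 0, habs.eventually (ge_mem_nhds Real.pi_pos)] with n hn ht
      rw [← mul_sub, norm_mul, ee_norm, one_mul]
      refine (poisson_approx' hS hind (F n) (hF n) _ ht).trans (le_of_eq ?_)
      rw [div_pow, Real.sq_sqrt hn.le]
      ring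
    have hsum := hdiff.add hpo
    rw [zero_add] at hsum
    refine hsum.congr' ?_
    filter_upwards [hchar] with n hn
    rw [hn]
    ring

/-- **Central limit theorem for the number of chosen sets** -/
theorem tuple_clt {S : ℕ → Set Ω} (hS : ∀ m, MeasurableSet (S m)) (hind : iIndepSet S μ)
    (hp : Tendsto (fun m => μ.real (S m)) atTop (𝓝 0)) (K k : ℕ) (hk : 1 ≤ k)
    (F : ℕ → Finset (Finset ℕ)) (hF : ∀ n, ∀ A ∈ F n, A.card = k)
    (hK : ∀ n m, ((F n).filter (fun A => m ∈ A)).card ≤ K) (l : Filter ℕ) [l.IsCountablyGenerated]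
    (hL : Tendsto (fun n => LL μ S (F n)) l atTop) (x : ℝ) :
    Tendsto (fun n => μ.real {ω | WW S (F n) ω - LL μ S (F n) ≤ x * √(LL μ S (F n))}) l
      (𝓝 ((gaussianReal 0 1).real (Set.Iic x))) := by
  have hb := bb_small S hp K k hk F hF hK l hL
  refine tendsto_of_seq_tendsto fun u hu => ?_
  exact tuple_clt_seq hS hind (fun n => F (u n)) (fun n A hA => by
    rw [← card_pos, hF (u n) A hA]
    omega) (hL.comp hu) (hb.comp hu) x

end Pool.Agent.U949.CL
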