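import Mathlib
import Pool.Agent.U949.CL.CS3
import Pool.Agent.U949.CL.Rho

/-! Linear forms with chosen values in windows (helper949). -/

set_option autoImplicit false
set_option linter.unusedSectionVars false

namespace Pool.Agent.U949.CL

open MeasureTheory ProbabilityTheory Filter Topology Finset
open Pool.Agent.N233.GM

/-- the densities tend to zero -/
lemma rho1_zero (z : ℕ → ℕ) (h : ∀ δ : ℝ, 0 < δ → ∀ᶠ n : ℕ in atTop, (z n : ℝ) ≤ (n : ℝ) ^ δ) :
    Tendsto (rho1 z) atTop (𝓝 0) := by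
  obtain ⟨C₁, C₂, hC₁, hC₂, hW⟩ := W_bound
  rw [Metric.tendsto_nhds]
  intro ε hε
  filter_upwards [h (ε / (4 * C₂)) (by positivity), logN.eventually_gt_atTop (4 * C₁ / ε), eventually_gt_atTop 1]
    with n h1 h2 h3
  have hn : (1 : ℝ) < n := by exact_mod_cast h3
  have hL : 0 < Real.log n := Real.log_pos hn
  have h4 : Real.log (z n) ≤ ε / (4 * C₂) * Real.log n := by
    rcases Nat.eq_zero_or_pos (z n) with h5 | h5
    · rw [h5, Nat.cast_zero, Real.log_zero]
      positivity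
    · have h6 : (0 : ℝ) < z n := by exact_mod_cast h5
      have h7 := Real.log_le_log h6 h1
      rwa [Real.log_rpow (by linarith)] at h7
  have h5 := hW (z n)
  have h6 : C₂ * Real.log (z n) ≤ ε / 4 * Real.log n := by
    calc C₂ * Real.log (z n) ≤ C₂ * (ε / (4 * C₂) * Real.log n) := by gcongr
      _ = ε / 4 * Real.log n := by field_simp
  have h7 : 4 * C₁ < ε * Real.log n := by
    rw [div_lt_iff₀ hε] at h2
    linarith
  have h8 : W (z n) / Real.log n < ε := by
    rw [div_lt_iff₀ hL]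
    nlinarith
  rw [Real.dist_eq, sub_zero, abs_of_nonneg (rho1_bounds z n).1]
  unfold rho1
  split_ifs
  · exact (min_le_right _ _).trans_lt h8
  · exact hε

section forms

variable {Ω : Type*} [MeasurableSpace Ω] {μ : Measure Ω} [IsProbabilityMeasure μ]

/-- **Central limit theorem for forms** -/
theorem form_clt {S : ℕ → Set Ω} (hS : ∀ m, MeasurableSet (S m)) (hind : iIndepSet S μ) (p : ℕ → ℝ)
    (hpm : ∀ m, μ.real (S m) = p m) (hp : Tendsto p atTop (𝓝 0)) {k : ℕ} (hk : 1 ≤ k)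
    (f : Fin k → ℕ → ℕ) (G : ℕ → Finset ℕ) (hinj : ∀ i n, Set.InjOn (f i) (G n))
    (hlt : ∀ n, ∀ y ∈ G n, ∀ i, i ≠ ⟨0, hk⟩ → f ⟨0, hk⟩ y < f i y)
    (hdist : ∀ n, ∀ y ∈ G n, Function.Injective (fun i => f i y)) (l : Filter ℕ) [l.IsCountablyGenerated]
    (hL : Tendsto (fun n => ∑ y ∈ G n, ∏ i, p (f i y)) l atTop) (x : ℝ) :
    Tendsto (fun n => μ.real {ω | ∑ y ∈ G n, ∏ i, I1 (S (f i y)) ω - ∑ y ∈ G n, ∏ i, p (f i y) ≤
      x * √(∑ y ∈ G n, ∏ i, p (f i y))}) l (𝓝 ((gaussianReal 0 1).real (Set.Iic x))) := by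
  classical
  set A : ℕ → Finset ℕ := fun y => univ.image (fun i => f i y) with hA
  have hAinj : ∀ n, Set.InjOn A (G n) := by
    intro n y hy y' hy' h
    have h0 : ∀ u ∈ G n, ∀ v ∈ G n, A u = A v → f ⟨0, hk⟩ v ≤ f ⟨0, hk⟩ u := by
      intro u hu v hv huv
      have h1 : f ⟨0, hk⟩ u ∈ A v := by
        rw [← huv]
        exact mem_image_of_mem _ (mem_univ _)
      obtain ⟨i, -, hi⟩ := mem_image.1 h1
      by_cases h2 : i = ⟨0, hk⟩
      · rw [h2] at hi
        exact hi.le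
      · have := hlt n v hv i h2
        omega
    have h1 : f ⟨0, hk⟩ y = f ⟨0, hk⟩ y' := le_antisymm (h0 y' hy' y hy h.symm) (h0 y hy y' hy' h)
    exact hinj _ n hy hy' h1
  have hprod : ∀ n, ∀ y ∈ G n, ∀ g : ℕ → ℝ, ∏ m ∈ A y, g m = ∏ i, g (f i y) := by
    intro n y hy g
    exact prod_image fun i _ j _ h => hdist n y hy h
  have hcard : ∀ n, ∀ y ∈ G n, (A y).card = k := by
    intro n y hy
    rw [hA]
    simp only
    rw [card_image_of_injective _ (hdist n y hy), card_univ, Fintype.card_fin]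
  set F : ℕ → Finset (Finset ℕ) := fun n => (G n).image A with hF
  have hLL : ∀ n, LL μ S (F n) = ∑ y ∈ G n, ∏ i, p (f i y) := by
    intro n
    unfold LL PP
    rw [hF]
    simp only
    rw [sum_image (hAinj n)]
    refine sum_congr rfl fun y hy => ?_
    rw [hprod n y hy]
    exact prod_congr rfl fun i _ => hpm _
  have hWW : ∀ n ω, WW S (F n) ω = ∑ y ∈ G n, ∏ i, I1 (S (f i y)) ω := by
    intro n ω
    unfold WW XX
    rw [hF]
    simp only
    rw [sum_image (hAinj n)]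
    refine sum_congr rfl fun y hy => ?_
    rw [hprod n y hy (fun m => I1 (S m) ω)]
  have hKm : ∀ n m, ((F n).filter (fun B => m ∈ B)).card ≤ k := by
    intro n m
    have hsub : (F n).filter (fun B => m ∈ B) ⊆
        (univ : Finset (Fin k)).biUnion (fun i => ((G n).filter (fun y => f i y = m)).image A) := by
      intro B hB
      obtain ⟨h1, h2⟩ := mem_filter.1 hB
      obtain ⟨y, hy, rfl⟩ := mem_image.1 h1
      obtain ⟨i, -, hi⟩ := mem_image.1 h2
      exact mem_biUnion.2 ⟨i, mem_univ _, mem_image.2 ⟨y, mem_filter.2 ⟨hy, hi⟩, rfl⟩⟩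
    calc _ ≤ _ := card_le_card hsub
      _ ≤ ∑ i : Fin k, (((G n).filter (fun y => f i y = m)).image A).card := card_biUnion_le
      _ ≤ ∑ _i : Fin k, 1 := sum_le_sum fun i _ => by
          refine card_image_le.trans ?_
          rw [card_le_one]
          intro u hu v hv
          obtain ⟨u1, u2⟩ := mem_filter.1 hu
          obtain ⟨v1, v2⟩ := mem_filter.1 hv
          exact hinj i n u1 v1 (u2.trans v2.symm)
      _ = k := by simp
  have h := tuple_clt (μ := μ) hS hind (by simpa only [hpm] using hp) k k hk F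
    (fun n B hB => by
      obtain ⟨y, hy, rfl⟩ := mem_image.1 hB
      exact hcard n y hy) hKm l (by simpa only [hLL] using hL) x
  simpa only [hLL, hWW] using h

end forms

/-- the product of the primes up to `Z` is at most `4 ^ Z`, and there is an admissible residue class -/
lemma crt {k : ℕ} (c d : Fin k → ℕ) (hadm : ∀ q : ℕ, q.Prime → ∃ y, ∀ i, ¬ q ∣ c i * y + d i) (Z : ℕ) :
    ∃ P r : ℕ, 0 < P ∧ (P : ℝ) ≤ 4 ^ Z ∧ ∀ y, y ≡ r [MOD P] → ∀ q : ℕ, q.Prime → q ≤ Z → ∀ i, ¬ q ∣ c i * y + d i := by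
  classical
  choose! g hg using hadm
  set t : Finset ℕ := (range (Z + 1)).filter Nat.Prime with ht
  have hpp : Set.Pairwise (t : Set ℕ) (Function.onFun Nat.Coprime id) := by
    intro a ha b hb hab
    have h1 := (mem_filter.1 (mem_coe.1 ha)).2
    have h2 := (mem_filter.1 (mem_coe.1 hb)).2
    exact (Nat.coprime_primes h1 h2).2 hab
  obtain ⟨r, hr⟩ := Nat.chineseRemainderOfFinset g id t (fun i hi => (mem_filter.1 hi).2.ne_zero) hpp
  refine ⟨primorial Z, r, primorial_pos Z, by exact_mod_cast primorial_le_four_pow Z, ?_⟩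
  intro y hy q hq hqZ i hdvd
  have hqt : q ∈ t := mem_filter.2 ⟨mem_range.2 (by omega), hq⟩
  have h1 : r ≡ g q [MOD q] := hr q hqt
  have h2 : q ∣ primorial Z := by
    unfold primorial
    exact dvd_prod_of_mem _ hqt
  have h3 : y ≡ g q [MOD q] := (hy.of_dvd h2).trans h1
  have h4 : c i * y + d i ≡ c i * g q + d i [MOD q] := (h3.mul_left _).add_right _
  exact hg q hq i ((h4.dvd_iff dvd_rfl).1 hdvd)

/-- many members of a residue class in an interval -/
lemma count_class (P r u N : ℕ) (hP : 0 < P) : N / P ≤ ((Ioc u (u + N)).filter (fun y => y ≡ r [MOD P])).card := by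
  classical
  obtain ⟨s, hs, hmod⟩ : ∃ s, s < P ∧ u + 1 + s ≡ r [MOD P] := by
    refine ⟨(r + (P - 1) * (u + 1)) % P, Nat.mod_lt _ hP, ?_⟩
    have h1 : (r + (P - 1) * (u + 1)) % P ≡ r + (P - 1) * (u + 1) [MOD P] := Nat.mod_modEq _ _
    have h2 : u + 1 + (r + (P - 1) * (u + 1)) % P ≡ u + 1 + (r + (P - 1) * (u + 1)) [MOD P] := h1.add_left _
    refine h2.trans ?_
    have h3 : u + 1 + (r + (P - 1) * (u + 1)) = r + P * (u + 1) := by
      obtain ⟨P', rfl⟩ : ∃ P', P = P' + 1 := ⟨P - 1, by omega⟩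
      simp only [Nat.add_sub_cancel]
      ring
    rw [h3]
    exact (Nat.modEq_iff_dvd' (by omega)).2 ⟨u + 1, by omega⟩ |>.symm
  calc N / P = ((range (N / P)).image (fun t => u + 1 + s + P * t)).card := by
        rw [card_image_of_injective _ (fun a b h => by
          have : P * a = P * b := by simpa using h
          exact Nat.eq_of_mul_eq_mul_left hP this), card_range]
    _ ≤ _ := by
      refine card_le_card fun y hy => ?_
      obtain ⟨t, ht, rfl⟩ := mem_image.1 hy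
      rw [mem_range] at ht
      have h1 : P * (t + 1) ≤ P * (N / P) := Nat.mul_le_mul_left _ ht
      have h2 : P * (N / P) ≤ N := Nat.mul_div_le N P
      have h3 : P * (t + 1) = P * t + P := by ring
      refine mem_filter.2 ⟨mem_Ioc.2 ⟨by omega, by omega⟩, ?_⟩
      have h4 : u + 1 + s + P * t ≡ u + 1 + s [MOD P] := by
        have : P * t ≡ 0 [MOD P] := (Nat.modEq_zero_iff_dvd.2 (dvd_mul_right P t))
        simpa using this.add_left (u + 1 + s)
      exact h4.trans hmod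

/-- the mean is large in long windows -/
lemma mean_low {k : ℕ} (hk : 1 ≤ k) (c d : Fin k → ℕ) (hc : ∀ i, 1 ≤ c i)
    (hadm : ∀ q : ℕ, q.Prime → ∃ y, ∀ i, ¬ q ∣ c i * y + d i) (z : ℕ → ℕ)
    (hz : ∀ᶠ m : ℕ in atTop, (z m : ℝ) ≤ Real.log m / 64) (a b : ℕ → ℕ) (ha : Tendsto a atTop atTop)
    (hab : ∀ᶠ n in atTop, a n ≤ b n)
    (hb : ∀ᶠ n in atTop, b n ≤ (b n - a n) ^ 4) (hN : Tendsto (fun n => b n - a n) atTop atTop)
    (G : ℕ → Finset ℕ) (hG : ∀ n, Ioc (a n) (b n) ⊆ G n) :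
    ∀ᶠ n in atTop, ((b n - a n : ℕ) : ℝ) ^ (4 / 5 : ℝ) ≤ ∑ y ∈ G n, ∏ i, rho1 z (c i * y + d i) := by
  classical
  obtain ⟨m1, hm1⟩ := eventually_atTop.1 hz
  set C : ℕ := ∑ i, (c i + d i) + 1 with hC
  have hCi : ∀ i, c i + d i ≤ C := by
    intro i
    have := Finset.single_le_sum (f := fun i => c i + d i) (fun _ _ => Nat.zero_le _) (mem_univ i)
    omega
  have hC1 : (1 : ℝ) ≤ C := by
    have : 1 ≤ C := by omega
    exact_mod_cast this
  set c0 : ℝ := ((2 * C : ℝ) ^ (1 / 40 : ℝ))⁻¹ with hc0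
  have h2C : (0 : ℝ) < 2 * C := by linarith
  have hc0p : 0 < c0 := by positivity
  have hk0 : (0 : ℝ) < k := by exact_mod_cast hk
  have hNr : Tendsto (fun n => ((b n - a n : ℕ) : ℝ)) atTop atTop := tendsto_natCast_atTop_atTop.comp hN
  have hlog := (isLittleO_log_rpow_atTop (show (0 : ℝ) < 1 / (20 * k) by positivity)).bound
    (show (0 : ℝ) < 1 / 5 by norm_num)
  have hpow : Tendsto (fun x : ℝ => x ^ (1 / 20 : ℝ)) atTop atTop := tendsto_rpow_atTop (by norm_num)
  filter_upwards [hb, hab, ha.eventually_ge_atTop (m1 + 3), hNr.eventually hlog,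
    hNr.eventually_ge_atTop (2 * C), (hpow.comp hNr).eventually_ge_atTop (2 / c0), hNr.eventually_ge_atTop 3]
    with n h1 hab' h2 h3 h4 h5 h6
  simp only [Function.comp_apply] at h5
  set N : ℕ := b n - a n with hNdef
  set M : ℕ := C * (b n + 1) with hM
  have hN1 : 1 ≤ N := by
    have : (1 : ℝ) ≤ N := by linarith
    exact_mod_cast this
  have hNpos : (0 : ℝ) < N := by linarith
  have hMle : M ≤ 2 * C * N ^ 4 := by
    have : b n + 1 ≤ 2 * N ^ 4 := by
      have : 1 ≤ N ^ 4 := Nat.one_le_pow _ _ hN1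
      omega
    calc M ≤ C * (2 * N ^ 4) := Nat.mul_le_mul_left _ this
      _ = _ := by ring
  have hMr : (M : ℝ) ≤ 2 * C * (N : ℝ) ^ 4 := by exact_mod_cast hMle
  have hbge : a n ≤ b n := hab'
  have hM3 : (3 : ℝ) ≤ M := by
    have h7 : 3 ≤ b n + 1 := by omega
    have : 3 ≤ M := by
      have := Nat.mul_le_mul (show 1 ≤ C by omega) h7
      omega
    exact_mod_cast this
  have hM0 : (0 : ℝ) < M := by linarith
  have hlogM1 : 1 ≤ Real.log M := by
    rw [Real.le_log_iff_exp_le hM0]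
    have := Real.exp_one_lt_d9
    linarith
  -- `log M ≤ N ^ (1 / (20 k))`
  have hlogN : 0 ≤ Real.log (N : ℝ) := Real.log_nonneg (by linarith)
  have hlogM : Real.log M ≤ (N : ℝ) ^ (1 / (20 * k) : ℝ) := by
    have g1 : Real.log M ≤ 5 * Real.log N := by
      calc Real.log M ≤ Real.log (2 * C * (N : ℝ) ^ 4) := Real.log_le_log hM0 hMr
        _ = Real.log (2 * C) + 4 * Real.log N := by
          rw [Real.log_mul h2C.ne' (by positivity), Real.log_pow]
          norm_num
        _ ≤ Real.log N + 4 * Real.log N := by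
          have := Real.log_le_log h2C h4
          linarith
        _ = 5 * Real.log N := by ring
    rw [Real.norm_eq_abs, Real.norm_eq_abs, abs_of_nonneg hlogN, abs_of_nonneg (Real.rpow_nonneg hNpos.le _)] at h3
    linarith
  have hlogMk : Real.log M ^ k ≤ (N : ℝ) ^ (1 / 20 : ℝ) := by
    calc Real.log M ^ k ≤ ((N : ℝ) ^ (1 / (20 * k) : ℝ)) ^ k := pow_le_pow_left₀ (by linarith) hlogM k
      _ = (N : ℝ) ^ (1 / 20 : ℝ) := by
        rw [← Real.rpow_natCast, ← Real.rpow_mul hNpos.le]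
        congr 1
        field_simp
  -- the sieve
  set Z : ℕ := ⌊Real.log M / 64⌋₊ with hZ
  obtain ⟨P, r, hP0, hP4, hPr⟩ := crt c d hadm Z
  have hPr0 : (0 : ℝ) < P := by exact_mod_cast hP0
  have hPle : (P : ℝ) ≤ (M : ℝ) ^ (1 / 40 : ℝ) := by
    have g1 : (Z : ℝ) ≤ Real.log M / 64 := Nat.floor_le (by positivity)
    have g2 : Real.log 4 ≤ 1.4 := by
      have := Real.log_two_lt_d9
      rw [show (4 : ℝ) = 2 ^ 2 by norm_num, Real.log_pow]
      push_cast
      linarith
    calc (P : ℝ) ≤ 4 ^ Z := hP4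
      _ = Real.exp (Real.log 4 * Z) := by
        rw [← Real.rpow_natCast, Real.rpow_def_of_pos (by norm_num)]
      _ ≤ Real.exp (Real.log M * (1 / 40)) := by
        apply Real.exp_le_exp.2
        have g3 : 0 ≤ Real.log 4 := Real.log_nonneg (by norm_num)
        calc Real.log 4 * Z ≤ 1.4 * (Real.log M / 64) := mul_le_mul g2 g1 (Nat.cast_nonneg _) (by norm_num)
          _ ≤ Real.log M * (1 / 40) := by linarith
      _ = (M : ℝ) ^ (1 / 40 : ℝ) := by rw [Real.rpow_def_of_pos hM0]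
  have hPN : (P : ℝ) ≤ c0⁻¹ * (N : ℝ) ^ (1 / 10 : ℝ) := by
    refine hPle.trans ((Real.rpow_le_rpow hM0.le hMr (by norm_num)).trans (le_of_eq ?_))
    rw [Real.mul_rpow h2C.le (by positivity), ← Real.rpow_natCast, ← Real.rpow_mul hNpos.le, hc0, inv_inv]
    norm_num
  -- the good points
  set Gd := (Ioc (a n) (a n + N)).filter (fun y => y ≡ r [MOD P]) with hGd
  have hcnt : N / P ≤ Gd.card := count_class P r (a n) N hP0
  have hsubG : Gd ⊆ G n := by
    intro y hy
    have h7 := mem_Ioc.1 (mem_filter.1 hy).1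
    exact hG n (mem_Ioc.2 ⟨h7.1, by omega⟩)
  have hterm : ∀ y ∈ Gd, (1 / Real.log M) ^ k ≤ ∏ i, rho1 z (c i * y + d i) := by
    intro y hy
    obtain ⟨h7, h8⟩ := mem_filter.1 hy
    have h9 := mem_Ioc.1 h7
    have : (1 / Real.log M) ^ k = ∏ _i : Fin k, (1 / Real.log M) := by simp
    rw [this]
    refine prod_le_prod (fun _ _ => by positivity) fun i _ => ?_
    set v := c i * y + d i with hv
    have hyv : y ≤ v := by
      have := Nat.mul_le_mul_right y (hc i)
      omega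
    have hvM : v ≤ M := by
      have g1 : y ≤ b n := by omega
      have g2 := hCi i
      calc v ≤ c i * (b n + 1) + d i * (b n + 1) := by
            have e1 := Nat.mul_le_mul_left (c i) (show y ≤ b n + 1 by omega)
            have e2 : d i ≤ d i * (b n + 1) := Nat.le_mul_of_pos_right _ (by omega)
            omega
        _ = (c i + d i) * (b n + 1) := by ring
        _ ≤ M := Nat.mul_le_mul_right _ g2
    have hv3 : (3 : ℝ) ≤ v := by exact_mod_cast (by omega : 3 ≤ v)
    have hlv : 0 < Real.log v := Real.log_pos (by linarith)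
    have hlvM : Real.log v ≤ Real.log M := Real.log_le_log (by linarith) (by exact_mod_cast hvM)
    have hrough : Rough z v := by
      intro q hq hqz
      refine hPr y h8 q hq ?_ i
      apply Nat.le_floor
      have g1 := hm1 v (by omega)
      have g2 : (q : ℝ) ≤ z v := by exact_mod_cast hqz
      linarith
    unfold rho1
    rw [if_pos hrough]
    apply le_min
    · rw [div_le_one (by linarith)]
      exact hlogM1
    · have := W_ge (z v)
      gcongr
  -- the sum
  have hfinal : (N : ℝ) ^ (4 / 5 : ℝ) ≤ (N / P : ℕ) * (1 / Real.log M) ^ k := by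
    have g1 : (N : ℝ) / P - 1 ≤ (N / P : ℕ) := by
      have := Nat.lt_floor_add_one ((N : ℝ) / P)
      rw [Nat.floor_div_eq_div] at this
      linarith
    have g2 : c0 * (N : ℝ) ^ (9 / 10 : ℝ) ≤ (N : ℝ) / P := by
      rw [le_div_iff₀ hPr0]
      calc c0 * (N : ℝ) ^ (9 / 10 : ℝ) * P ≤ c0 * (N : ℝ) ^ (9 / 10 : ℝ) * (c0⁻¹ * (N : ℝ) ^ (1 / 10 : ℝ)) :=
            mul_le_mul_of_nonneg_left hPN (by positivity)
        _ = (c0 * c0⁻¹) * ((N : ℝ) ^ (9 / 10 : ℝ) * (N : ℝ) ^ (1 / 10 : ℝ)) := by ring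
        _ = N := by
          rw [mul_inv_cancel₀ hc0p.ne', one_mul, ← Real.rpow_add hNpos]
          norm_num
    have g3 : (1 : ℝ) ≤ (N : ℝ) ^ (17 / 20 : ℝ) := Real.one_le_rpow (by linarith) (by norm_num)
    have g4 : 2 * (N : ℝ) ^ (17 / 20 : ℝ) ≤ c0 * (N : ℝ) ^ (9 / 10 : ℝ) := by
      have e1 : (N : ℝ) ^ (9 / 10 : ℝ) = (N : ℝ) ^ (1 / 20 : ℝ) * (N : ℝ) ^ (17 / 20 : ℝ) := by
        rw [← Real.rpow_add hNpos]
        norm_num
      rw [e1, ← mul_assoc]
      rw [div_le_iff₀ hc0p] at h5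
      exact mul_le_mul_of_nonneg_right (by linarith) (by positivity)
    have g5 : (N : ℝ) ^ (17 / 20 : ℝ) ≤ (N / P : ℕ) := by linarith
    have g6 : 0 < Real.log M ^ k := by positivity
    rw [div_pow, one_pow, mul_one_div, le_div_iff₀ g6]
    calc (N : ℝ) ^ (4 / 5 : ℝ) * Real.log M ^ k ≤ (N : ℝ) ^ (4 / 5 : ℝ) * (N : ℝ) ^ (1 / 20 : ℝ) :=
          mul_le_mul_of_nonneg_left hlogMk (by positivity)
      _ = (N : ℝ) ^ (17 / 20 : ℝ) := by
        rw [← Real.rpow_add hNpos]
        norm_num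
      _ ≤ _ := g5
  calc (N : ℝ) ^ (4 / 5 : ℝ) ≤ (N / P : ℕ) * (1 / Real.log M) ^ k := hfinal
    _ ≤ (Gd.card : ℝ) * (1 / Real.log M) ^ k :=
        mul_le_mul_of_nonneg_right (by exact_mod_cast hcnt) (by positivity)
    _ = ∑ _y ∈ Gd, (1 / Real.log M) ^ k := by rw [sum_const, nsmul_eq_mul]
    _ ≤ ∑ y ∈ Gd, ∏ i, rho1 z (c i * y + d i) := sum_le_sum hterm
    _ ≤ _ := sum_le_sum_of_subset_of_nonneg hsubG fun y _ _ => prod_nonneg fun i _ => (rho1_bounds z _).1

end Pool.Agent.U949.CL
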