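import Mathlib
import Pool.Agent.U949.CL.CS3

/-! Variance and law of large numbers for the number of chosen sets (helper949). -/

set_option autoImplicit false
set_option linter.unusedSectionVars false

namespace Pool.Agent.U949.CL

open MeasureTheory ProbabilityTheory Filter Topology Finset

variable {Ω : Type*} [MeasurableSpace Ω] {μ : Measure Ω} [IsProbabilityMeasure μ]

lemma PP_disj (S : ℕ → Set Ω) {A B : Finset ℕ} (h : Disjoint A B) : PP μ S (A ∪ B) = PP μ S A * PP μ S B := by
  unfold PP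
  rw [prod_union h]

lemma var_le {S : ℕ → Set Ω} (hS : ∀ m, MeasurableSet (S m)) (hind : iIndepSet S μ) (F : Finset (Finset ℕ))
    (hF : ∀ A ∈ F, A.Nonempty) :
    ∫ ω, (WW S F ω - LL μ S F) ^ 2 ∂μ ≤ LL μ S F + bb μ S F := by
  classical
  have hW := WW_meas hS F
  have hWi := WW_int (μ := μ) hS F
  have hsq : ∀ ω, WW S F ω ^ 2 = ∑ A ∈ F, ∑ B ∈ F, XX S (A ∪ B) ω := by
    intro ω
    unfold WW
    rw [sq, sum_mul_sum]
    exact sum_congr rfl fun A _ => sum_congr rfl fun B _ => XX_mul S A B ω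
  have hsqi : Integrable (fun ω => WW S F ω ^ 2) μ := by
    simp_rw [hsq]
    exact integrable_finset_sum _ fun A _ => integrable_finset_sum _ fun B _ => XX_int hS _
  have h2 : ∫ ω, WW S F ω ^ 2 ∂μ = ∑ A ∈ F, ∑ B ∈ F, PP μ S (A ∪ B) := by
    simp_rw [hsq]
    rw [integral_finset_sum _ fun A _ => integrable_finset_sum _ fun B _ => XX_int hS _]
    refine sum_congr rfl fun A _ => ?_
    rw [integral_finset_sum _ fun B _ => XX_int hS _]
    exact sum_congr rfl fun B _ => XX_mean hS hind (A ∪ B)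
  have h3 : ∀ A ∈ F, ∑ B ∈ F, PP μ S (A ∪ B) ≤ PP μ S A * LL μ S F + PP μ S A + bA μ S F A := by
    intro A hA
    have hsplit : ∑ B ∈ F, PP μ S (A ∪ B) = ∑ B ∈ UU F A, PP μ S (A ∪ B) +
        (PP μ S (A ∪ A) + ∑ B ∈ ZZ F A, PP μ S (A ∪ B)) := by
      unfold UU ZZ
      rw [← sum_filter_add_sum_filter_not F (fun B => Disjoint A B)]
      congr 1
      have h1 : F.filter (fun B => ¬ Disjoint A B) = insert A (F.filter (fun B => B ≠ A ∧ ¬ Disjoint A B)) := by
        ext B
        rw [mem_filter, mem_insert, mem_filter]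
        constructor
        · rintro ⟨h1, h2⟩
          by_cases h : B = A
          · left; exact h
          · right; exact ⟨h1, h, h2⟩
        · rintro (h | ⟨h1, h2, h3⟩)
          · subst h
            refine ⟨hA, fun h => ?_⟩
            rw [disjoint_self_iff_empty] at h
            exact (hF B hA).ne_empty h
          · exact ⟨h1, h3⟩
      rw [h1, sum_insert (by
        rw [mem_filter]
        rintro ⟨-, h, -⟩
        exact h rfl)]
    have hU : ∑ B ∈ UU F A, PP μ S (A ∪ B) ≤ PP μ S A * LL μ S F := by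
      calc _ = ∑ B ∈ UU F A, PP μ S A * PP μ S B := by
            refine sum_congr rfl fun B hB => ?_
            unfold UU at hB
            exact PP_disj S (mem_filter.1 hB).2
        _ = PP μ S A * ∑ B ∈ UU F A, PP μ S B := by rw [mul_sum]
        _ ≤ _ := by
          refine mul_le_mul_of_nonneg_left ?_ (PP_nonneg S A)
          unfold UU LL
          exact sum_le_sum_of_subset_of_nonneg (filter_subset _ _) fun B _ _ => PP_nonneg S B
    have hA2 : PP μ S (A ∪ A) = PP μ S A := by rw [union_self]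
    have hb : ∑ B ∈ ZZ F A, PP μ S (A ∪ B) ≤ bA μ S F A := by
      unfold bA
      have h1 := PP_nonneg (μ := μ) S A
      have h2 : 0 ≤ ∑ B ∈ ZZ F A, PP μ S B := sum_nonneg fun B _ => PP_nonneg S B
      have : 0 ≤ PP μ S A * (PP μ S A + ∑ B ∈ ZZ F A, PP μ S B) := by positivity
      linarith
    rw [hsplit, hA2]
    linarith
  have h4 : ∫ ω, (WW S F ω - LL μ S F) ^ 2 ∂μ = ∫ ω, WW S F ω ^ 2 ∂μ - LL μ S F ^ 2 := by
    have e1 : ∀ ω, (WW S F ω - LL μ S F) ^ 2 = WW S F ω ^ 2 - (2 * LL μ S F * WW S F ω - LL μ S F ^ 2) := by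
      intro ω
      ring
    simp_rw [e1]
    have i1 : Integrable (fun ω => 2 * LL μ S F * WW S F ω) μ := hWi.const_mul _
    have i2 : Integrable (fun _ : Ω => LL μ S F ^ 2) μ := integrable_const _
    have i3 : Integrable (fun ω => 2 * LL μ S F * WW S F ω - LL μ S F ^ 2) μ := i1.sub i2
    rw [integral_sub hsqi i3, integral_sub i1 i2, integral_const_mul, WW_mean hS hind]
    have : ∑ A ∈ F, PP μ S A = LL μ S F := rfl
    rw [this, integral_const, probReal_univ, one_smul]
    ring
  rw [h4, h2]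
  have h5 := sum_le_sum h3
  have h6 : ∑ A ∈ F, (PP μ S A * LL μ S F + PP μ S A + bA μ S F A) = LL μ S F * LL μ S F + LL μ S F + bb μ S F := by
    rw [sum_add_distrib, sum_add_distrib, ← sum_mul]
    rfl
  nlinarith

/-- **Law of large numbers** -/
theorem tuple_lln {S : ℕ → Set Ω} (hS : ∀ m, MeasurableSet (S m)) (hind : iIndepSet S μ)
    (F : ℕ → Finset (Finset ℕ)) (hF : ∀ n, ∀ A ∈ F n, A.Nonempty) (δ : ℝ) (hδ : 1 < δ)
    (hL : ∀ᶠ n : ℕ in atTop, (n : ℝ) ^ δ ≤ LL μ S (F n))
    (hb : Tendsto (fun n => bb μ S (F n) / LL μ S (F n)) atTop (𝓝 0)) :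
    ∀ᵐ ω ∂μ, Tendsto (fun n => WW S (F n) ω / LL μ S (F n)) atTop (𝓝 1) := by
  classical
  have key : ∀ η : ℝ, 0 < η → ∀ᵐ ω ∂μ, ∀ᶠ n in atTop, |WW S (F n) ω - LL μ S (F n)| < η * LL μ S (F n) := by
    intro η hη
    obtain ⟨n0, hn0⟩ := eventually_atTop.1 (hL.and ((hb.eventually (ge_mem_nhds (show (0 : ℝ) < 1 by norm_num))).and
      (eventually_ge_atTop 1)))
    set s : ℕ → Set Ω := fun n => if n0 ≤ n then {ω | η * LL μ S (F n) ≤ |WW S (F n) ω - LL μ S (F n)|} else ∅ with hs
    have hsmall : ∀ n, μ (s n) ≤ ENNReal.ofReal (2 / η ^ 2 * ((n : ℝ) ^ δ)⁻¹) := by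
      intro n
      rw [hs]
      simp only
      split_ifs with h
      · obtain ⟨g1, g2, g3⟩ := hn0 n h
        have hnp : (0 : ℝ) < (n : ℝ) ^ δ := Real.rpow_pos_of_pos (by exact_mod_cast g3) _
        have hl0 : 0 < LL μ S (F n) := by linarith
        rw [div_le_one hl0] at g2
        have hm : Measurable (fun ω => (WW S (F n) ω - LL μ S (F n)) ^ 2) := by
          have := WW_meas hS (F n)
          fun_prop
        have hint : Integrable (fun ω => (WW S (F n) ω - LL μ S (F n)) ^ 2) μ := by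
          refine Integrable.of_bound (C := ((F n).card + LL μ S (F n)) ^ 2) hm.aestronglyMeasurable
            (Eventually.of_forall fun ω => ?_)
          rw [Real.norm_eq_abs, abs_of_nonneg (sq_nonneg _)]
          have k1 := WW_nonneg S (F n) ω
          have k2 := WW_le S (F n) ω
          apply sq_le_sq'
          · linarith
          · linarith
        have hmark := mul_meas_ge_le_integral_of_nonneg (μ := μ) (Eventually.of_forall fun ω => sq_nonneg (WW S (F n) ω - LL μ S (F n)))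
          hint ((η * LL μ S (F n)) ^ 2)
        have hset : {ω | η * LL μ S (F n) ≤ |WW S (F n) ω - LL μ S (F n)|} =
            {ω | (η * LL μ S (F n)) ^ 2 ≤ (WW S (F n) ω - LL μ S (F n)) ^ 2} := by
          ext ω
          show η * LL μ S (F n) ≤ |WW S (F n) ω - LL μ S (F n)| ↔
            (η * LL μ S (F n)) ^ 2 ≤ (WW S (F n) ω - LL μ S (F n)) ^ 2
          rw [← sq_abs (WW S (F n) ω - LL μ S (F n))]
          exact (pow_le_pow_iff_left₀ (by positivity) (abs_nonneg _) (by norm_num)).symm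
        rw [hset]
        have hv := var_le (μ := μ) hS hind (F n) (hF n)
        have h5 : μ.real {ω | (η * LL μ S (F n)) ^ 2 ≤ (WW S (F n) ω - LL μ S (F n)) ^ 2} ≤
            2 / η ^ 2 * ((n : ℝ) ^ δ)⁻¹ := by
          have h6 : 0 < (η * LL μ S (F n)) ^ 2 := by positivity
          have h7 : μ.real {ω | (η * LL μ S (F n)) ^ 2 ≤ (WW S (F n) ω - LL μ S (F n)) ^ 2} ≤
              2 * LL μ S (F n) / (η * LL μ S (F n)) ^ 2 := by
            rw [le_div_iff₀ h6, mul_comm]
            linarith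
          refine h7.trans ?_
          rw [mul_pow, div_mul_eq_mul_div, ← div_eq_mul_inv, div_div, mul_comm (η ^ 2)]
          rw [div_le_div_iff₀ (by positivity) (by positivity)]
          have : (n : ℝ) ^ δ * LL μ S (F n) ≤ LL μ S (F n) ^ 2 := by nlinarith
          calc 2 * LL μ S (F n) * ((n : ℝ) ^ δ * η ^ 2) = 2 * η ^ 2 * ((n : ℝ) ^ δ * LL μ S (F n)) := by ring
            _ ≤ 2 * η ^ 2 * LL μ S (F n) ^ 2 := mul_le_mul_of_nonneg_left this (by positivity)
            _ = _ := by ring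
        rw [← ENNReal.ofReal_toReal (measure_ne_top μ _)]
        exact ENNReal.ofReal_le_ofReal h5
      · simp
    have hsummable : Summable (fun n : ℕ => 2 / η ^ 2 * ((n : ℝ) ^ δ)⁻¹) :=
      (Real.summable_nat_rpow_inv.2 hδ).mul_left _
    have hfin : ∑' n, μ (s n) ≠ ⊤ :=
      ne_top_of_le_ne_top hsummable.tsum_ofReal_ne_top (ENNReal.tsum_le_tsum hsmall)
    filter_upwards [ae_eventually_notMem hfin] with ω hω
    filter_upwards [hω, eventually_ge_atTop n0] with n h1 h2
    by_contra hcon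
    apply h1
    rw [hs]
    simp only
    rw [if_pos h2]
    exact not_lt.1 hcon
  have hall : ∀ᵐ ω ∂μ, ∀ j : ℕ, ∀ᶠ n in atTop, |WW S (F n) ω - LL μ S (F n)| < 1 / ((j : ℝ) + 1) * LL μ S (F n) :=
    ae_all_iff.2 fun j => key _ (by positivity)
  filter_upwards [hall] with ω hω
  rw [Metric.tendsto_nhds]
  intro η hη
  obtain ⟨j, hj⟩ := exists_nat_one_div_lt hη
  filter_upwards [hω j, hL, eventually_ge_atTop 1] with n h1 h2 h3
  have hnp : (0 : ℝ) < (n : ℝ) ^ δ := Real.rpow_pos_of_pos (by exact_mod_cast h3) _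
  have hl0 : 0 < LL μ S (F n) := by linarith
  rw [Real.dist_eq, show WW S (F n) ω / LL μ S (F n) - 1 = (WW S (F n) ω - LL μ S (F n)) / LL μ S (F n) by
    field_simp, abs_div, abs_of_pos hl0, div_lt_iff₀ hl0]
  refine h1.trans_le (mul_le_mul_of_nonneg_right hj.le hl0.le)

end Pool.Agent.U949.CL
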