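import Mathlib
import Pool.Agent.U949.CL.Lin
import Pool.Agent.U949.CL.Var

/-! Linear forms with chosen values in windows: mean, limit law, law of large numbers, infinitely many
(helper949). -/

set_option autoImplicit false
set_option linter.unusedSectionVars false

namespace Pool.Agent.U949.CL

open MeasureTheory ProbabilityTheory Filter Topology Finset
open Pool.Agent.N233.GM

variable {Ω : Type*} [MeasurableSpace Ω] {μ : Measure Ω} [IsProbabilityMeasure μ]

lemma form_data (S : ℕ → Set Ω) {k : ℕ} (hk : 1 ≤ k)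
    (f : Fin k → ℕ → ℕ) (G : ℕ → Finset ℕ) (hinj : ∀ i n, Set.InjOn (f i) (G n))
    (hlt : ∀ n, ∀ y ∈ G n, ∀ i, i ≠ ⟨0, hk⟩ → f ⟨0, hk⟩ y < f i y)
    (hdist : ∀ n, ∀ y ∈ G n, Function.Injective (fun i => f i y)) :
    ∃ F : ℕ → Finset (Finset ℕ), (∀ n, ∀ B ∈ F n, B.card = k) ∧
      (∀ n m, ((F n).filter (fun B => m ∈ B)).card ≤ k) ∧
      (∀ n, LL μ S (F n) = ∑ y ∈ G n, ∏ i, μ.real (S (f i y))) ∧
      (∀ n ω, WW S (F n) ω = ∑ y ∈ G n, ∏ i, I1 (S (f i y)) ω) := by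
  classical
  set A : ℕ → Finset ℕ := fun y => univ.image (fun i => f i y) with hA
  have hAinj : ∀ n, Set.InjOn A (G n) := by
    intro n y hy y' hy' h
    have h0 : ∀ u ∈ G n, ∀ v ∈ G n, A u = A v → f ⟨0, hk⟩ v ≤ f ⟨0, hk⟩ u := by
      intro u hu v hv huv
      have h1 : f ⟨0, hk⟩ u ∈ A v := by
        rw [← huv]
        exact mem_image_of_mem _ (mem_univ _)
      obtain ⟨i, -, hi⟩ := mem_image.1 h1
      by_cases h2 : i = ⟨0, hk⟩
      · rw [h2] at hi
        exact hi.le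
      · have := hlt n v hv i h2
        omega
    have h1 : f ⟨0, hk⟩ y = f ⟨0, hk⟩ y' := le_antisymm (h0 y' hy' y hy h.symm) (h0 y hy y' hy' h)
    exact hinj _ n hy hy' h1
  have hprod : ∀ n, ∀ y ∈ G n, ∀ g : ℕ → ℝ, ∏ m ∈ A y, g m = ∏ i, g (f i y) := by
    intro n y hy g
    exact prod_image fun i _ j _ h => hdist n y hy h
  refine ⟨fun n => (G n).image A, ?_, ?_, ?_, ?_⟩
  · intro n B hB
    obtain ⟨y, hy, rfl⟩ := mem_image.1 hB
    rw [hA]
    simp only
    rw [card_image_of_injective _ (hdist n y hy), card_univ, Fintype.card_fin]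
  · intro n m
    have hsub : ((G n).image A).filter (fun B => m ∈ B) ⊆
        (univ : Finset (Fin k)).biUnion (fun i => ((G n).filter (fun y => f i y = m)).image A) := by
      intro B hB
      obtain ⟨h1, h2⟩ := mem_filter.1 hB
      obtain ⟨y, hy, rfl⟩ := mem_image.1 h1
      obtain ⟨i, -, hi⟩ := mem_image.1 h2
      exact mem_biUnion.2 ⟨i, mem_univ _, mem_image.2 ⟨y, mem_filter.2 ⟨hy, hi⟩, rfl⟩⟩
    calc _ ≤ _ := card_le_card hsub
      _ ≤ ∑ i : Fin k, (((G n).filter (fun y => f i y = m)).image A).card := card_biUnion_le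
      _ ≤ ∑ _i : Fin k, 1 := sum_le_sum fun i _ => by
          refine card_image_le.trans ?_
          rw [card_le_one]
          intro u hu v hv
          obtain ⟨u1, u2⟩ := mem_filter.1 hu
          obtain ⟨v1, v2⟩ := mem_filter.1 hv
          exact hinj i n u1 v1 (u2.trans v2.symm)
      _ = k := by simp
  · intro n
    unfold LL PP
    rw [sum_image (hAinj n)]
    refine sum_congr rfl fun y hy => ?_
    rw [hprod n y hy]
  · intro n ω
    unfold WW XX
    rw [sum_image (hAinj n)]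
    refine sum_congr rfl fun y hy => ?_
    rw [hprod n y hy (fun m => I1 (S m) ω)]

/-- few chosen sets are improbable when the mean is large -/
lemma few_chosen {S : ℕ → Set Ω} (hS : ∀ m, MeasurableSet (S m)) (hind : iIndepSet S μ)
    (F : Finset (Finset ℕ)) (hF : ∀ A ∈ F, A.Nonempty) (j : ℝ) (hl : 0 < LL μ S F) (hj : 2 * j ≤ LL μ S F)
    (hb : bb μ S F ≤ LL μ S F) : μ.real {ω | WW S F ω ≤ j} ≤ 8 / LL μ S F := by
  have hm : Measurable (fun ω => (WW S F ω - LL μ S F) ^ 2) := by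
    have := WW_meas hS F
    fun_prop
  have hint : Integrable (fun ω => (WW S F ω - LL μ S F) ^ 2) μ := by
    refine Integrable.of_bound (C := (F.card + LL μ S F) ^ 2) hm.aestronglyMeasurable
      (Eventually.of_forall fun ω => ?_)
    rw [Real.norm_eq_abs, abs_of_nonneg (sq_nonneg _)]
    have k1 := WW_nonneg S F ω
    have k2 := WW_le S F ω
    apply sq_le_sq'
    · linarith
    · linarith
  have hmark := mul_meas_ge_le_integral_of_nonneg (μ := μ)
    (Eventually.of_forall fun ω => sq_nonneg (WW S F ω - LL μ S F)) hint ((LL μ S F / 2) ^ 2)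
  have hv := var_le (μ := μ) hS hind F hF
  have hsub : {ω | WW S F ω ≤ j} ⊆ {ω | (LL μ S F / 2) ^ 2 ≤ (WW S F ω - LL μ S F) ^ 2} := by
    intro ω hω
    have h1 : WW S F ω ≤ j := hω
    show (LL μ S F / 2) ^ 2 ≤ (WW S F ω - LL μ S F) ^ 2
    nlinarith
  have h1 : μ.real {ω | WW S F ω ≤ j} ≤ μ.real {ω | (LL μ S F / 2) ^ 2 ≤ (WW S F ω - LL μ S F) ^ 2} :=
    measureReal_mono hsub (measure_ne_top _ _)
  rw [le_div_iff₀ hl]
  have h2 : (LL μ S F / 2) ^ 2 * μ.real {ω | WW S F ω ≤ j} ≤ 2 * LL μ S F := by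
    have := mul_le_mul_of_nonneg_left h1 (sq_nonneg (LL μ S F / 2))
    linarith
  have h3 : LL μ S F * (μ.real {ω | WW S F ω ≤ j} * LL μ S F) ≤ LL μ S F * 8 := by nlinarith
  exact le_of_mul_le_mul_left h3 hl

/-- the data of the problem: linear forms -/
structure Forms {k : ℕ} (hk : 1 ≤ k) (c d : Fin k → ℕ) : Prop where
  pos : ∀ i, 1 ≤ c i
  adm : ∀ q : ℕ, q.Prime → ∃ y, ∀ i, ¬ q ∣ c i * y + d i
  lt : ∀ y, 1 ≤ y → ∀ i, i ≠ ⟨0, hk⟩ → c ⟨0, hk⟩ * y + d ⟨0, hk⟩ < c i * y + d i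
  dist : ∀ y, 1 ≤ y → Function.Injective (fun i => c i * y + d i)

/-- the windows `(a n, b n]`; the part above `a' n` is long and high -/
structure Windows (a a' b : ℕ → ℕ) : Prop where
  le : ∀ n, a n ≤ a' n
  top : Tendsto a' atTop atTop
  le' : ∀ᶠ n in atTop, a' n ≤ b n
  pow : ∀ᶠ n in atTop, b n ≤ (b n - a' n) ^ 4
  len : Tendsto (fun n => b n - a' n) atTop atTop

/-- mean and limit law -/
theorem lin_all {k : ℕ} {hk : 1 ≤ k} {c d : Fin k → ℕ} (hf : Forms hk c d) (z : ℕ → ℕ)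
    (hz : ∀ᶠ m : ℕ in atTop, (z m : ℝ) ≤ Real.log m / 64) {a a' b : ℕ → ℕ} (hw : Windows a a' b)
    {S : ℕ → Set Ω} (hS : ∀ m, MeasurableSet (S m)) (hind : iIndepSet S μ)
    (hp : ∀ m, μ.real (S m) = rho1 z m) :
    (∀ᶠ n in atTop, ((b n - a' n : ℕ) : ℝ) ^ (4 / 5 : ℝ) ≤
      ∑ y ∈ Ioc (a n) (b n), ∏ i, rho1 z (c i * y + d i)) ∧
    (∀ x : ℝ, Tendsto (fun n => μ.real {ω | ∑ y ∈ Ioc (a n) (b n), ∏ i, I1 (S (c i * y + d i)) ω -
      ∑ y ∈ Ioc (a n) (b n), ∏ i, rho1 z (c i * y + d i) ≤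
      x * √(∑ y ∈ Ioc (a n) (b n), ∏ i, rho1 z (c i * y + d i))}) atTop
      (𝓝 ((gaussianReal 0 1).real (Set.Iic x)))) ∧
    (∀ᵐ ω ∂μ, {y | ∀ i, ω ∈ S (c i * y + d i)}.Infinite) ∧
    ((∃ δ : ℝ, 1 < δ ∧ ∀ᶠ n : ℕ in atTop, (n : ℝ) ^ δ ≤ ((b n - a' n : ℕ) : ℝ) ^ (4 / 5 : ℝ)) →
      ∀ᵐ ω ∂μ, Tendsto (fun n => (∑ y ∈ Ioc (a n) (b n), ∏ i, I1 (S (c i * y + d i)) ω) /
        ∑ y ∈ Ioc (a n) (b n), ∏ i, rho1 z (c i * y + d i)) atTop (𝓝 1)) := by
  classical
  have hlow := mean_low hk c d hf.pos hf.adm z hz a' b hw.top hw.le' hw.pow hw.len (fun n => Ioc (a n) (b n))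
    (fun n => Ioc_subset_Ioc_left (hw.le n))
  have hsm : ∀ δ : ℝ, 0 < δ → ∀ᶠ n : ℕ in atTop, (z n : ℝ) ≤ (n : ℝ) ^ δ := by
    intro δ hδ
    have e3 := (isLittleO_log_rpow_atTop hδ).bound (show (0 : ℝ) < 1 by norm_num)
    filter_upwards [hz, tendsto_natCast_atTop_atTop.eventually e3, eventually_ge_atTop 1] with n h1 h2 h3
    have hn1 : (1 : ℝ) ≤ n := by exact_mod_cast h3
    have hl := Real.log_nonneg hn1
    rw [Real.norm_eq_abs, Real.norm_eq_abs, abs_of_nonneg hl,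
      abs_of_nonneg (Real.rpow_nonneg (by linarith) _)] at h2
    linarith
  have hzero := rho1_zero z hsm
  have hpz : Tendsto (fun m => μ.real (S m)) atTop (𝓝 0) := by simpa only [hp] using hzero
  have hy1 : ∀ n, ∀ y ∈ Ioc (a n) (b n), 1 ≤ y := fun n y hy => by
    have := (mem_Ioc.1 hy).1
    omega
  have hinj : ∀ i n, Set.InjOn (fun y => c i * y + d i) (Ioc (a n) (b n) : Finset ℕ) := by
    intro i n u _ v _ h
    have h1 : c i * u = c i * v := by
      simp only at h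
      omega
    exact Nat.eq_of_mul_eq_mul_left (hf.pos i) h1
  obtain ⟨F, hF1, hF2, hF3, hF4⟩ := form_data (μ := μ) S hk (fun i y => c i * y + d i) (fun n => Ioc (a n) (b n)) hinj
    (fun n y hy i hi => hf.lt y (hy1 n y hy) i hi) (fun n y hy => hf.dist y (hy1 n y hy))
  have hF0 : ∀ n, ∀ A ∈ F n, A.Nonempty := fun n A hA => by
    rw [← card_pos, hF1 n A hA]
    omega
  simp only [hp] at hF3
  have hLtop : Tendsto (fun n => LL μ S (F n)) atTop atTop := by
    simp only [hF3]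
    refine tendsto_atTop_mono' _ hlow ?_
    exact (tendsto_rpow_atTop (by norm_num)).comp (tendsto_natCast_atTop_atTop.comp hw.len)
  have hbs := bb_small (μ := μ) S hpz k k hk F hF1 hF2 atTop hLtop
  refine ⟨hlow, fun x => ?_, ?_, ?_⟩
  · have h := tuple_clt_seq hS hind F hF0 hLtop hbs x
    simpa only [hF3, hF4] using h
  · -- infinitely many
    have hj : ∀ j : ℕ, μ {ω | ∀ n, WW S (F n) ω ≤ j} = 0 := by
      intro j
      have h1 : ∀ᶠ n in atTop, μ.real {ω | ∀ n, WW S (F n) ω ≤ j} ≤ 8 / LL μ S (F n) := by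
        filter_upwards [hLtop.eventually_gt_atTop 0, hLtop.eventually_ge_atTop (2 * j),
          hbs.eventually (ge_mem_nhds (show (0 : ℝ) < 1 by norm_num))] with n g1 g2 g3
        rw [div_le_one g1] at g3
        refine le_trans (measureReal_mono (fun ω hω => ?_) (measure_ne_top _ _))
          (few_chosen hS hind (F n) (hF0 n) j g1 g2 g3)
        exact hω n
      have h2 : Tendsto (fun n => 8 / LL μ S (F n)) atTop (𝓝 0) := hLtop.const_div_atTop 8
      have h3 : μ.real {ω | ∀ n, WW S (F n) ω ≤ j} ≤ 0 := ge_of_tendsto h2 h1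
      have h4 : μ.real {ω | ∀ n, WW S (F n) ω ≤ j} = 0 := le_antisymm h3 measureReal_nonneg
      exact (measureReal_eq_zero_iff).1 h4
    have hall : μ (⋃ j : ℕ, {ω | ∀ n, WW S (F n) ω ≤ j}) = 0 := measure_iUnion_null hj
    have hae : ∀ᵐ ω ∂μ, ω ∉ ⋃ j : ℕ, {ω | ∀ n, WW S (F n) ω ≤ j} := measure_eq_zero_iff_ae_notMem.1 hall
    filter_upwards [hae] with ω hω
    intro hfin
    apply hω
    rw [Set.mem_iUnion]
    refine ⟨hfin.toFinset.card, fun n => ?_⟩
    rw [hF4]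
    calc ∑ y ∈ Ioc (a n) (b n), ∏ i, I1 (S (c i * y + d i)) ω
        ≤ ∑ y ∈ (Ioc (a n) (b n)).filter (fun y => ∀ i, ω ∈ S (c i * y + d i)), (1 : ℝ) := by
          rw [sum_filter]
          refine sum_le_sum fun y _ => ?_
          split_ifs with h
          · exact prod_le_one (fun i _ => by rcases I1_cases (S (c i * y + d i)) ω with h | h <;> rw [h] <;> norm_num)
              fun i _ => by rcases I1_cases (S (c i * y + d i)) ω with h | h <;> rw [h] <;> norm_num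
          · push Not at h
            obtain ⟨i, hi⟩ := h
            rw [prod_eq_zero (mem_univ i) (by unfold I1; rw [Set.indicator_of_notMem hi])]
      _ = ((Ioc (a n) (b n)).filter (fun y => ∀ i, ω ∈ S (c i * y + d i))).card := by simp
      _ ≤ hfin.toFinset.card := by
        have : (Ioc (a n) (b n)).filter (fun y => ∀ i, ω ∈ S (c i * y + d i)) ⊆ hfin.toFinset := by
          intro y hy
          exact hfin.mem_toFinset.2 (mem_filter.1 hy).2
        exact_mod_cast card_le_card this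
  · rintro ⟨δ, hδ, hδn⟩
    have h := tuple_lln hS hind F hF0 δ hδ (by
      simp only [hF3]
      filter_upwards [hδn, hlow] with n g1 g2
      exact g1.trans g2) hbs
    simpa only [hF3, hF4] using h

/-- the number of points with chosen values -/
lemma count_eq {k : ℕ} (c d : Fin k → ℕ) (S : ℕ → Set Ω) (a b : ℕ) (ω : Ω) :
    ({y | a < y ∧ y ≤ b ∧ ∀ i, ω ∈ S (c i * y + d i)}.ncard : ℝ) =
      ∑ y ∈ Ioc a b, ∏ i, I1 (S (c i * y + d i)) ω := by
  classical
  have h0 : {y | a < y ∧ y ≤ b ∧ ∀ i, ω ∈ S (c i * y + d i)} =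
      (((Ioc a b).filter (fun y => ∀ i, ω ∈ S (c i * y + d i)) : Finset ℕ) : Set ℕ) := by
    ext y
    rw [mem_coe, mem_filter, mem_Ioc, and_assoc]
    rfl
  rw [h0, Set.ncard_coe_finset, card_filter]
  push_cast
  refine sum_congr rfl fun y _ => ?_
  by_cases h : ∀ i, ω ∈ S (c i * y + d i)
  · rw [if_pos h]
    exact (prod_eq_one fun i _ => by unfold I1; rw [Set.indicator_of_mem (h i)]).symm
  · rw [if_neg h]
    push Not at h
    obtain ⟨i, hi⟩ := h
    exact (prod_eq_zero (mem_univ i) (by unfold I1; rw [Set.indicator_of_notMem hi])).symm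

end Pool.Agent.U949.CL
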